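import Mathlib

open MeasureTheory Set
open scoped ENNReal

namespace Pool.Agent.X166.BD

theorem sqrt_le {κ p : ℝ} (hκ : 0 < κ) (hp : 0 ≤ p) :
    Real.sqrt (κ ^ 2 + p ^ 2) ≤ p + κ ^ 2 / (κ + p) := by
  have hd : 0 < κ + p := by linarith
  apply Real.sqrt_le_iff.2
  constructor
  · positivity
  · have h1 : (p + κ ^ 2 / (κ + p)) ^ 2 - (κ ^ 2 + p ^ 2) = κ ^ 2 * p ^ 2 / (κ + p) ^ 2 := by
      field_simp
      ring
    have h2 : 0 ≤ κ ^ 2 * p ^ 2 / (κ + p) ^ 2 := by positivity
    linarith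

theorem pointwise {κ f p d α P : ℝ} (hκ : 0 < κ) (hf : 0 ≤ f) (hP : 0 ≤ P) (hd : 0 ≤ d)
    (hα : 0 ≤ α) (hp : |p| ≤ P) (h : f ≤ α + P * d) :
    f * Real.sqrt (κ ^ 2 + p ^ 2) ≤ f * P + κ * α + κ ^ 2 * d := by
  have h1 : Real.sqrt (κ ^ 2 + p ^ 2) ≤ P + κ ^ 2 / (κ + P) := by
    refine (Real.sqrt_le_sqrt ?_).trans (sqrt_le hκ hP)
    have : p ^ 2 ≤ P ^ 2 := by
      rw [← sq_abs p]
      exact pow_le_pow_left₀ (abs_nonneg _) hp 2
    linarith
  have hkP : 0 < κ + P := by linarith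
  have h2 : f * (κ ^ 2 / (κ + P)) ≤ κ * α + κ ^ 2 * d := by
    rw [← mul_div_assoc, div_le_iff₀ hkP]
    nlinarith [mul_nonneg hκ.le hα, mul_nonneg (mul_nonneg hκ.le hα) hP,
      mul_nonneg (pow_nonneg hκ.le 3) hd, mul_nonneg (mul_nonneg (sq_nonneg κ) hd) hP,
      mul_le_mul_of_nonneg_left h (sq_nonneg κ)]
  calc f * Real.sqrt (κ ^ 2 + p ^ 2) ≤ f * (P + κ ^ 2 / (κ + P)) :=
        mul_le_mul_of_nonneg_left h1 hf
    _ = f * P + f * (κ ^ 2 / (κ + P)) := by ring
    _ ≤ f * P + κ * α + κ ^ 2 * d := by linarith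

/-- The one-dimensional inequality. -/
theorem line {f : ℝ → ℝ} (hf : ConvexOn ℝ univ f) (h0 : ∀ s, 0 ≤ f s) {κ a b : ℝ} (hκ0 : 0 < κ)
    (hκ : κ ≤ 1 / 2) (hab : a ≤ b) :
    ∫⁻ s in Icc a b, ENNReal.ofReal (f s * Real.sqrt (κ ^ 2 + (deriv f s) ^ 2))
      ≤ ENNReal.ofReal ((f a ^ 2 + f b ^ 2 + (b - a) ^ 2 / 2) / 2) := by
  have hcont : Continuous f := by
    have := hf.continuousOn isOpen_univ
    exact continuousOn_univ.1 this
  set p : ℝ → ℝ := fun s => derivWithin f (Ioi s) s with hp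
  have hmem : ∀ s : ℝ, s ∈ interior (univ : Set ℝ) := fun s => by simp
  have hpd : ∀ s, HasDerivWithinAt f (p s) (Ioi s) s := fun s =>
    hf.hasDerivWithinAt_rightDeriv_of_mem_interior (hmem s)
  have hpm : Monotone p := by
    have := hf.monotoneOn_rightDeriv
    rw [interior_univ] at this
    exact monotoneOn_univ.1 this
  have hdp : ∀ s, |deriv f s| ≤ |p s| := by
    intro s
    by_cases hd : DifferentiableAt ℝ f s
    · have : p s = deriv f s := by
        exact (hd.hasDerivAt.hasDerivWithinAt (s := Ioi s)).derivWithin (uniqueDiffWithinAt_Ioi s)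
      rw [this]
    · rw [deriv_zero_of_not_differentiableAt hd, abs_zero]
      exact abs_nonneg _
  obtain ⟨c, hc, hcmin⟩ := isCompact_Icc.exists_isMinOn (nonempty_Icc.2 hab) hcont.continuousOn
  set α := f c with hα
  have hα0 : 0 ≤ α := h0 c
  have hmin : ∀ s ∈ Icc a b, α ≤ f s := fun s hs => hcmin hs
  have hright : ∀ s, c < s → s ≤ b → 0 ≤ p s ∧ f s ≤ α + p s * (s - c) := by
    intro s hcs hsb
    have h1 : slope f c s ≤ p s := by
      have h2 : slope f s c ≤ derivWithin f (Iio s) s := by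
        rw [hf.leftDeriv_eq_sSup_slope_of_mem_interior (hmem s)]
        exact le_csSup (bddAbove_slope_gt_of_mem_interior hf (hmem s)) ⟨c, ⟨mem_univ _, hcs⟩, rfl⟩
      rw [slope_comm] at h2
      exact h2.trans (hf.leftDeriv_le_rightDeriv_of_mem_interior (hmem s))
    have hsc : 0 < s - c := by linarith
    rw [slope_def_field, div_le_iff₀ hsc] at h1
    have h3 := hmin s ⟨by linarith [hc.1], hsb⟩
    constructor
    · by_contra hneg
      nlinarith [not_le.1 hneg]
    · linarith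
  have hleft : ∀ s, a ≤ s → s < c → p s ≤ 0 ∧ f s ≤ α + (-p s) * (c - s) := by
    intro s has hsc
    have h1 : p s ≤ slope f s c := hf.rightDeriv_le_slope_of_mem_interior (hmem s) (mem_univ _) hsc
    have hsc' : 0 < c - s := by linarith
    rw [slope_def_field, le_div_iff₀ hsc'] at h1
    have h3 := hmin s ⟨has, by linarith [hc.2]⟩
    constructor
    · by_contra hpos
      nlinarith [not_le.1 hpos]
    · linarith
  -- interval integrability
  have hpi : ∀ u v, IntervalIntegrable p volume u v := fun u v =>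
    (hpm.monotoneOn _).intervalIntegrable
  have hfp : ∀ u v, IntervalIntegrable (fun s => f s * p s) volume u v := fun u v =>
    (hpi u v).continuousOn_mul hcont.continuousOn
  have hsqd : ∀ s, HasDerivWithinAt (fun s => f s ^ 2 / 2) (f s * p s) (Ioi s) s := by
    intro s
    have h : HasDerivWithinAt (fun s => f s ^ 2 / 2) (((2 : ℕ) : ℝ) * f s ^ (2 - 1) * p s / 2)
        (Ioi s) s := ((hpd s).pow 2).div_const 2
    have e : ((2 : ℕ) : ℝ) * f s ^ (2 - 1) * p s / 2 = f s * p s := by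
      rw [pow_one]; push_cast; ring
    rwa [e] at h
  -- right part
  have R : ∫⁻ s in Ioo c b, ENNReal.ofReal (f s * Real.sqrt (κ ^ 2 + (deriv f s) ^ 2))
      ≤ ENNReal.ofReal (f b ^ 2 / 2 - α ^ 2 / 2 + κ * α * (b - c) + κ ^ 2 * (b - c) ^ 2 / 2) := by
    set B : ℝ → ℝ := fun s => f s * p s + (κ * α + κ ^ 2 * (s - c)) with hB
    have hBi : IntervalIntegrable B volume c b := (hfp c b).add
      (Continuous.intervalIntegrable (by fun_prop) _ _)
    have hBI : ∫ s in c..b, B s
        = (f b ^ 2 / 2 + (κ * α * b + κ ^ 2 * (b - c) ^ 2 / 2))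
          - (f c ^ 2 / 2 + (κ * α * c + κ ^ 2 * (c - c) ^ 2 / 2)) := by
      have hG := intervalIntegral.integral_eq_sub_of_hasDeriv_right
        (f := fun s => f s ^ 2 / 2 + (κ * α * s + κ ^ 2 * (s - c) ^ 2 / 2)) (f' := B)
        (a := c) (b := b) (by fun_prop) (fun s _ => by
          refine (hsqd s).add ?_
          have : HasDerivAt (fun s => κ * α * s + κ ^ 2 * (s - c) ^ 2 / 2)
              (κ * α * 1 + κ ^ 2 * (2 * (s - c) ^ (2 - 1) * 1) / 2) s := by
            refine ((hasDerivAt_id s).const_mul _).add ?_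
            exact ((((hasDerivAt_id s).sub_const c).pow 2).const_mul (κ ^ 2)).div_const 2
          have h2 := this.hasDerivWithinAt (s := Ioi s)
          convert h2 using 1
          simp; ring) hBi
      exact hG
    have hBeq : ∫ s in c..b, B s
        = f b ^ 2 / 2 - α ^ 2 / 2 + κ * α * (b - c) + κ ^ 2 * (b - c) ^ 2 / 2 := by
      rw [hBI, ← hα]; ring
    rw [← hBeq, intervalIntegral.integral_of_le hc.2, integral_Ioc_eq_integral_Ioo,
      ofReal_integral_eq_lintegral_ofReal]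
    · refine setLIntegral_mono_ae' measurableSet_Ioo (Filter.Eventually.of_forall fun s hs => ?_)
      apply ENNReal.ofReal_le_ofReal
      obtain ⟨h1, h2⟩ := hright s hs.1 hs.2.le
      have h3 := pointwise (p := deriv f s) (P := p s) (d := s - c) hκ0 (h0 s) h1
        (by linarith [hs.1]) hα0 (by
          have := hdp s
          rwa [abs_of_nonneg h1] at this) h2
      simp only [hB]
      linarith
    · exact (hBi.1).mono_set Ioo_subset_Ioc_self
    · refine (ae_restrict_iff' measurableSet_Ioo).2 (Filter.Eventually.of_forall fun s hs => ?_)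
      obtain ⟨h1, h2⟩ := hright s hs.1 hs.2.le
      have h4 : 0 < s - c := by linarith [hs.1]
      have h5 := h0 s
      simp only [hB]
      positivity
  -- left part
  have Lf : ∫⁻ s in Ioo a c, ENNReal.ofReal (f s * Real.sqrt (κ ^ 2 + (deriv f s) ^ 2))
      ≤ ENNReal.ofReal (f a ^ 2 / 2 - α ^ 2 / 2 + κ * α * (c - a) + κ ^ 2 * (c - a) ^ 2 / 2) := by
    set B : ℝ → ℝ := fun s => -(f s * p s) + (κ * α + κ ^ 2 * (c - s)) with hB
    have hBi : IntervalIntegrable B volume a c := (hfp a c).neg.add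
      (Continuous.intervalIntegrable (by fun_prop) _ _)
    have hBI : ∫ s in a..c, B s
        = (-(f c ^ 2 / 2) + (κ * α * c - κ ^ 2 * (c - c) ^ 2 / 2))
          - (-(f a ^ 2 / 2) + (κ * α * a - κ ^ 2 * (c - a) ^ 2 / 2)) := by
      have hG := intervalIntegral.integral_eq_sub_of_hasDeriv_right
        (f := fun s => -(f s ^ 2 / 2) + (κ * α * s - κ ^ 2 * (c - s) ^ 2 / 2)) (f' := B)
        (a := a) (b := c) (by fun_prop) (fun s _ => by
          refine (hsqd s).neg.add ?_
          have : HasDerivAt (fun s => κ * α * s - κ ^ 2 * (c - s) ^ 2 / 2)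
              (κ * α * 1 - κ ^ 2 * (2 * (c - s) ^ (2 - 1) * (-1)) / 2) s := by
            refine ((hasDerivAt_id s).const_mul _).sub ?_
            exact ((((hasDerivAt_id s).const_sub c).pow 2).const_mul (κ ^ 2)).div_const 2
          have h2 := this.hasDerivWithinAt (s := Ioi s)
          convert h2 using 1
          simp; ring) hBi
      exact hG
    have hBeq : ∫ s in a..c, B s
        = f a ^ 2 / 2 - α ^ 2 / 2 + κ * α * (c - a) + κ ^ 2 * (c - a) ^ 2 / 2 := by
      rw [hBI, ← hα]; ring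
    rw [← hBeq, intervalIntegral.integral_of_le hc.1, integral_Ioc_eq_integral_Ioo,
      ofReal_integral_eq_lintegral_ofReal]
    · refine setLIntegral_mono_ae' measurableSet_Ioo (Filter.Eventually.of_forall fun s hs => ?_)
      apply ENNReal.ofReal_le_ofReal
      obtain ⟨h1, h2⟩ := hleft s hs.1.le hs.2
      have h3 := pointwise (p := deriv f s) (P := -p s) (d := c - s) hκ0 (h0 s) (by linarith)
        (by linarith [hs.2]) hα0 (by
          have := hdp s
          rwa [abs_of_nonpos h1] at this) h2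
      simp only [hB]
      linarith
    · exact (hBi.1).mono_set Ioo_subset_Ioc_self
    · refine (ae_restrict_iff' measurableSet_Ioo).2 (Filter.Eventually.of_forall fun s hs => ?_)
      obtain ⟨h1, h2⟩ := hleft s hs.1.le hs.2
      have h4 : 0 < c - s := by linarith [hs.2]
      have h5 := h0 s
      have h6 : 0 ≤ -(f s * p s) := by nlinarith
      simp only [hB]
      positivity
  have hsplit : ∫⁻ s in Icc a b, ENNReal.ofReal (f s * Real.sqrt (κ ^ 2 + (deriv f s) ^ 2))
      ≤ (∫⁻ s in Ioo a c, ENNReal.ofReal (f s * Real.sqrt (κ ^ 2 + (deriv f s) ^ 2)))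
        + ∫⁻ s in Ioo c b, ENNReal.ofReal (f s * Real.sqrt (κ ^ 2 + (deriv f s) ^ 2)) := by
    have h1 : Icc a b ⊆ (Icc a c) ∪ (Icc c b) := by
      rw [Icc_union_Icc_eq_Icc hc.1 hc.2]
    refine (lintegral_mono_set h1).trans ((lintegral_union_le _ _ _).trans ?_)
    rw [setLIntegral_congr (Ioo_ae_eq_Icc (a := a) (b := c)).symm,
      setLIntegral_congr (Ioo_ae_eq_Icc (a := c) (b := b)).symm]
  refine hsplit.trans ((add_le_add Lf R).trans ?_)
  rw [← ENNReal.ofReal_add]
  · apply ENNReal.ofReal_le_ofReal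
    have e1 : 0 ≤ c - a := by linarith [hc.1]
    have e2 : 0 ≤ b - c := by linarith [hc.2]
    have hk2 : κ ^ 2 ≤ 1 / 4 := by nlinarith
    nlinarith [sq_nonneg (α - κ * (b - a) / 2), mul_nonneg e1 e2,
      mul_nonneg (mul_nonneg e1 e2) (sq_nonneg κ), sq_nonneg (b - a),
      mul_nonneg (sub_nonneg.2 hk2) (sq_nonneg (b - a))]
  · have e1 : 0 ≤ c - a := by linarith [hc.1]
    have h1 := hmin a ⟨le_rfl, hab⟩
    have : α ^ 2 ≤ f a ^ 2 := pow_le_pow_left₀ hα0 h1 2
    have : 0 ≤ κ * α * (c - a) := by positivity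
    have : 0 ≤ κ ^ 2 * (c - a) ^ 2 / 2 := by positivity
    linarith
  · have e1 : 0 ≤ b - c := by linarith [hc.2]
    have h1 := hmin b ⟨hab, le_rfl⟩
    have : α ^ 2 ≤ f b ^ 2 := pow_le_pow_left₀ hα0 h1 2
    have : 0 ≤ κ * α * (b - c) := by positivity
    have : 0 ≤ κ ^ 2 * (b - c) ^ 2 / 2 := by positivity
    linarith

end Pool.Agent.X166.BD
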