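import Pool.Agent.X166.BDA

open MeasureTheory Set Metric
open scoped ENNReal

namespace Pool.Agent.X166.BD

/-- Euclidean space of dimension `k`. -/
abbrev Eu (k : ℕ) : Type := EuclideanSpace ℝ (Fin k)

/-- The factor normalising the k-dimensional Hausdorff measure. -/
noncomputable def cst (k : ℕ) : ℝ≥0∞ :=
  volume (closedBall (0 : Eu k) 1) / μH[(k : ℝ)] (closedBall (0 : Eu k) 1)

/-- k-dimensional Hausdorff measure, normalised to be Lebesgue measure in dimension `k`. -/
noncomputable def haus (k : ℕ) {X : Type} [EMetricSpace X] [MeasurableSpace X] [BorelSpace X] :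
    Measure X := cst k • μH[(k : ℝ)]

theorem haus_eq (k : ℕ) : (haus k : Measure (Eu k)) = volume := by
  have hfr : (Module.finrank ℝ (Eu k) : ℝ) = k := by simp
  have hH : (μH[(k : ℝ)] : Measure (Eu k)).IsAddHaarMeasure := by
    rw [← hfr]; infer_instance
  have h1 : (volume : Measure (Eu k))
      = (volume : Measure (Eu k)).addHaarScalarFactor (μH[(k : ℝ)]) • (μH[(k : ℝ)]) :=
    Measure.isAddLeftInvariant_eq_smul _ _
  set c := (volume : Measure (Eu k)).addHaarScalarFactor (μH[(k : ℝ)]) with hc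
  have hB0 : μH[(k : ℝ)] (closedBall (0 : Eu k) 1) ≠ 0 :=
    (measure_closedBall_pos _ _ one_pos).ne'
  have hBt : μH[(k : ℝ)] (closedBall (0 : Eu k) 1) ≠ ∞ :=
    (isCompact_closedBall (0 : Eu k) 1).measure_lt_top.ne
  have h2 : cst k = (c : ℝ≥0∞) := by
    unfold cst
    rw [h1]
    simp only [Measure.smul_apply]
    rw [ENNReal.smul_def, smul_eq_mul, ENNReal.mul_div_cancel_right hB0 hBt]
  unfold haus
  rw [h2]
  conv_rhs => rw [h1]
  rfl

variable {k : ℕ} (i : Fin (k + 1))

/-- insertion of the i-th coordinate -/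
def ins (s : ℝ) (y : Eu k) : Eu (k + 1) := WithLp.toLp 2 (i.insertNth s (y : Fin k → ℝ))

/-- forgetting the i-th coordinate -/
def prj (z : Eu (k + 1)) : Eu k := WithLp.toLp 2 (fun j => z (i.succAbove j))

theorem prj_ins (s : ℝ) (y : Eu k) : prj i (ins i s y) = y := by
  ext j; simp [prj, ins]

theorem ins_apply_same (s : ℝ) (y : Eu k) : (ins i s y) i = s := by
  simp [ins]

theorem ins_prj (z : Eu (k + 1)) : ins i (z i) (prj i z) = z := by
  ext j
  refine Fin.succAboveCases i ?_ (fun l => ?_) j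
  · simp [ins]
  · simp [ins, prj]

theorem prj_lip : LipschitzWith 1 (prj i) := by
  apply LipschitzWith.of_dist_le_mul
  intro z w
  rw [EuclideanSpace.dist_eq, EuclideanSpace.dist_eq, NNReal.coe_one, one_mul]
  apply Real.sqrt_le_sqrt
  rw [Fin.sum_univ_succAbove _ i]
  have : 0 ≤ dist (z i) (w i) ^ 2 := sq_nonneg _
  simpa [prj] using this

theorem ins_cont : Continuous (fun p : ℝ × Eu k => ins i p.1 p.2) := by
  unfold ins
  refine (PiLp.continuous_toLp 2 _).comp ?_
  refine continuous_pi fun j => ?_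
  refine Fin.succAboveCases i ?_ (fun l => ?_) j
  · simp; fun_prop
  · simp; fun_prop

theorem ins_add (s t : ℝ) (y : Eu k) :
    ins i (s + t) y = ins i s y + t • EuclideanSpace.single i (1 : ℝ) := by
  ext j
  refine Fin.succAboveCases i ?_ (fun l => ?_) j
  · simp [ins]
  · simp [ins]

theorem ins_comb (s t a b : ℝ) (hab : a + b = 1) (y : Eu k) :
    ins i (a * s + b * t) y = a • ins i s y + b • ins i t y := by
  ext j
  refine Fin.succAboveCases i ?_ (fun l => ?_) j
  · simp [ins]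
  · simp [ins]
    rw [← add_mul, hab, one_mul]

/-- Fubini. -/
theorem fub (Ψ : Eu (k + 1) → ℝ≥0∞) (hΨ : Measurable Ψ) :
    ∫⁻ z, Ψ z = ∫⁻ y : Eu k, ∫⁻ s : ℝ, Ψ (ins i s y) := by
  have h1 := (PiLp.volume_preserving_toLp (Fin (k + 1))).lintegral_comp hΨ
  rw [← h1]
  have h2 := (volume_preserving_piFinSuccAbove (fun _ : Fin (k + 1) => ℝ) i).symm.lintegral_comp
    (f := fun x => Ψ (WithLp.toLp 2 x)) (hΨ.comp (PiLp.continuous_toLp 2 _).measurable)
  rw [← h2]
  have h3 : Measurable (fun p : ℝ × (Fin k → ℝ) => Ψ (WithLp.toLp 2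
      ((MeasurableEquiv.piFinSuccAbove (fun _ : Fin (k + 1) => ℝ) i).symm p))) :=
    hΨ.comp ((PiLp.continuous_toLp 2 _).measurable.comp (MeasurableEquiv.measurable _))
  rw [Measure.volume_eq_prod, lintegral_prod_symm _ h3.aemeasurable]
  have h4 := (PiLp.volume_preserving_ofLp (Fin k)).lintegral_comp
    (f := fun y : Fin k → ℝ => ∫⁻ s : ℝ, Ψ (WithLp.toLp 2
      ((MeasurableEquiv.piFinSuccAbove (fun _ : Fin (k + 1) => ℝ) i).symm (s, y))))
    h3.lintegral_prod_left'
  rw [← h4]
  rfl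

/-- The projection inequality for a section. -/
theorem section_le {σ : Eu k → Eu (k + 1)} (hσ : Measurable σ) (hs : ∀ y, prj i (σ y) = y)
    {Q : Set (Eu k)} (hQ : MeasurableSet Q) {G : Eu (k + 1) → ℝ≥0∞} (hG : Measurable G) :
    MeasurableSet {z | prj i z ∈ Q ∧ σ (prj i z) = z} ∧
    ∫⁻ y in Q, G (σ y) ≤ ∫⁻ z in {z | prj i z ∈ Q ∧ σ (prj i z) = z}, G z ∂(haus k) := by
  have hp : Measurable (prj i) := (prj_lip i).continuous.measurable
  have hA : MeasurableSet {z | prj i z ∈ Q ∧ σ (prj i z) = z} :=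
    (hp hQ).inter (measurableSet_eq_fun (hσ.comp hp) measurable_id)
  refine ⟨hA, ?_⟩
  set A := {z | prj i z ∈ Q ∧ σ (prj i z) = z} with hAdef
  have hle : volume.restrict Q ≤ ((haus k : Measure (Eu (k + 1))).restrict A).map (prj i) := by
    rw [Measure.le_iff]
    intro T hT
    rw [Measure.restrict_apply hT, Measure.map_apply hp hT, Measure.restrict_apply (hp hT)]
    have hsub : T ∩ Q ⊆ prj i '' (prj i ⁻¹' T ∩ A) := by
      rintro y ⟨hyT, hyQ⟩
      refine ⟨σ y, ⟨?_, ?_, ?_⟩, hs y⟩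
      · show prj i (σ y) ∈ T
        rw [hs]; exact hyT
      · rw [hs]; exact hyQ
      · rw [hs]
    calc volume (T ∩ Q) ≤ volume (prj i '' (prj i ⁻¹' T ∩ A)) := measure_mono hsub
      _ = (haus k : Measure (Eu k)) (prj i '' (prj i ⁻¹' T ∩ A)) := by rw [haus_eq]
      _ ≤ (haus k : Measure (Eu (k + 1))) (prj i ⁻¹' T ∩ A) := by
          unfold haus
          simp only [Measure.smul_apply, smul_eq_mul]
          gcongr
          have := (prj_lip i).hausdorffMeasure_image_le (d := (k : ℝ)) (Nat.cast_nonneg k)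
            (prj i ⁻¹' T ∩ A)
          simpa using this
  calc ∫⁻ y in Q, G (σ y) ≤ ∫⁻ y, G (σ y) ∂(((haus k : Measure (Eu (k + 1))).restrict A).map (prj i)) :=
        lintegral_mono' hle le_rfl
    _ = ∫⁻ z in A, G (σ (prj i z)) ∂(haus k) := lintegral_map (hG.comp hσ) hp
    _ = ∫⁻ z in A, G z ∂(haus k) := by
        refine setLIntegral_congr_fun hA fun z hz => ?_
        exact congrArg G hz.2

end Pool.Agent.X166.BD
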