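import Pool.Agent.X166.BDB

open MeasureTheory Set Metric
open scoped ENNReal

namespace Pool.Agent.X166.BD

variable {k : ℕ} (i : Fin (k + 1))

/-- fibres -/
def fib (C : Set (Eu (k + 1))) (y : Eu k) : Set ℝ := {s | ins i s y ∈ C}

noncomputable def lo (C : Set (Eu (k + 1))) (y : Eu k) : ℝ := sInf (fib i C y)
noncomputable def hi (C : Set (Eu (k + 1))) (y : Eu k) : ℝ := sSup (fib i C y)

theorem ins_cont_left (y : Eu k) : Continuous (fun s => ins i s y) :=
  (ins_cont i).comp (Continuous.prodMk continuous_id continuous_const)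

theorem fib_compact {C : Set (Eu (k + 1))} (hC : IsCompact C) (y : Eu k) :
    IsCompact (fib i C y) := by
  have hcl : IsClosed (fib i C y) := hC.isClosed.preimage (ins_cont_left i y)
  obtain ⟨M, hM⟩ := hC.isBounded.exists_norm_le
  refine Metric.isCompact_of_isClosed_isBounded hcl ?_
  refine (Metric.isBounded_iff_subset_closedBall 0).2 ⟨M, fun s hs => ?_⟩
  rw [mem_closedBall_zero_iff]
  have h1 : ‖(ins i s y) i‖ ≤ ‖ins i s y‖ := PiLp.norm_apply_le _ _
  rw [ins_apply_same] at h1
  exact h1.trans (hM _ hs)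

theorem fib_eq {C : Set (Eu (k + 1))} (hC : IsCompact C) (hc : Convex ℝ C) {y : Eu k}
    (hy : (fib i C y).Nonempty) : lo i C y ≤ hi i C y ∧
      fib i C y = Icc (lo i C y) (hi i C y) := by
  have hK := fib_compact i hC y
  have hlo : lo i C y ∈ fib i C y := hK.sInf_mem hy
  have hhi : hi i C y ∈ fib i C y := hK.sSup_mem hy
  refine ⟨csInf_le hK.bddBelow hhi, Subset.antisymm ?_ ?_⟩
  · intro s hs
    exact ⟨csInf_le hK.bddBelow hs, le_csSup hK.bddAbove hs⟩
  · have hconv : Convex ℝ (fib i C y) := by
      intro s hs t ht a b ha hb hab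
      show ins i (a • s + b • t) y ∈ C
      rw [smul_eq_mul, smul_eq_mul, ins_comb i s t a b hab]
      exact hc hs ht ha hb hab
    exact hconv.ordConnected.out hlo hhi

/-- the shadow -/
def sh (C : Set (Eu (k + 1))) : Set (Eu k) := {y | (fib i C y).Nonempty}

theorem sh_image (C : Set (Eu (k + 1))) : sh i C = prj i '' C := by
  ext y
  constructor
  · rintro ⟨s, hs⟩
    exact ⟨_, hs, prj_ins i s y⟩
  · rintro ⟨z, hz, rfl⟩
    exact ⟨z i, by show ins i (z i) (prj i z) ∈ C; rw [ins_prj]; exact hz⟩

theorem sh_meas {C : Set (Eu (k + 1))} (hC : IsCompact C) : MeasurableSet (sh i C) := by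
  rw [sh_image]
  exact (hC.image (prj_lip i).continuous).measurableSet

theorem lo_meas {C : Set (Eu (k + 1))} (hC : IsCompact C) : Measurable (lo i C) := by
  refine measurable_of_Iic fun t => ?_
  have h1 : IsCompact (C ∩ {z | z i ≤ t}) :=
    hC.inter_right (isClosed_le (by fun_prop) continuous_const)
  have h2 : lo i C ⁻¹' Iic t = (prj i '' (C ∩ {z | z i ≤ t})) ∪ ((sh i C)ᶜ ∩ {_y | 0 ≤ t}) := by
    ext y
    by_cases hy : (fib i C y).Nonempty
    · have hK := fib_compact i hC y
      constructor
      · intro h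
        refine Or.inl ⟨ins i (lo i C y) y, ⟨hK.sInf_mem hy, ?_⟩, prj_ins i _ y⟩
        show (ins i (lo i C y) y) i ≤ t
        rw [ins_apply_same]
        exact h
      · rintro (⟨z, ⟨hz, hzt⟩, rfl⟩ | ⟨h, -⟩)
        · show lo i C (prj i z) ≤ t
          refine (csInf_le hK.bddBelow ?_).trans hzt
          show ins i (z i) (prj i z) ∈ C
          rw [ins_prj]; exact hz
        · exact absurd hy h
    · have he : fib i C y = ∅ := not_nonempty_iff_eq_empty.1 hy
      have hlo : lo i C y = 0 := by unfold lo; rw [he, Real.sInf_empty]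
      constructor
      · intro h
        have h' : lo i C y ≤ t := h
        rw [hlo] at h'
        exact Or.inr ⟨hy, h'⟩
      · rintro (⟨z, ⟨hz, hzt⟩, rfl⟩ | ⟨-, h⟩)
        · exact absurd ⟨z i, by show ins i (z i) (prj i z) ∈ C; rw [ins_prj]; exact hz⟩ hy
        · show lo i C y ≤ t
          rw [hlo]; exact h
  rw [h2]
  exact ((h1.image (prj_lip i).continuous).measurableSet).union
    ((sh_meas i hC).compl.inter (MeasurableSet.const _))

theorem hi_meas {C : Set (Eu (k + 1))} (hC : IsCompact C) : Measurable (hi i C) := by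
  refine measurable_of_Ici fun t => ?_
  have h1 : IsCompact (C ∩ {z | t ≤ z i}) :=
    hC.inter_right (isClosed_le continuous_const (by fun_prop))
  have h2 : hi i C ⁻¹' Ici t = (prj i '' (C ∩ {z | t ≤ z i})) ∪ ((sh i C)ᶜ ∩ {_y | t ≤ 0}) := by
    ext y
    by_cases hy : (fib i C y).Nonempty
    · have hK := fib_compact i hC y
      constructor
      · intro h
        refine Or.inl ⟨ins i (hi i C y) y, ⟨hK.sSup_mem hy, ?_⟩, prj_ins i _ y⟩
        show t ≤ (ins i (hi i C y) y) i
        rw [ins_apply_same]
        exact h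
      · rintro (⟨z, ⟨hz, hzt⟩, rfl⟩ | ⟨h, -⟩)
        · show t ≤ hi i C (prj i z)
          refine le_trans hzt (le_csSup hK.bddAbove ?_)
          show ins i (z i) (prj i z) ∈ C
          rw [ins_prj]; exact hz
        · exact absurd hy h
    · have he : fib i C y = ∅ := not_nonempty_iff_eq_empty.1 hy
      have hlo : hi i C y = 0 := by unfold hi; rw [he, Real.sSup_empty]
      constructor
      · intro h
        have h' : t ≤ hi i C y := h
        rw [hlo] at h'
        exact Or.inr ⟨hy, h'⟩
      · rintro (⟨z, ⟨hz, hzt⟩, rfl⟩ | ⟨-, h⟩)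
        · exact absurd ⟨z i, by show ins i (z i) (prj i z) ∈ C; rw [ins_prj]; exact hz⟩ hy
        · show t ≤ hi i C y
          rw [hlo]; exact h
  rw [h2]
  exact ((h1.image (prj_lip i).continuous).measurableSet).union
    ((sh_meas i hC).compl.inter (MeasurableSet.const _))

theorem norm_single_i : ‖(EuclideanSpace.single i (1 : ℝ) : Eu (k + 1))‖ = 1 := by
  simp

theorem lo_frontier {C : Set (Eu (k + 1))} (hC : IsCompact C) {y : Eu k}
    (hy : (fib i C y).Nonempty) : ins i (lo i C y) y ∈ frontier C := by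
  have hK := fib_compact i hC y
  have hmem : lo i C y ∈ fib i C y := hK.sInf_mem hy
  rw [frontier, hC.isClosed.closure_eq]
  refine ⟨hmem, fun hint => ?_⟩
  obtain ⟨ε, hε, hb⟩ := Metric.isOpen_iff.1 isOpen_interior _ hint
  have h1 : ins i (lo i C y + -(ε / 2)) y ∈ C := by
    apply interior_subset
    apply hb
    rw [ins_add, mem_ball, dist_self_add_left, norm_smul, norm_single_i, mul_one, Real.norm_eq_abs,
      abs_neg, abs_of_pos (by positivity)]
    linarith
  have h2 : lo i C y ≤ lo i C y + -(ε / 2) := csInf_le hK.bddBelow h1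
  linarith

theorem hi_frontier {C : Set (Eu (k + 1))} (hC : IsCompact C) {y : Eu k}
    (hy : (fib i C y).Nonempty) : ins i (hi i C y) y ∈ frontier C := by
  have hK := fib_compact i hC y
  have hmem : hi i C y ∈ fib i C y := hK.sSup_mem hy
  rw [frontier, hC.isClosed.closure_eq]
  refine ⟨hmem, fun hint => ?_⟩
  obtain ⟨ε, hε, hb⟩ := Metric.isOpen_iff.1 isOpen_interior _ hint
  have h1 : ins i (hi i C y + ε / 2) y ∈ C := by
    apply interior_subset
    apply hb
    rw [ins_add, mem_ball, dist_self_add_left, norm_smul, norm_single_i, mul_one, Real.norm_eq_abs,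
      abs_of_pos (by positivity)]
    linarith
  have h2 : hi i C y + ε / 2 ≤ hi i C y := le_csSup hK.bddAbove h1
  linarith

/-- The projection inequality: both ends of all fibres. -/
theorem proj_le {C : Set (Eu (k + 1))} (hC : IsCompact C) {G : Eu (k + 1) → ℝ≥0∞}
    (hG : Measurable G) :
    ∫⁻ y in {y | y ∈ sh i C ∧ lo i C y < hi i C y}, (G (ins i (lo i C y) y) + G (ins i (hi i C y) y))
      ≤ ∫⁻ z in frontier C, G z ∂(haus k) := by
  have hlom := lo_meas i hC
  have him := hi_meas i hC
  have hQ : MeasurableSet {y | y ∈ sh i C ∧ lo i C y < hi i C y} :=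
    (sh_meas i hC).inter (measurableSet_lt hlom him)
  set Q := {y | y ∈ sh i C ∧ lo i C y < hi i C y} with hQdef
  have hσ1 : Measurable fun y => ins i (lo i C y) y :=
    (ins_cont i).measurable.comp (hlom.prodMk measurable_id)
  have hσ2 : Measurable fun y => ins i (hi i C y) y :=
    (ins_cont i).measurable.comp (him.prodMk measurable_id)
  obtain ⟨m1, e1⟩ := section_le i hσ1 (fun y => prj_ins i _ y) hQ hG
  obtain ⟨m2, e2⟩ := section_le i hσ2 (fun y => prj_ins i _ y) hQ hG
  have hc1 : Measurable (fun y => G (ins i (lo i C y) y)) := hG.comp hσ1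
  rw [lintegral_add_left hc1]
  refine (add_le_add e1 e2).trans ?_
  rw [← lintegral_union m2]
  · refine lintegral_mono_set ?_
    rintro z (⟨hz1, hz2⟩ | ⟨hz1, hz2⟩)
    · rw [← hz2]; exact lo_frontier i hC hz1.1
    · rw [← hz2]; exact hi_frontier i hC hz1.1
  · rw [Set.disjoint_left]
    rintro z ⟨hz1, hz2⟩ ⟨-, hz3⟩
    have h4 := congrArg (fun w : Eu (k + 1) => w i) (hz2.trans hz3.symm)
    simp only [ins_apply_same] at h4
    exact absurd h4 hz1.2.ne

/-- The inequality in the i-th direction. -/
theorem dir_le {C : Set (Eu (k + 1))} (hC : IsCompact C) (hc : Convex ℝ C) {h : Eu (k + 1) → ℝ}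
    (hh : ConvexOn ℝ univ h) (h0 : ∀ z, 0 ≤ h z) {κ : ℝ} (hκ0 : 0 < κ) (hκ : κ ≤ 1 / 2) :
    ∫⁻ z in C, ENNReal.ofReal (h z * Real.sqrt (κ ^ 2 +
        (lineDeriv ℝ h z (EuclideanSpace.single i (1 : ℝ))) ^ 2))
      ≤ ENNReal.ofReal (1 / 2) *
        ∫⁻ z in frontier C, ENNReal.ofReal (‖z‖ ^ 2 + h z ^ 2) ∂(haus k) := by
  have hcont : Continuous h := continuousOn_univ.1 (hh.continuousOn isOpen_univ)
  have hCm : MeasurableSet C := hC.measurableSet
  set e : Eu (k + 1) := EuclideanSpace.single i (1 : ℝ) with he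
  set Φ : Eu (k + 1) → ℝ≥0∞ := fun z => ENNReal.ofReal (h z * Real.sqrt (κ ^ 2 +
        (lineDeriv ℝ h z e) ^ 2)) with hΦ
  have hld : Measurable fun z => lineDeriv ℝ h z e := measurable_lineDeriv hcont
  have hΦm : Measurable Φ := by
    refine ENNReal.measurable_ofReal.comp (hcont.measurable.mul ?_)
    exact ((hld.pow_const 2).const_add _).sqrt
  set G : Eu (k + 1) → ℝ≥0∞ := fun z => ENNReal.ofReal (‖z‖ ^ 2 + h z ^ 2) with hG
  have hGm : Measurable G := by
    refine ENNReal.measurable_ofReal.comp ?_
    exact (measurable_norm.pow_const 2).add (hcont.measurable.pow_const 2)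
  set Q := {y | y ∈ sh i C ∧ lo i C y < hi i C y} with hQdef
  have hQ : MeasurableSet Q :=
    (sh_meas i hC).inter (measurableSet_lt (lo_meas i hC) (hi_meas i hC))
  have hproj := proj_le i hC hGm
  rw [← lintegral_indicator hCm, fub i _ (hΦm.indicator hCm)]
  have hin : ∀ y : Eu k, ∫⁻ s : ℝ, C.indicator Φ (ins i s y)
      ≤ Q.indicator (fun y => ENNReal.ofReal (1 / 2) *
        (G (ins i (lo i C y) y) + G (ins i (hi i C y) y))) y := by
    intro y
    have h1 : (fun s : ℝ => C.indicator Φ (ins i s y))
        = (fib i C y).indicator (fun s => Φ (ins i s y)) := by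
      funext s
      by_cases hs : ins i s y ∈ C
      · rw [indicator_of_mem hs, indicator_of_mem (show s ∈ fib i C y from hs)]
      · rw [indicator_of_notMem hs, indicator_of_notMem (show s ∉ fib i C y from hs)]
    rw [h1, lintegral_indicator (fib_compact i hC y).measurableSet]
    by_cases hy : (fib i C y).Nonempty
    · obtain ⟨hle, heq⟩ := fib_eq i hC hc hy
      rcases hle.eq_or_lt with hEq | hlt
      · rw [heq, hEq, Icc_self]
        simp
      · rw [indicator_of_mem (show y ∈ Q from ⟨hy, hlt⟩), heq]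
        set f : ℝ → ℝ := fun s => h (ins i s y) with hf
        have hfconv : ConvexOn ℝ univ f := by
          refine ⟨convex_univ, fun s _ t _ a b ha hb hab => ?_⟩
          show h (ins i (a • s + b • t) y) ≤ a • h (ins i s y) + b • h (ins i t y)
          rw [smul_eq_mul a s, smul_eq_mul b t, ins_comb i s t a b hab]
          exact hh.2 (mem_univ _) (mem_univ _) ha hb hab
        have hderiv : ∀ s, lineDeriv ℝ h (ins i s y) e = deriv f s := by
          intro s
          unfold lineDeriv
          have : (fun t : ℝ => h (ins i s y + t • e)) = fun t => f (s + t) := by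
            funext t
            simp only [hf]
            rw [ins_add]
          rw [this, deriv_comp_const_add, add_zero]
        have hl := line hfconv (fun s => h0 _) hκ0 hκ hle
        have h2 : ∀ s, Φ (ins i s y) = ENNReal.ofReal (f s * Real.sqrt (κ ^ 2 + (deriv f s) ^ 2)) := by
          intro s
          simp only [hΦ]
          rw [hderiv]
        simp only [h2]
        refine hl.trans ?_
        simp only [hG]
        rw [← ENNReal.ofReal_add (by positivity) (by positivity),
          ← ENNReal.ofReal_mul (by norm_num)]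
        apply ENNReal.ofReal_le_ofReal
        -- the length of the fibre
        have h3 : hi i C y - lo i C y ≤ ‖ins i (lo i C y) y‖ + ‖ins i (hi i C y) y‖ := by
          have h4 : ins i (hi i C y) y - ins i (lo i C y) y = (hi i C y - lo i C y) • e := by
            have := ins_add i (lo i C y) (hi i C y - lo i C y) y
            rw [add_sub_cancel] at this
            rw [this, add_sub_cancel_left]
          have h5 : ‖ins i (hi i C y) y - ins i (lo i C y) y‖ = hi i C y - lo i C y := by
            rw [h4, norm_smul, he, norm_single_i, mul_one, Real.norm_of_nonneg (by linarith)]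
          have h8 := norm_sub_le (ins i (hi i C y) y) (ins i (lo i C y) y)
          rw [h5] at h8
          linarith
        have h6 : 0 ≤ hi i C y - lo i C y := by linarith
        have h7 : (hi i C y - lo i C y) ^ 2
            ≤ (‖ins i (lo i C y) y‖ + ‖ins i (hi i C y) y‖) ^ 2 := pow_le_pow_left₀ h6 h3 2
        simp only [hf]
        nlinarith [sq_nonneg (‖ins i (lo i C y) y‖ - ‖ins i (hi i C y) y‖)]
    · have : fib i C y = ∅ := not_nonempty_iff_eq_empty.1 hy
      rw [this]
      simp
  refine (lintegral_mono hin).trans ?_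
  rw [lintegral_indicator hQ, lintegral_const_mul' _ _ ENNReal.ofReal_ne_top]
  gcongr

end Pool.Agent.X166.BD
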