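import Pool.Agent.H460BZ.Lemma
import Pool.Agent.TH84.HC.Gauss
import Pool.Agent.PZ871.Pl
import Pool.Agent.PZ871.Gdens
import Pool.Agent.PZ871.Grot

/-!
# Gaussian tools for vector balancing: concentration, slabs, dilation, balancing
-/

set_option autoImplicit false

namespace Pool.Agent.X166.BZ

open MeasureTheory ProbabilityTheory Set
open scoped ENNReal Pointwise

abbrev E (n : ℕ) := EuclideanSpace ℝ (Fin n)

/-- standard Gaussian measure -/
noncomputable abbrev ga (n : ℕ) : Measure (E n) := stdGaussian (E n)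

/-- concentration of measure for the Gaussian measure -/
theorem conc (n : ℕ) (A : Set (E n)) (hA : IsClosed A) (s : ℝ) (hs : 0 ≤ s) :
    ga n {x | s ≤ Metric.infDist x A} * ga n A ≤ ENNReal.ofReal (Real.exp (-(s^2/4))) := by
  set κ : ℝ := (2 * Real.pi) ^ (-(n:ℝ)/2) with hκ
  have hκ0 : 0 ≤ κ := by positivity
  let ψ : E n → ℝ≥0∞ := fun x => ENNReal.ofReal (κ * Real.exp (-‖x‖^2/2))
  have hψm : Measurable ψ := by
    refine ENNReal.measurable_ofReal.comp ?_
    fun_prop
  have hγ : ∀ S : Set (E n), MeasurableSet S → ga n S = ∫⁻ x, S.indicator ψ x := by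
    intro S hS
    have := Pool.Agent.PZ871.M_gdens.gdens n
    unfold Pool.Agent.PZ871.gm at this
    show stdGaussian (E n) S = _
    rw [this, withDensity_apply _ hS, lintegral_indicator hS]
  have hF : IsClosed {x : E n | s ≤ Metric.infDist x A} :=
    isClosed_le continuous_const (Metric.continuous_infDist_pt A)
  set F := {x : E n | s ≤ Metric.infDist x A} with hFdef
  set c : ℝ≥0∞ := ENNReal.ofReal (Real.exp (-(s^2/8))) with hc
  have hPL := Pool.Agent.PZ871.M_pl.pl n (F.indicator ψ) (A.indicator ψ) (fun x => c * ψ x)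
    (hψm.indicator hF.measurableSet) (hψm.indicator hA.measurableSet) (hψm.const_mul c) (by
      intro x y
      by_cases hx : x ∈ F
      · by_cases hy : y ∈ A
        · rw [Set.indicator_of_mem hx, Set.indicator_of_mem hy]
          show ENNReal.ofReal _ * ENNReal.ofReal _ ≤ (ENNReal.ofReal _ * ENNReal.ofReal _) ^ 2
          rw [← ENNReal.ofReal_mul (by positivity), ← ENNReal.ofReal_mul (by positivity),
            ← ENNReal.ofReal_pow (by positivity)]
          apply ENNReal.ofReal_le_ofReal
          have hd : s ≤ ‖x - y‖ := by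
            have := Metric.infDist_le_dist_of_mem (x := x) hy
            rw [dist_eq_norm] at this
            exact le_trans hx this
          have hd2 : s ^ 2 ≤ ‖x - y‖ ^ 2 := pow_le_pow_left₀ hs hd 2
          have e1 : κ * Real.exp (-‖x‖^2/2) * (κ * Real.exp (-‖y‖^2/2)) =
              κ^2 * Real.exp (-‖x‖^2/2 + -‖y‖^2/2) := by
            rw [Real.exp_add]; ring
          have e2 : (Real.exp (-(s^2/8)) * (κ * Real.exp (-‖(1/2:ℝ) • (x + y)‖^2/2)))^2 =
              κ^2 * Real.exp (-(s^2/4) + -‖(1/2:ℝ) • (x + y)‖^2) := by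
            rw [mul_pow, mul_pow, ← Real.exp_nat_mul, ← Real.exp_nat_mul, mul_left_comm,
              ← Real.exp_add]
            congr 2
            push_cast
            ring
          rw [e1, e2]
          apply mul_le_mul_of_nonneg_left _ (by positivity)
          apply Real.exp_le_exp.2
          have e3 : ‖(1/2:ℝ) • (x + y)‖^2 = (‖x‖^2 + 2 * inner ℝ x y + ‖y‖^2)/4 := by
            rw [norm_smul, mul_pow, norm_add_sq_real]
            norm_num
            ring
          rw [norm_sub_sq_real] at hd2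
          rw [e3]
          linarith
        · rw [Set.indicator_of_notMem hy]; simp
      · rw [Set.indicator_of_notMem hx]; simp)
  rw [← hγ F hF.measurableSet, ← hγ A hA.measurableSet, lintegral_const_mul _ hψm] at hPL
  have h1 : ∫⁻ x, ψ x = 1 := by
    have := hγ univ MeasurableSet.univ
    rw [indicator_univ] at this
    rw [← this]
    exact measure_univ
  rw [h1, mul_one, hc, ← ENNReal.ofReal_pow (Real.exp_pos _).le, ← Real.exp_nat_mul] at hPL
  refine hPL.trans (le_of_eq ?_)
  congr 2
  push_cast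
  ring

/-- the one dimensional Gaussian measure of a symmetric interval -/
theorem g1_le (r : ℝ) (hr : 0 ≤ r) : gaussianReal 0 1 (Icc (-r) r) ≤ ENNReal.ofReal r := by
  rw [gaussianReal_apply _ one_ne_zero]
  have h1 : ∀ x, gaussianPDF 0 1 x ≤ ENNReal.ofReal (1/2) := by
    intro x
    unfold gaussianPDF
    apply ENNReal.ofReal_le_ofReal
    unfold gaussianPDFReal
    have h2 : Real.exp (-(x - 0) ^ 2 / (2 * ((1 : NNReal) : ℝ))) ≤ 1 := by
      rw [Real.exp_le_one_iff]
      apply div_nonpos_of_nonpos_of_nonneg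
      · nlinarith [sq_nonneg (x - 0)]
      · norm_num
    have h3 : (√(2 * Real.pi * ((1 : NNReal) : ℝ)))⁻¹ ≤ 1/2 := by
      rw [inv_le_comm₀ (by positivity) (by norm_num)]
      apply Real.le_sqrt_of_sq_le
      have := Real.pi_gt_three
      norm_num
      linarith
    calc _ ≤ (√(2 * Real.pi * ((1 : NNReal) : ℝ)))⁻¹ * 1 :=
          mul_le_mul_of_nonneg_left h2 (by positivity)
      _ ≤ 1/2 := by rw [mul_one]; exact h3
  calc ∫⁻ x in Icc (-r) r, gaussianPDF 0 1 x ≤ ∫⁻ x in Icc (-r) r, ENNReal.ofReal (1/2) :=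
        lintegral_mono fun x => h1 x
    _ = ENNReal.ofReal r := by
        rw [setLIntegral_const, Real.volume_Icc, ← ENNReal.ofReal_mul (by norm_num)]
        congr 1
        ring

/-- the Gaussian measure of a slab -/
theorem slab_le (n : ℕ) (v : E n) (hv : ‖v‖ = 1) (r : ℝ) (hr : 0 ≤ r) :
    ga n {x | |inner ℝ v x| ≤ r} ≤ ENNReal.ofReal r := by
  have hm : Measurable (fun x : E n => inner ℝ v x) := by fun_prop
  have h1 : (ga n).map (fun x : E n => inner ℝ v x) = gaussianReal 0 1 := by
    haveI : IsProbabilityMeasure ((ga n).map (fun x : E n => inner ℝ v x)) :=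
      Measure.isProbabilityMeasure_map hm.aemeasurable
    apply Measure.ext_of_charFun
    funext t
    rw [charFun_apply, integral_map hm.aemeasurable (by fun_prop), charFun_gaussianReal]
    have h2 := charFun_stdGaussian (E := E n) (t • v)
    rw [charFun_apply] at h2
    have h3 : ∀ x : E n, (inner ℝ (inner ℝ v x) t : ℝ) = inner ℝ x (t • v) := by
      intro x
      rw [inner_smul_right, real_inner_comm x v]
      simp
    simp only [h3]
    rw [h2]
    congr 1
    rw [norm_smul, hv]
    have h4 : ((|t| : ℝ) : ℂ) ^ 2 = (t : ℂ) ^ 2 := by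
      rw [← Complex.ofReal_pow, ← Complex.ofReal_pow, sq_abs]
    simp [h4]
    ring
  have h2 : {x : E n | |inner ℝ v x| ≤ r} = (fun x : E n => inner ℝ v x) ⁻¹' (Icc (-r) r) := by
    ext x
    rw [mem_preimage, mem_Icc, ← abs_le]
    rfl
  rw [h2, ← Measure.map_apply hm measurableSet_Icc, h1]
  exact g1_le r hr

/-- a symmetric closed convex set of large Gaussian measure contains a ball -/
theorem ball_sub (n : ℕ) (K : Set (E n)) (hK : IsClosed K) (hc : Convex ℝ K)
    (hs : ∀ x ∈ K, -x ∈ K) (r : ℝ) (hr : 0 ≤ r) (h : ENNReal.ofReal r < ga n K) :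
    Metric.closedBall 0 r ⊆ K := by
  intro x hx
  by_contra hxK
  obtain ⟨f, u, hf, hu⟩ := geometric_hahn_banach_closed_point hc hK hxK
  set w := (InnerProductSpace.toDual ℝ (E n)).symm f with hw
  have hfw : ∀ y, f y = inner ℝ w y := by
    intro y
    rw [hw, InnerProductSpace.toDual_symm_apply]
  rw [mem_closedBall_zero_iff] at hx
  have hne : K.Nonempty := by
    by_contra hcon
    rw [Set.not_nonempty_iff_eq_empty] at hcon
    rw [hcon, measure_empty] at h
    exact absurd h not_lt_zero
  have hw0 : w ≠ 0 := by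
    intro h0
    obtain ⟨a, ha⟩ := hne
    have h1 := hf a ha
    rw [hfw, h0, inner_zero_left] at h1 hu
    linarith
  have hwn : 0 < ‖w‖ := norm_pos_iff.2 hw0
  set v := (‖w‖⁻¹ : ℝ) • w with hv
  have hv1 : ‖v‖ = 1 := by
    rw [hv, norm_smul, norm_inv, norm_norm, inv_mul_cancel₀ hwn.ne']
  have hsub : K ⊆ {y | |inner ℝ v y| ≤ r} := by
    intro y hy
    have h1 := hf y hy
    have h2 := hf (-y) (hs y hy)
    rw [map_neg] at h2
    rw [hfw] at h1 h2 hu
    have h3 : inner ℝ w x ≤ ‖w‖ * r :=
      (real_inner_le_norm w x).trans (mul_le_mul_of_nonneg_left hx hwn.le)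
    show |inner ℝ v y| ≤ r
    rw [hv, real_inner_smul_left, abs_mul, abs_inv, abs_norm, inv_mul_le_iff₀ hwn, abs_le]
    constructor <;> linarith
  exact absurd h (not_lt.2 ((measure_mono hsub).trans (slab_le n v hv1 r hr)))

/-- dilation of symmetric sets -/
theorem dilate (n : ℕ) (K : Set (E n)) (hK : IsClosed K) (hc : Convex ℝ K)
    (hs : ∀ x ∈ K, -x ∈ K) (q : ℝ) (hq : 0 < q) (hq1 : q ≤ (ga n K).toReal) (s : ℝ) (hs0 : 0 < s)
    (hsq : Real.exp (-(s ^ 2 / 4)) ≤ q / 100) :
    99 / 100 ≤ (ga n ((1 + 2 * s / q) • K)).toReal := by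
  have hball : Metric.closedBall (0 : E n) (q / 2) ⊆ K := by
    apply ball_sub n K hK hc hs (q / 2) (by positivity)
    rw [ENNReal.ofReal_lt_iff_lt_toReal (by positivity) (measure_ne_top _ _)]
    linarith
  set t : ℝ := 2 * s / q with ht
  have ht0 : 0 < t := by positivity
  have hts : t * (q / 2) = s := by
    rw [ht]; field_simp
  have hKne : K.Nonempty := ⟨0, hball (Metric.mem_closedBall_self (by positivity))⟩
  have hcompl : ((1 + t) • K)ᶜ ⊆ {x | s ≤ Metric.infDist x K} := by
    intro x hx
    by_contra hcon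
    apply hx
    have hlt : Metric.infDist x K < s := not_le.1 hcon
    obtain ⟨y, hy, hxy⟩ := (Metric.infDist_lt_iff hKne).1 hlt
    rw [dist_eq_norm] at hxy
    have h1 : t⁻¹ • (x - y) ∈ K := by
      apply hball
      rw [mem_closedBall_zero_iff, norm_smul, norm_inv, Real.norm_of_nonneg ht0.le,
        inv_mul_le_iff₀ ht0, hts]
      exact hxy.le
    have h2 : (1 / (1 + t)) • y + (t / (1 + t)) • (t⁻¹ • (x - y)) ∈ K :=
      hc hy h1 (by positivity) (by positivity) (by field_simp)
    refine ⟨_, h2, ?_⟩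
    show (1 + t) • _ = x
    rw [smul_add, smul_smul, smul_smul, smul_smul]
    have e1 : (1 + t) * (1 / (1 + t)) = 1 := by field_simp
    have e2 : (1 + t) * (t / (1 + t)) * t⁻¹ = 1 := by field_simp
    rw [e1, e2, one_smul, one_smul]
    abel
  have hcc := conc n K hK s hs0.le
  set F := {x : E n | s ≤ Metric.infDist x K} with hF
  have h1 := ENNReal.toReal_mono ENNReal.ofReal_ne_top hcc
  rw [ENNReal.toReal_mul, ENNReal.toReal_ofReal (Real.exp_pos _).le] at h1
  have h3 : (ga n F).toReal ≤ 1 / 100 := by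
    have h4 : (ga n F).toReal * q ≤ q / 100 :=
      (mul_le_mul_of_nonneg_left hq1 ENNReal.toReal_nonneg).trans (h1.trans hsq)
    have h5 : (ga n F).toReal * q ≤ (1 / 100) * q := by linarith
    exact le_of_mul_le_mul_right h5 hq
  have hm : MeasurableSet ((1 + t) • K) := by
    have : IsClosed ((1 + t) • K) := hK.smul_of_ne_zero (by positivity)
    exact this.measurableSet
  have h4 : ga n ((1 + t) • K) + ga n ((1 + t) • K)ᶜ = 1 := by
    rw [measure_add_measure_compl hm]; exact measure_univ
  have h5 := congrArg ENNReal.toReal h4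
  rw [ENNReal.toReal_add (measure_ne_top _ _) (measure_ne_top _ _), ENNReal.toReal_one] at h5
  have h6 : (ga n ((1 + t) • K)ᶜ).toReal ≤ (ga n F).toReal :=
    ENNReal.toReal_mono (measure_ne_top _ _) (measure_mono hcompl)
  linarith

end Pool.Agent.X166.BZ
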