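import Pool.Agent.X166.BZA

/-!
# Balancing vectors in symmetric sets, and the averaging argument
-/

set_option autoImplicit false

namespace Pool.Agent.X166.BZ

open MeasureTheory ProbabilityTheory Set
open scoped ENNReal Pointwise

/-- the backward construction for vectors of norm exactly `1/100` -/
theorem back (n : ℕ) (K : Set (E n)) (hK : IsClosed K) (hc : Convex ℝ K)
    (hs : ∀ x ∈ K, -x ∈ K) (hg : 99 / 100 ≤ (ga n K).toReal) :
    ∀ (m : ℕ) (u : Fin m → E n), (∀ i, ‖u i‖ = 1 / 100) →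
      ∃ C : Set (E n), IsClosed C ∧ Convex ℝ C ∧ (∀ x ∈ C, -x ∈ C) ∧
        99 / 100 ≤ (ga n C).toReal ∧
        ∀ x ∈ C, ∃ ε : Fin m → ℝ, (∀ i, ε i = 1 ∨ ε i = -1) ∧ x + ∑ i, ε i • u i ∈ K := by
  intro m
  induction m with
  | zero =>
    intro u _
    exact ⟨K, hK, hc, hs, hg, fun x hx => ⟨fun _ => 1, fun i => i.elim0, by simpa using hx⟩⟩
  | succ m ih =>
    intro u hu
    obtain ⟨C, h1, h2, h3, h4, h5⟩ := ih (fun i => u i.succ) (fun i => hu _)
    have key := Pool.Agent.H460BZ.key_lemma n C h1 h2 (u 0) (hu 0) h4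
    refine ⟨Pool.Agent.H460BZ.star C (u 0), Pool.Agent.H460BZ.star_closed h1 _,
      Pool.Agent.H460BZ.star_convex h2 _, Pool.Agent.H460BZ.star_symm h3 _,
      h4.trans (ENNReal.toReal_mono (measure_ne_top _ _) key), ?_⟩
    intro x hx
    rcases Pool.Agent.H460BZ.star_step h2 (u 0) hx with h | h
    · obtain ⟨ε, he, hx'⟩ := h5 _ h
      refine ⟨Fin.cons 1 ε, fun i => ?_, ?_⟩
      · refine Fin.cases ?_ (fun j => ?_) i
        · left; rfl
        · simpa using he j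
      · rw [Fin.sum_univ_succ]
        simp only [Fin.cons_zero, Fin.cons_succ, one_smul]
        rw [← add_assoc]
        exact hx'
    · obtain ⟨ε, he, hx'⟩ := h5 _ h
      refine ⟨Fin.cons (-1) ε, fun i => ?_, ?_⟩
      · refine Fin.cases ?_ (fun j => ?_) i
        · right; rfl
        · simpa using he j
      · rw [Fin.sum_univ_succ]
        simp only [Fin.cons_zero, Fin.cons_succ, neg_smul, one_smul]
        rw [← add_assoc, ← sub_eq_add_neg]
        exact hx'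

theorem back0 (n : ℕ) (K : Set (E n)) (hK : IsClosed K) (hc : Convex ℝ K)
    (hs : ∀ x ∈ K, -x ∈ K) (hg : 99 / 100 ≤ (ga n K).toReal)
    (m : ℕ) (u : Fin m → E n) (hu : ∀ i, ‖u i‖ = 1 / 100) :
    ∃ ε : Fin m → ℝ, (∀ i, ε i = 1 ∨ ε i = -1) ∧ ∑ i, ε i • u i ∈ K := by
  obtain ⟨C, h1, h2, h3, h4, h5⟩ := back n K hK hc hs hg m u hu
  have hne : C.Nonempty := by
    by_contra hcon
    rw [Set.not_nonempty_iff_eq_empty] at hcon
    rw [hcon, measure_empty, ENNReal.toReal_zero] at h4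
    norm_num at h4
  obtain ⟨x, hx⟩ := hne
  have h0 : (0 : E n) ∈ C := by
    have := h2 hx (h3 x hx) (a := 1 / 2) (b := 1 / 2) (by norm_num) (by norm_num) (by norm_num)
    simpa using this
  simpa using h5 0 h0

/-- forgetting the first coordinate -/
def pr {n : ℕ} (x : E (n + 1)) : E n := WithLp.toLp 2 (fun i => x i.succ)

/-- adding a first coordinate -/
def ext {n : ℕ} (a : ℝ) (x : E n) : E (n + 1) := WithLp.toLp 2 (Fin.cons a (fun i => x i))

theorem pr_ext {n : ℕ} (a : ℝ) (x : E n) : pr (ext a x) = x := by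
  ext i
  simp [pr, ext]

theorem pr_add {n : ℕ} (x y : E (n + 1)) : pr (x + y) = pr x + pr y := by
  ext i; simp [pr]

theorem pr_smul {n : ℕ} (a : ℝ) (x : E (n + 1)) : pr (a • x) = a • pr x := by
  ext i; simp [pr]

theorem pr_neg {n : ℕ} (x : E (n + 1)) : pr (-x) = -pr x := by
  ext i; simp [pr]

theorem pr_sum {n m : ℕ} (x : Fin m → E (n + 1)) : pr (∑ j, x j) = ∑ j, pr (x j) := by
  ext i
  simp [pr]

theorem pr_cont {n : ℕ} : Continuous (pr : E (n + 1) → E n) := by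
  unfold pr
  fun_prop

theorem norm_ext {n : ℕ} (a : ℝ) (x : E n) : ‖ext a x‖ ^ 2 = a ^ 2 + ‖x‖ ^ 2 := by
  rw [EuclideanSpace.real_norm_sq_eq, EuclideanSpace.real_norm_sq_eq, Fin.sum_univ_succ]
  simp [ext]

/-- the Gaussian measure of a cylinder -/
theorem cyl (n : ℕ) (K : Set (E n)) (hK : MeasurableSet K) : ga (n + 1) (pr ⁻¹' K) = ga n K := by
  have hA : MeasurableSet (pr ⁻¹' K : Set (E (n + 1))) := pr_cont.measurable hK
  have h := Pool.Agent.H460BZ.fubini n (EuclideanSpace.basisFun (Fin (n + 1)) ℝ) (pr ⁻¹' K) hA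
  have h2 := Pool.Agent.TH84.HC.lint_pi n (K.indicator 1) (measurable_one.indicator hK)
  rw [lintegral_indicator_one hK] at h2
  show stdGaussian (E (n + 1)) _ = stdGaussian (E n) K
  rw [h]
  have h3 : stdGaussian (E n) K = ∫⁻ z, K.indicator 1 (WithLp.toLp 2 z) ∂(Pool.Agent.H902R3.ZA.gm n) := h2
  rw [h3]
  refine lintegral_congr fun y => ?_
  have h4 : ∀ z : ℝ, pr (z • (EuclideanSpace.basisFun (Fin (n + 1)) ℝ) 0 +
      ∑ j, y j • (EuclideanSpace.basisFun (Fin (n + 1)) ℝ) (Fin.succ j)) = WithLp.toLp 2 y := by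
    intro z
    ext i
    simp only [pr, EuclideanSpace.basisFun_apply, PiLp.add_apply, PiLp.smul_apply, smul_eq_mul]
    rw [PiLp.single_apply]
    simp [Finset.sum_apply, Pi.single_apply]
  by_cases hy : (WithLp.toLp 2 y : E n) ∈ K
  · have h5 : {z : ℝ | z • (EuclideanSpace.basisFun (Fin (n + 1)) ℝ) 0 +
      ∑ j, y j • (EuclideanSpace.basisFun (Fin (n + 1)) ℝ) (Fin.succ j) ∈ pr ⁻¹' K} = univ := by
      ext z
      simp only [mem_preimage, h4, mem_ofPred_eq, mem_univ, iff_true]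
      exact hy
    rw [h5, measure_univ, indicator_of_mem hy]
    rfl
  · have h5 : {z : ℝ | z • (EuclideanSpace.basisFun (Fin (n + 1)) ℝ) 0 +
      ∑ j, y j • (EuclideanSpace.basisFun (Fin (n + 1)) ℝ) (Fin.succ j) ∈ pr ⁻¹' K} = ∅ := by
      ext z
      simp only [mem_preimage, h4, mem_ofPred_eq, mem_empty_iff_false, iff_false]
      exact hy
    rw [h5, measure_empty, indicator_of_notMem hy]

/-- balancing of vectors of norm at most `1/100` -/
theorem balance (n : ℕ) (K : Set (E n)) (hK : IsClosed K) (hc : Convex ℝ K)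
    (hs : ∀ x ∈ K, -x ∈ K) (hg : 99 / 100 ≤ (ga n K).toReal)
    (m : ℕ) (u : Fin m → E n) (hu : ∀ i, ‖u i‖ ≤ 1 / 100) :
    ∃ ε : Fin m → ℝ, (∀ i, ε i = 1 ∨ ε i = -1) ∧ ∑ i, ε i • u i ∈ K := by
  have hcv : Convex ℝ (pr ⁻¹' K : Set (E (n + 1))) := by
    intro x hx y hy a b ha hb hab
    show pr (a • x + b • y) ∈ K
    rw [pr_add, pr_smul, pr_smul]
    exact hc hx hy ha hb hab
  obtain ⟨ε, he, hx⟩ := back0 (n + 1) (pr ⁻¹' K) (hK.preimage pr_cont) hcv
    (fun x hx => by show pr (-x) ∈ K; rw [pr_neg]; exact hs _ hx)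
    (by rw [cyl n K hK.measurableSet]; exact hg) m
    (fun i => ext (√((1 / 100) ^ 2 - ‖u i‖ ^ 2)) (u i)) (fun i => by
      have h1 : ‖ext (√((1 / 100) ^ 2 - ‖u i‖ ^ 2)) (u i)‖ ^ 2 = (1 / 100) ^ 2 := by
        rw [norm_ext, Real.sq_sqrt]
        · ring
        · rw [sub_nonneg]
          exact pow_le_pow_left₀ (norm_nonneg _) (hu i) 2
      exact (pow_left_inj₀ (norm_nonneg _) (by norm_num) two_ne_zero).1 h1)
  refine ⟨ε, he, ?_⟩
  have h1 : pr (∑ i, ε i • ext (√((1 / 100) ^ 2 - ‖u i‖ ^ 2)) (u i)) ∈ K := hx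
  rw [pr_sum] at h1
  simpa only [pr_smul, pr_ext] using h1

/-- the symmetric set attached to `V` and `w` -/
def KK {n : ℕ} (V : Set (E n)) (w : E n) : Set (E n) :=
  {u | (√2)⁻¹ • (w + u) ∈ V ∧ (√2)⁻¹ • (w - u) ∈ V}

theorem KK_closed {n : ℕ} {V : Set (E n)} (hV : IsClosed V) (w : E n) : IsClosed (KK V w) :=
  (hV.preimage (by fun_prop : Continuous fun u : E n => (√2)⁻¹ • (w + u))).inter
    (hV.preimage (by fun_prop : Continuous fun u : E n => (√2)⁻¹ • (w - u)))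

theorem KK_convex {n : ℕ} {V : Set (E n)} (hV : Convex ℝ V) (w : E n) : Convex ℝ (KK V w) := by
  rintro x ⟨hx1, hx2⟩ y ⟨hy1, hy2⟩ a b ha hb hab
  have hb' : b = 1 - a := by linarith
  refine ⟨?_, ?_⟩
  · have := hV hx1 hy1 ha hb hab
    have e : a • (√2)⁻¹ • (w + x) + b • (√2)⁻¹ • (w + y) = (√2)⁻¹ • (w + (a • x + b • y)) := by
      rw [hb']; module
    rwa [e] at this
  · have := hV hx2 hy2 ha hb hab
    have e : a • (√2)⁻¹ • (w - x) + b • (√2)⁻¹ • (w - y) = (√2)⁻¹ • (w - (a • x + b • y)) := by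
      rw [hb']; module
    rwa [e] at this

theorem KK_symm {n : ℕ} {V : Set (E n)} (w : E n) : ∀ x ∈ KK V w, -x ∈ KK V w := by
  rintro x ⟨hx1, hx2⟩
  exact ⟨by rwa [← sub_eq_add_neg], by rwa [sub_neg_eq_add]⟩

/-- averaging: some symmetric section is large -/
theorem average (n : ℕ) (V : Set (E n)) (hV : IsClosed V) :
    ∃ w : E n, (ga n V).toReal ^ 2 ≤ (ga n (KK V w)).toReal := by
  have hs : (√2)⁻¹ ^ 2 + (√2)⁻¹ ^ 2 = (1:ℝ) := by
    rw [inv_pow, Real.sq_sqrt (by norm_num)]; norm_num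
  have hrot := Pool.Agent.PZ871.M_grot.grot n ((√2)⁻¹) ((√2)⁻¹) hs
  have h1 := hrot.measure_preimage (s := V ×ˢ V) (hV.measurableSet.prod hV.measurableSet).nullMeasurableSet
  rw [Measure.prod_prod] at h1
  have hm : MeasurableSet ((fun p : E n × E n => ((√2)⁻¹ • p.1 + (√2)⁻¹ • p.2,
      (√2)⁻¹ • p.1 - (√2)⁻¹ • p.2)) ⁻¹' V ×ˢ V) :=
    hrot.measurable (hV.measurableSet.prod hV.measurableSet)
  haveI : IsProbabilityMeasure (Pool.Agent.PZ871.gm n) := by
    unfold Pool.Agent.PZ871.gm; infer_instance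
  rw [Measure.prod_apply hm] at h1
  have h2 : ∀ w : E n, Prod.mk w ⁻¹' ((fun p : E n × E n => ((√2)⁻¹ • p.1 + (√2)⁻¹ • p.2,
      (√2)⁻¹ • p.1 - (√2)⁻¹ • p.2)) ⁻¹' V ×ˢ V) = KK V w := by
    intro w
    ext u
    simp only [mem_preimage, mem_prod, KK, mem_ofPred_eq, smul_add, smul_sub]
  simp only [h2] at h1
  obtain ⟨w, hw⟩ := exists_lintegral_le (μ := Pool.Agent.PZ871.gm n)
    (f := fun w => Pool.Agent.PZ871.gm n (KK V w)) (by rw [h1]; exact ENNReal.mul_ne_top (measure_ne_top _ _) (measure_ne_top _ _))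
  rw [h1] at hw
  refine ⟨w, ?_⟩
  have h3 := ENNReal.toReal_mono (measure_ne_top _ _) hw
  rw [ENNReal.toReal_mul, ← sq] at h3
  exact h3

/-- the dilation factor -/
noncomputable def tt (q : ℝ) : ℝ := 1 + 4 * √(Real.log (100 / q)) / q

/-- from large symmetric sections to balancing -/
theorem sec_balance (n : ℕ) (V : Set (E n)) (hV : IsClosed V) (hc : Convex ℝ V) (w : E n) (q : ℝ)
    (hq : 0 < q) (hq1 : q ≤ (ga n (KK V w)).toReal) (m : ℕ) (u : Fin m → E n)
    (hu : ∀ i, ‖u i‖ ≤ 1) :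
    ∃ ε : Fin m → ℝ, (∀ i, ε i = 1 ∨ ε i = -1) ∧
      (√2)⁻¹ • w + (100 * √2 * tt q)⁻¹ • ∑ i, ε i • u i ∈ V := by
  have hqle : q ≤ 1 := by
    refine hq1.trans ?_
    have := ENNReal.toReal_mono ENNReal.one_ne_top (prob_le_one (μ := ga n) (s := KK V w))
    simpa using this
  have hlog : 0 < Real.log (100 / q) := by
    apply Real.log_pos
    rw [lt_div_iff₀ hq]; linarith
  have hsq : Real.exp (-((2 * √(Real.log (100 / q))) ^ 2 / 4)) ≤ q / 100 := by
    rw [mul_pow, Real.sq_sqrt hlog.le]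
    have e1 : -((2:ℝ) ^ 2 * Real.log (100 / q) / 4) = -Real.log (100 / q) := by ring
    rw [e1, Real.exp_neg, Real.exp_log (by positivity), inv_div]
  have h1 := dilate n (KK V w) (KK_closed hV w) (KK_convex hc w) (KK_symm w) q hq hq1
    (2 * √(Real.log (100 / q))) (by positivity) hsq
  have e0 : 1 + 2 * (2 * √(Real.log (100 / q))) / q = tt q := by unfold tt; ring
  rw [e0] at h1
  set t : ℝ := tt q with ht
  have ht0 : 0 < t := by rw [ht]; unfold tt; positivity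
  obtain ⟨ε, he, hx⟩ := balance n (t • KK V w) ((KK_closed hV w).smul_of_ne_zero ht0.ne')
    ((KK_convex hc w).smul t) (by
      rintro _ ⟨x, hx, rfl⟩
      exact ⟨-x, KK_symm w x hx, by simp⟩) h1 m (fun i => (1 / 100 : ℝ) • u i) (fun i => by
      rw [norm_smul]
      have := hu i
      norm_num
      linarith)
  refine ⟨ε, he, ?_⟩
  obtain ⟨x, ⟨hx1, hx2⟩, hx3⟩ := hx
  have e1 : ∑ i, ε i • (1 / 100 : ℝ) • u i = (1 / 100 : ℝ) • ∑ i, ε i • u i := by
    rw [Finset.smul_sum]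
    exact Finset.sum_congr rfl fun i _ => by rw [smul_comm]
  rw [e1] at hx3
  have hx3' : t • x = (1 / 100 : ℝ) • ∑ i, ε i • u i := hx3
  have e2 : x = (t⁻¹ * (1 / 100)) • ∑ i, ε i • u i := by
    rw [mul_smul, ← hx3', smul_smul, inv_mul_cancel₀ ht0.ne', one_smul]
  rw [smul_add, e2, smul_smul] at hx1
  have e3 : (100 * √2 * t)⁻¹ = (√2)⁻¹ * (t⁻¹ * (1 / 100)) := by
    rw [mul_inv, mul_inv]; ring
  rw [e3]
  exact hx1

/-- a large symmetric section contains a ball -/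
theorem sec_ball (n : ℕ) (V : Set (E n)) (hV : IsClosed V) (hc : Convex ℝ V) (w : E n) (q : ℝ)
    (hq : 0 < q) (hq1 : q ≤ (ga n (KK V w)).toReal) :
    ∀ u : E n, ‖u‖ ≤ q / 4 → (√2)⁻¹ • w + u ∈ V := by
  intro u hu
  have hball : Metric.closedBall (0 : E n) (q / 2) ⊆ KK V w := by
    apply ball_sub n (KK V w) (KK_closed hV w) (KK_convex hc w) (KK_symm w) (q / 2) (by positivity)
    rw [ENNReal.ofReal_lt_iff_lt_toReal (by positivity) (measure_ne_top _ _)]
    linarith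
  have hs2 : 0 < √2 := by positivity
  have hmem : (√2) • u ∈ KK V w := by
    apply hball
    rw [mem_closedBall_zero_iff, norm_smul, Real.norm_of_nonneg hs2.le]
    have h2 : √2 ≤ 2 := by
      rw [Real.sqrt_le_left (by norm_num)]; norm_num
    nlinarith [norm_nonneg u]
  have := hmem.1
  rwa [smul_add, smul_smul, inv_mul_cancel₀ hs2.ne', one_smul] at this

end Pool.Agent.X166.BZ
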