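import Pool.Agent.X166.BZB
import Pool.Agent.H902R3.ZA.JEN
import Pool.Agent.H902R3.ZA.QJ
import Pool.Agent.H902R3.ZA.ROT
import Pool.Agent.Helper568.Dent11

/-!
# Convex sets with Gaussian barycentre at the origin
-/

set_option autoImplicit false

namespace Pool.Agent.X166.BZ

open MeasureTheory ProbabilityTheory Set Filter Topology
open scoped ENNReal Pointwise
open Pool.Agent.H902R3.ZA (gm)

theorem jen : Pool.Agent.H902R3.ZA.S_JEN :=
  Pool.Agent.H902R3.ZA.JEN_ok
    (Pool.Agent.H902R3.ZA.PLN_ok (Pool.Agent.H902R3.ZA.PLA_ok Pool.Agent.H902R3.ZA.LBM_ok))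
    Pool.Agent.H902R3.ZA.ROT_ok Pool.Agent.H902R3.ZA.QJ_ok

/-- the penalty converges to the indicator -/
theorem pen_out {n : ℕ} (C : Set (Fin n → ℝ)) (hC : IsClosed C) (hne : C.Nonempty)
    (x : ℕ → Fin n → ℝ) (y : Fin n → ℝ) (hx : Tendsto x atTop (𝓝 y)) (hy : y ∉ C) :
    Tendsto (fun m : ℕ => Real.exp (-((m : ℝ) * Metric.infDist (x m) C))) atTop (𝓝 0) := by
  have h1 : 0 < Metric.infDist y C := (hC.notMem_iff_infDist_pos hne).1 hy
  have h2 : Tendsto (fun m => Metric.infDist (x m) C) atTop (𝓝 (Metric.infDist y C)) :=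
    ((Metric.continuous_infDist_pt C).tendsto y).comp hx
  have h3 : Tendsto (fun m : ℕ => (m : ℝ) * Metric.infDist (x m) C) atTop atTop :=
    tendsto_natCast_atTop_atTop.atTop_mul_pos h1 h2
  exact Real.tendsto_exp_atBot.comp (tendsto_neg_atTop_atBot.comp h3)

theorem centre0 (n : ℕ) (C : Set (Fin n → ℝ)) (hC : IsClosed C) (hcv : Convex ℝ C)
    (hb : ∀ j, ∫ g in C, g j ∂(gm n) = 0) :
    ((gm n) C).toReal ^ 2 ≤
      ((gm n) {k | (fun j => k j / √2) ∈ C ∧ (fun j => -(k j / √2)) ∈ C}).toReal := by
  rcases C.eq_empty_or_nonempty with rfl | hne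
  · simp
  rcases eq_or_lt_of_le (ENNReal.toReal_nonneg (a := (gm n) C)) with h0 | hP
  · rw [← h0]; simp
  set P := ((gm n) C).toReal with hPdef
  set W : ℕ → (Fin n → ℝ) → ℝ := fun m g => (m : ℝ) * Metric.infDist g C with hW
  have hWc : ∀ m, Continuous (W m) := fun m =>
    continuous_const.mul (Metric.continuous_infDist_pt C)
  have hW0 : ∀ m g, 0 ≤ W m g := fun m g => mul_nonneg (by positivity) Metric.infDist_nonneg
  have hWx : ∀ m, ConvexOn ℝ univ (W m) := fun m => by
    have := (Pool.Agent.Helper568.Dent.convexOn_infDist C hcv).smul (c := (m:ℝ)) (by positivity)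
    exact this
  set p : ℕ → ℝ := fun m => ∫ g, Real.exp (-W m g) ∂(gm n) with hp
  set b : ℕ → Fin n → ℝ := fun m j => (∫ g, g j * Real.exp (-W m g) ∂(gm n)) / p m with hbd
  have hle1 : ∀ m g, Real.exp (-W m g) ≤ 1 := fun m g => by
    rw [Real.exp_le_one_iff]; linarith [hW0 m g]
  have hmeas : ∀ m, AEStronglyMeasurable (fun g => Real.exp (-W m g)) (gm n) := fun m =>
    (Real.continuous_exp.comp (hWc m).neg).aestronglyMeasurable
  have hpt : ∀ g, Tendsto (fun m => Real.exp (-W m g)) atTop (𝓝 (C.indicator (fun _ => (1:ℝ)) g)) := by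
    intro g
    by_cases hg : g ∈ C
    · rw [indicator_of_mem hg]
      have : ∀ m, Real.exp (-W m g) = 1 := by
        intro m
        have h1 : Metric.infDist g C = 0 := Metric.infDist_zero_of_mem hg
        simp [hW, h1]
      simp only [this]
      exact tendsto_const_nhds
    · rw [indicator_of_notMem hg]
      exact pen_out C hC hne (fun _ => g) g tendsto_const_nhds hg
  have hplim : Tendsto p atTop (𝓝 P) := by
    have h1 := tendsto_integral_of_dominated_convergence (μ := gm n) (F := fun m g => Real.exp (-W m g))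
      (f := C.indicator (fun _ => (1:ℝ))) (fun _ => 1) hmeas (integrable_const 1)
      (fun m => Eventually.of_forall fun g => by
        rw [Real.norm_of_nonneg (Real.exp_pos _).le]; exact hle1 m g)
      (Eventually.of_forall hpt)
    rw [integral_indicator_const _ hC.measurableSet] at h1
    simpa [Measure.real] using h1
  have hcoord : ∀ j, Integrable (fun g : Fin n → ℝ => g j) (gm n) := fun j =>
    Pool.Agent.H902R3.ZA.JENaux.coord_int j
  have hnlim : ∀ j, Tendsto (fun m => ∫ g, g j * Real.exp (-W m g) ∂(gm n)) atTop (𝓝 0) := by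
    intro j
    have h1 := tendsto_integral_of_dominated_convergence (μ := gm n)
      (F := fun m g => g j * Real.exp (-W m g))
      (f := fun g => g j * C.indicator (fun _ => (1:ℝ)) g) (fun g => |g j|)
      (fun m => (hcoord j).aestronglyMeasurable.mul (hmeas m)) (hcoord j).abs
      (fun m => Eventually.of_forall fun g => by
        rw [norm_mul, Real.norm_eq_abs, Real.norm_of_nonneg (Real.exp_pos _).le]
        exact mul_le_of_le_one_right (abs_nonneg _) (hle1 m g))
      (Eventually.of_forall fun g => (hpt g).const_mul (g j))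
    have h2 : ∫ g, g j * C.indicator (fun _ => (1:ℝ)) g ∂(gm n) = 0 := by
      rw [← hb j, ← integral_indicator hC.measurableSet]
      refine integral_congr_ae (Eventually.of_forall fun g => ?_)
      by_cases hg : g ∈ C
      · simp [indicator_of_mem hg]
      · simp [indicator_of_notMem hg]
    rwa [h2] at h1
  have hblim : Tendsto b atTop (𝓝 0) := by
    rw [tendsto_pi_nhds]
    intro j
    have := (hnlim j).div hplim hP.ne'
    rw [zero_div] at this
    exact this
  have hjen : ∀ m, 0 < p m → p m ^ 2 ≤ ∫ k, Real.exp (-W m (fun j => b m j + k j / √2)) *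
      Real.exp (-W m (fun j => b m j - k j / √2)) ∂(gm n) := by
    intro m hm
    refine jen n (W m) (hWx m) (hWc m) (hW0 m) (p m) (b m) rfl (fun j => ?_)
    rw [hbd]
    field_simp
  set K : Set (Fin n → ℝ) := {k | (fun j => k j / √2) ∈ C ∧ (fun j => -(k j / √2)) ∈ C} with hK
  have hKc : IsClosed K :=
    (hC.preimage (by fun_prop : Continuous fun k : Fin n → ℝ => (fun j => k j / √2))).inter
      (hC.preimage (by fun_prop : Continuous fun k : Fin n → ℝ => (fun j => -(k j / √2))))
  set h : ℕ → (Fin n → ℝ) → ℝ := fun m k => Real.exp (-W m (fun j => b m j + k j / √2)) *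
      Real.exp (-W m (fun j => b m j - k j / √2)) with hh
  have hh0 : ∀ m k, 0 ≤ h m k := fun m k => by positivity
  have hh1 : ∀ m k, h m k ≤ 1 := fun m k =>
    mul_le_one₀ (hle1 m _) (Real.exp_pos _).le (hle1 m _)
  have hhc : ∀ m, Continuous (h m) := fun m => by
    refine (Real.continuous_exp.comp ((hWc m).comp ?_).neg).mul
      (Real.continuous_exp.comp ((hWc m).comp ?_).neg)
    · fun_prop
    · fun_prop
  have hout : Tendsto (fun m => ∫ k, Kᶜ.indicator (h m) k ∂(gm n)) atTop (𝓝 0) := by
    have h1 := tendsto_integral_of_dominated_convergence (μ := gm n)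
      (F := fun m k => Kᶜ.indicator (h m) k) (f := fun _ => (0:ℝ)) (fun _ => 1)
      (fun m => ((hhc m).measurable.indicator hKc.measurableSet.compl).aestronglyMeasurable)
      (integrable_const 1)
      (fun m => Eventually.of_forall fun k => by
        by_cases hk : k ∈ Kᶜ
        · rw [indicator_of_mem hk, Real.norm_of_nonneg (hh0 m k)]; exact hh1 m k
        · rw [indicator_of_notMem hk]; simp)
      (Eventually.of_forall fun k => by
        by_cases hk : k ∈ Kᶜ
        · simp only [indicator_of_mem hk]
          have hk' : ¬ ((fun j => k j / √2) ∈ C ∧ (fun j => -(k j / √2)) ∈ C) := hk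
          rw [not_and_or] at hk'
          have c1 : Tendsto (fun m => (fun j => b m j + k j / √2 : Fin n → ℝ)) atTop
              (𝓝 (fun j => k j / √2)) := by
            rw [tendsto_pi_nhds]
            intro j
            have := ((tendsto_pi_nhds.1 hblim) j).add_const (k j / √2)
            simpa using this
          have c2 : Tendsto (fun m => (fun j => b m j - k j / √2 : Fin n → ℝ)) atTop
              (𝓝 (fun j => -(k j / √2))) := by
            rw [tendsto_pi_nhds]
            intro j
            have := ((tendsto_pi_nhds.1 hblim) j).sub_const (k j / √2)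
            simpa using this
          rcases hk' with hk' | hk'
          · have h2 := pen_out C hC hne _ _ c1 hk'
            refine squeeze_zero (fun m => hh0 m k) (fun m => ?_) h2
            exact mul_le_of_le_one_right (Real.exp_pos _).le (hle1 m _)
          · have h2 := pen_out C hC hne _ _ c2 hk'
            refine squeeze_zero (fun m => hh0 m k) (fun m => ?_) h2
            exact mul_le_of_le_one_left (Real.exp_pos _).le (hle1 m _)
        · simp only [indicator_of_notMem hk]
          exact tendsto_const_nhds)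
    simpa using h1
  have hbound : ∀ᶠ m in atTop, p m ^ 2 ≤ ((gm n) K).toReal + ∫ k, Kᶜ.indicator (h m) k ∂(gm n) := by
    filter_upwards [hplim.eventually_const_lt hP] with m hm
    refine (hjen m hm).trans ?_
    have i1 : Integrable (fun k => K.indicator (fun _ => (1:ℝ)) k) (gm n) :=
      (integrable_const (1:ℝ)).indicator hKc.measurableSet
    have i2 : Integrable (fun k => Kᶜ.indicator (h m) k) (gm n) := by
      refine Integrable.indicator ?_ hKc.measurableSet.compl
      exact Integrable.of_bound (C := 1) (hhc m).aestronglyMeasurable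
        (Eventually.of_forall fun k => by rw [Real.norm_of_nonneg (hh0 m k)]; exact hh1 m k)
    have i3 : Integrable (h m) (gm n) :=
      Integrable.of_bound (C := 1) (hhc m).aestronglyMeasurable
        (Eventually.of_forall fun k => by rw [Real.norm_of_nonneg (hh0 m k)]; exact hh1 m k)
    have e1 : ((gm n) K).toReal = ∫ k, K.indicator (fun _ => (1:ℝ)) k ∂(gm n) := by
      rw [integral_indicator_const _ hKc.measurableSet]
      simp [Measure.real]
    rw [e1, ← integral_add i1 i2]
    refine integral_mono i3 (i1.add i2) fun k => ?_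
    show h m k ≤ K.indicator (fun _ => (1:ℝ)) k + Kᶜ.indicator (h m) k
    by_cases hk : k ∈ K
    · rw [indicator_of_mem hk, indicator_of_notMem (not_not.2 hk), add_zero]; exact hh1 m k
    · rw [indicator_of_notMem hk, indicator_of_mem (show k ∈ Kᶜ from hk), zero_add]
  have hlim2 : Tendsto (fun m => ((gm n) K).toReal + ∫ k, Kᶜ.indicator (h m) k ∂(gm n)) atTop
      (𝓝 (((gm n) K).toReal + 0)) := hout.const_add _
  rw [add_zero] at hlim2
  exact le_of_tendsto_of_tendsto (hplim.pow 2) hlim2 hbound

theorem ga_eq (n : ℕ) : ga n = (gm n).map (WithLp.toLp 2 : (Fin n → ℝ) → E n) := by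
  show stdGaussian (EuclideanSpace ℝ (Fin n)) = _
  unfold Pool.Agent.H902R3.ZA.gm
  rw [← ProbabilityTheory.map_pi_eq_stdGaussian]

theorem ga_apply (n : ℕ) (A : Set (E n)) (hA : MeasurableSet A) :
    ga n A = gm n {z | (WithLp.toLp 2 z : E n) ∈ A} := by
  have hmeas : Measurable (WithLp.toLp 2 : (Fin n → ℝ) → E n) :=
    (PiLp.volume_preserving_toLp (Fin n)).measurable
  rw [ga_eq, Measure.map_apply hmeas hA]
  rfl

/-- a closed convex set with Gaussian barycentre at the origin -/
theorem centre (n : ℕ) (V : Set (E n)) (hV : IsClosed V) (hc : Convex ℝ V)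
    (hb : ∫ x in V, x ∂(ga n) = 0) : (ga n V).toReal ^ 2 ≤ (ga n (KK V 0)).toReal := by
  have hmeas : Measurable (WithLp.toLp 2 : (Fin n → ℝ) → E n) :=
    (PiLp.volume_preserving_toLp (Fin n)).measurable
  have hcont : Continuous (WithLp.toLp 2 : (Fin n → ℝ) → E n) := by fun_prop
  set C : Set (Fin n → ℝ) := {z | (WithLp.toLp 2 z : E n) ∈ V} with hC
  have hCc : IsClosed C := hV.preimage hcont
  have hCx : Convex ℝ C := by
    intro x hx y hy a b ha hb' hab
    have := hc hx hy ha hb' hab
    exact this
  have key := centre0 n C hCc hCx (fun j => by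
    have hint : Integrable (fun x : E n => x) ((ga n).restrict V) :=
      (IsGaussian.integrable_id (μ := ga n)).restrict
    have h1 := (EuclideanSpace.proj (𝕜 := ℝ) j : E n →L[ℝ] ℝ).integral_comp_comm hint
    rw [hb, map_zero] at h1
    rw [← h1, ga_eq, ← MeasureTheory.integral_indicator hV.measurableSet,
      integral_map hmeas.aemeasurable, ← MeasureTheory.integral_indicator hCc.measurableSet]
    · refine integral_congr_ae (Eventually.of_forall fun z => ?_)
      by_cases hz : z ∈ C
      · have hz' : (WithLp.toLp 2 z : E n) ∈ V := hz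
        simp only [indicator_of_mem hz, indicator_of_mem hz']
        rfl
      · have hz' : (WithLp.toLp 2 z : E n) ∉ V := hz
        simp only [indicator_of_notMem hz, indicator_of_notMem hz']
    · refine (Measurable.indicator ?_ hV.measurableSet).aestronglyMeasurable
      exact (EuclideanSpace.proj (𝕜 := ℝ) j : E n →L[ℝ] ℝ).continuous.measurable)
  rw [ga_apply n V hV.measurableSet, ga_apply n _ (KK_closed hV 0).measurableSet]
  refine key.trans (le_of_eq ?_)
  congr 2
  ext k
  simp only [mem_ofPred_eq, KK, hC, zero_add, zero_sub]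
  have e1 : (WithLp.toLp 2 (fun j => k j / √2) : E n) = (√2)⁻¹ • WithLp.toLp 2 k := by
    ext j; simp; ring
  have e2 : (WithLp.toLp 2 (fun j => -(k j / √2)) : E n) = (√2)⁻¹ • -WithLp.toLp 2 k := by
    ext j; simp; ring
  rw [e1, e2]

end Pool.Agent.X166.BZ
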