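import Pool.Agent.X166.BZC

/-!
# The vector balancing constant
-/

set_option autoImplicit false

namespace Pool.Agent.X166.BZ

open MeasureTheory ProbabilityTheory Set Filter Topology
open scoped ENNReal Pointwise

/-- The vector balancing constant of the Euclidean ball and `V`: the supremum over all `n`-tuples
`u` of vectors of the closed unit ball of the minimum over all signs of the gauge of the signed
sum. -/
noncomputable def beta {n : ℕ} (V : Set (EuclideanSpace ℝ (Fin n))) : ℝ≥0∞ :=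
  ⨆ u : Fin n → Metric.closedBall (0 : EuclideanSpace ℝ (Fin n)) 1, ⨅ ε : Fin n → ℤˣ,
    ENNReal.ofReal (gauge V (∑ i, ((ε i : ℤ) : ℝ) • (u i : EuclideanSpace ℝ (Fin n))))

theorem beta_le {n : ℕ} (V : Set (E n)) (c : ℝ) (hc : 0 < c)
    (H : ∀ u : Fin n → E n, (∀ i, ‖u i‖ ≤ 1) → ∃ ε : Fin n → ℝ, (∀ i, ε i = 1 ∨ ε i = -1) ∧
      c⁻¹ • ∑ i, ε i • u i ∈ V) : beta V ≤ ENNReal.ofReal c := by
  refine iSup_le fun u => ?_
  obtain ⟨ε, he, hV⟩ := H (fun i => (u i : E n)) (fun i => by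
    have := (u i).2
    rwa [mem_closedBall_zero_iff] at this)
  refine iInf_le_of_le (fun i => if ε i = 1 then 1 else -1) ?_
  apply ENNReal.ofReal_le_ofReal
  have e1 : ∀ i, ((((if ε i = 1 then 1 else -1 : ℤˣ) : ℤ)) : ℝ) = ε i := by
    intro i
    rcases he i with h | h
    · rw [if_pos h, h]; simp
    · rw [if_neg (by rw [h]; norm_num), h]; simp
  simp only [e1]
  apply gauge_le_of_mem hc.le
  exact ⟨_, hV, by
    show c • c⁻¹ • _ = _
    rw [smul_smul, mul_inv_cancel₀ hc.ne', one_smul]⟩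

theorem tt_pos (q : ℝ) (hq : 0 < q) : 0 < tt q := by unfold tt; positivity

theorem tt_anti {p q : ℝ} (hp : 0 < p) (hpq : p ≤ q) : tt q ≤ tt p := by
  unfold tt
  have hq : 0 < q := by linarith
  have h1 : Real.log (100 / q) ≤ Real.log (100 / p) :=
    Real.log_le_log (by positivity) (div_le_div_of_nonneg_left (by norm_num) hp hpq)
  have h2 := Real.sqrt_le_sqrt h1
  have h3 : 4 * √(Real.log (100 / q)) / q ≤ 4 * √(Real.log (100 / p)) / p :=
    div_le_div₀ (by positivity) (by linarith) hp hpq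
  linarith

/-- the bound -/
noncomputable def bd (p : ℝ) : ℝ := 100 * √2 * tt (p ^ 2)

theorem bd_pos (p : ℝ) (hp : 0 < p) : 0 < bd p := by
  unfold bd
  have := tt_pos (p ^ 2) (by positivity)
  positivity

theorem bd_anti {p q : ℝ} (hp : 0 < p) (hpq : p ≤ q) : bd q ≤ bd p := by
  unfold bd
  have h := tt_anti (p := p ^ 2) (q := q ^ 2) (by positivity) (pow_le_pow_left₀ hp.le hpq 2)
  exact mul_le_mul_of_nonneg_left h (by positivity)

/-- balancing in a convex set with Gaussian barycentre at the origin -/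
theorem centred_balance (n : ℕ) (V : Set (E n)) (hV : IsClosed V) (hc : Convex ℝ V)
    (hb : ∫ x in V, x ∂(ga n) = 0) (hp : 0 < (ga n V).toReal) (m : ℕ) (u : Fin m → E n)
    (hu : ∀ i, ‖u i‖ ≤ 1) :
    ∃ ε : Fin m → ℝ, (∀ i, ε i = 1 ∨ ε i = -1) ∧
      (bd (ga n V).toReal)⁻¹ • ∑ i, ε i • u i ∈ V := by
  obtain ⟨ε, he, h⟩ := sec_balance n V hV hc 0 ((ga n V).toReal ^ 2) (by positivity)
    (centre n V hV hc hb) m u hu
  refine ⟨ε, he, ?_⟩
  rw [smul_zero, zero_add] at h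
  exact h

/-- sets with interior points have positive measure -/
theorem ga_pos (n : ℕ) (V : Set (E n)) (hV : (interior V).Nonempty) : 0 < (ga n V).toReal := by
  apply ENNReal.toReal_pos _ (measure_ne_top _ _)
  intro h0
  have h1 : ga n (interior V) = 0 := measure_mono_null interior_subset h0
  have h2 := Pool.Agent.PZ871.M_gdens.gdens n
  unfold Pool.Agent.PZ871.gm at h2
  have h3 : (volume : Measure (E n)) ≪ ga n := by
    show (volume : Measure (E n)) ≪ stdGaussian (E n)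
    rw [h2]
    apply withDensity_absolutelyContinuous'
    · fun_prop
    · refine Eventually.of_forall fun x => ?_
      rw [ne_eq, ENNReal.ofReal_eq_zero, not_le]
      positivity
  exact (isOpen_interior.measure_pos volume hV).ne' (h3 h1)

/-- a good translate -/
theorem translate_balance (n : ℕ) (V : Set (E n)) (hV : IsClosed V) (hc : Convex ℝ V) (y : E n)
    (hp : 0 < (ga n (y +ᵥ V)).toReal) :
    ∃ x : E n, 0 ∈ interior (x +ᵥ V) ∧ ∀ (m : ℕ) (u : Fin m → E n), (∀ i, ‖u i‖ ≤ 1) →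
      ∃ ε : Fin m → ℝ, (∀ i, ε i = 1 ∨ ε i = -1) ∧
        (bd (ga n (y +ᵥ V)).toReal)⁻¹ • ∑ i, ε i • u i ∈ x +ᵥ V := by
  have hV' : IsClosed (y +ᵥ V) := hV.vadd y
  have hc' : Convex ℝ (y +ᵥ V) := hc.vadd y
  obtain ⟨w, hw⟩ := average n (y +ᵥ V) hV'
  set p := (ga n (y +ᵥ V)).toReal with hpdef
  have key : ∀ z : E n, (√2)⁻¹ • w + z ∈ y +ᵥ V → z ∈ (y - (√2)⁻¹ • w) +ᵥ V := by
    rintro z ⟨a, ha, hz⟩
    refine ⟨a, ha, ?_⟩
    have hz' : y + a = (√2)⁻¹ • w + z := hz
    show y - (√2)⁻¹ • w + a = z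
    have : a = (√2)⁻¹ • w + z - y := by rw [← hz']; abel
    rw [this]; abel
  refine ⟨y - (√2)⁻¹ • w, ?_, ?_⟩
  · rw [mem_interior_iff_mem_nhds]
    refine Filter.mem_of_superset (Metric.closedBall_mem_nhds (0 : E n) (ε := p ^ 2 / 4) (by positivity)) ?_
    intro z hz
    rw [mem_closedBall_zero_iff] at hz
    exact key z (sec_ball n (y +ᵥ V) hV' hc' w (p ^ 2) (by positivity) hw z hz)
  · intro m u hu
    obtain ⟨ε, he, h⟩ := sec_balance n (y +ᵥ V) hV' hc' w (p ^ 2) (by positivity) hw m u hu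
    exact ⟨ε, he, key _ h⟩

end Pool.Agent.X166.BZ
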