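import Pool.Agent.X166.BZA

/-!
# One dimensional Gaussian estimates for the modified Banaszczyk transform
-/

set_option autoImplicit false

namespace Pool.Agent.X166.TR

open MeasureTheory ProbabilityTheory Set
open scoped ENNReal
open Pool.Agent.H902R3.ZA (gm)

/-- real valued one dimensional Gaussian measure -/
noncomputable abbrev G (I : Set ℝ) : ℝ := (gaussianReal 0 1).real I

theorem G_le_one (I : Set ℝ) : G I ≤ 1 := measureReal_le_one

theorem G_nonneg (I : Set ℝ) : 0 ≤ G I := measureReal_nonneg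

/-- one dimensional Prekopa-Leindler for sets -/
theorem pl1 (θ : ℝ) (h0 : 0 < θ) (h1 : θ < 1) (I J L : Set ℝ) (mI : MeasurableSet I)
    (mJ : MeasurableSet J) (mL : MeasurableSet L)
    (H : ∀ x ∈ I, ∀ y ∈ J, (1 - θ) * x + θ * y ∈ L) :
    (gaussianReal 0 1 I) ^ (1 - θ) * (gaussianReal 0 1 J) ^ θ ≤ gaussianReal 0 1 L := by
  have key := Pool.Agent.TH84.HC.pl1 (1 - θ) (by linarith) (by linarith)
    (I.indicator 1) (J.indicator 1) (L.indicator 1)
    (measurable_one.indicator mI) (measurable_one.indicator mJ) (measurable_one.indicator mL)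
    (fun x => Set.indicator_le_self' (fun _ _ => zero_le_one) x)
    (fun x => Set.indicator_le_self' (fun _ _ => zero_le_one) x) ?_
  · rw [lintegral_indicator_one mI, lintegral_indicator_one mJ,
      lintegral_indicator_one mL, sub_sub_cancel] at key
    exact key
  · intro x y
    rw [sub_sub_cancel]
    by_cases hx : x ∈ I
    · by_cases hy : y ∈ J
      · rw [indicator_of_mem hx, indicator_of_mem hy, indicator_of_mem (H x hx y hy)]
        simp
      · rw [indicator_of_notMem hy, ENNReal.zero_rpow_of_pos h0, mul_zero]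
        exact zero_le
    · rw [indicator_of_notMem hx, ENNReal.zero_rpow_of_pos (by linarith), zero_mul]
      exact zero_le

theorem pl1_real (θ : ℝ) (h0 : 0 < θ) (h1 : θ < 1) (I J L : Set ℝ) (mI : MeasurableSet I)
    (mJ : MeasurableSet J) (mL : MeasurableSet L)
    (H : ∀ x ∈ I, ∀ y ∈ J, (1 - θ) * x + θ * y ∈ L) :
    G I ^ (1 - θ) * G J ^ θ ≤ G L := by
  have h := ENNReal.toReal_mono (measure_ne_top _ _) (pl1 θ h0 h1 I J L mI mJ mL H)
  rw [ENNReal.toReal_mul, ← ENNReal.toReal_rpow, ← ENNReal.toReal_rpow] at h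
  exact h

/-- Prekopa-Leindler for the Gaussian measure of `ℝ^M` and sets -/
theorem plM (M : ℕ) (θ : ℝ) (h0 : 0 < θ) (h1 : θ < 1) (A B C : Set (Fin M → ℝ))
    (mA : MeasurableSet A) (mB : MeasurableSet B) (mC : MeasurableSet C)
    (H : ∀ x ∈ A, ∀ y ∈ B, (fun i => (1 - θ) * x i + θ * y i) ∈ C) :
    (gm M).real A ^ (1 - θ) * (gm M).real B ^ θ ≤ (gm M).real C := by
  have key := Pool.Agent.H902R3.ZA.PLN_ok Pool.Agent.TH84.HC.pl1 M (1 - θ) (by linarith) (by linarith)
    (A.indicator 1) (B.indicator 1) (C.indicator 1)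
    (measurable_one.indicator mA) (measurable_one.indicator mB) (measurable_one.indicator mC)
    (fun x => Set.indicator_le_self' (fun _ _ => zero_le_one) x)
    (fun x => Set.indicator_le_self' (fun _ _ => zero_le_one) x) ?_
  · rw [lintegral_indicator_one mA, lintegral_indicator_one mB,
      lintegral_indicator_one mC, sub_sub_cancel] at key
    have h := ENNReal.toReal_mono (measure_ne_top _ _) key
    rw [ENNReal.toReal_mul, ← ENNReal.toReal_rpow, ← ENNReal.toReal_rpow] at h
    exact h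
  · intro x y
    rw [sub_sub_cancel]
    by_cases hx : x ∈ A
    · by_cases hy : y ∈ B
      · rw [indicator_of_mem hx, indicator_of_mem hy, indicator_of_mem (H x hx y hy)]
        simp
      · rw [indicator_of_notMem hy, ENNReal.zero_rpow_of_pos h0, mul_zero]
        exact zero_le
    · rw [indicator_of_notMem hx, ENNReal.zero_rpow_of_pos (by linarith), zero_mul]
      exact zero_le

/-- Gaussian tail -/
theorem tail_one (D : ℝ) (hD : 0 ≤ D) : G {x | D ≤ x} ≤ Real.exp (-D ^ 2 / 2) := by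
  have h2 := measure_ge_le_exp_mul_mgf (μ := gaussianReal 0 1) (X := fun x => x) D (t := D) hD
    (integrable_exp_mul_gaussianReal D)
  refine h2.trans ?_
  have h3 : mgf (fun x : ℝ => x) (gaussianReal 0 1) D = Real.exp (D ^ 2 / 2) := by
    have := congrFun (mgf_fun_id_gaussianReal (μ := 0) (v := 1)) D
    rw [this]
    simp
  rw [h3, ← Real.exp_add]
  apply Real.exp_le_exp.mpr
  nlinarith

theorem tail_two (D : ℝ) (hD : 0 ≤ D) : G {x | D ≤ |x|} ≤ 2 * Real.exp (-D ^ 2 / 2) := by
  have h1 := tail_one D hD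
  have h2 : G {x | x ≤ -D} = G {x | D ≤ x} := by
    have hmp : MeasurePreserving (fun x : ℝ => -x) (gaussianReal 0 1) (gaussianReal 0 1) := by
      refine ⟨measurable_neg, ?_⟩
      have := gaussianReal_map_neg (μ := 0) (v := 1)
      simpa using this
    unfold G Measure.real
    congr 1
    have e : {x : ℝ | x ≤ -D} = (fun x : ℝ => -x) ⁻¹' {x | D ≤ x} := by
      ext x
      simp only [mem_ofPred_eq, mem_preimage]
      constructor <;> intro h <;> linarith
    have hmm : MeasurableSet {x : ℝ | D ≤ x} := measurableSet_Ici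
    rw [e, hmp.measure_preimage hmm.nullMeasurableSet]
  have h3 : {x : ℝ | D ≤ |x|} ⊆ {x | D ≤ x} ∪ {x | x ≤ -D} := by
    intro x hx
    have hx' : D ≤ |x| := hx
    rcases le_abs.mp hx' with h | h
    · left; exact h
    · right; show x ≤ -D; linarith
  refine (measureReal_mono h3).trans ((measureReal_union_le _ _).trans ?_)
  have h4 : (gaussianReal 0 1).real {x : ℝ | x ≤ -D} ≤ Real.exp (-D ^ 2 / 2) := h2.le.trans h1
  have h5 : (gaussianReal 0 1).real {x : ℝ | D ≤ x} ≤ Real.exp (-D ^ 2 / 2) := h1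
  linarith

/-- a set of large measure comes near the origin -/
theorem near (I : Set ℝ) (D x : ℝ) (hD : 0 ≤ D) (hI : x ≤ G I)
    (h : 2 * Real.exp (-D ^ 2 / 2) < x) : ∃ τ ∈ I, |τ| < D := by
  by_contra hcon
  push Not at hcon
  have h1 : I ⊆ {x | D ≤ |x|} := fun y hy => hcon y hy
  have h2 := (measureReal_mono (μ := gaussianReal 0 1) h1).trans (tail_two D hD)
  have h3 : G I ≤ 2 * Real.exp (-D ^ 2 / 2) := h2
  linarith

theorem pdf_eq (x : ℝ) : gaussianPDFReal 0 1 x = (√(2 * Real.pi))⁻¹ * Real.exp (-x ^ 2 / 2) := by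
  unfold gaussianPDFReal
  simp

/-- lower bound on bounded sets -/
theorem lower (A : Set ℝ) (mA : MeasurableSet A) (R : ℝ) (hR : ∀ x ∈ A, |x| ≤ R) :
    ENNReal.ofReal ((√(2 * Real.pi))⁻¹ * Real.exp (-R ^ 2 / 2)) * volume A ≤
      gaussianReal 0 1 A := by
  rw [gaussianReal_apply _ one_ne_zero, ← setLIntegral_const]
  apply setLIntegral_mono' mA
  intro x hx
  unfold gaussianPDF
  apply ENNReal.ofReal_le_ofReal
  rw [pdf_eq]
  apply mul_le_mul_of_nonneg_left _ (by positivity)
  apply Real.exp_le_exp.2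
  have := hR x hx
  have h2 : x ^ 2 ≤ R ^ 2 := by
    rw [← sq_abs x]
    exact pow_le_pow_left₀ (abs_nonneg _) this 2
  linarith

theorem upper (A : Set ℝ) :
    gaussianReal 0 1 A ≤ ENNReal.ofReal ((√(2 * Real.pi))⁻¹) * volume A := by
  rw [gaussianReal_apply _ one_ne_zero, ← setLIntegral_const]
  apply lintegral_mono
  intro x
  unfold gaussianPDF
  apply ENNReal.ofReal_le_ofReal
  rw [pdf_eq]
  calc (√(2 * Real.pi))⁻¹ * Real.exp (-x ^ 2 / 2) ≤ (√(2 * Real.pi))⁻¹ * 1 := by
        apply mul_le_mul_of_nonneg_left _ (by positivity)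
        rw [Real.exp_le_one_iff]
        nlinarith [sq_nonneg x]
    _ = _ := mul_one _

/-- shrinking and shifting -/
theorem shift (J L : Set ℝ) (mJ : MeasurableSet J) (M c θ τ : ℝ) (hM : 0 ≤ M)
    (hc : c ≤ G J) (hMc : 2 * Real.exp (-M ^ 2 / 2) ≤ c / 2) (h0 : 0 < θ) (h1 : θ ≤ 1 / 2)
    (hτ : θ * |τ| ≤ 1) (H : ∀ x ∈ J, (1 - θ) * x + θ * τ ∈ L) :
    c / 4 * Real.exp (-(M + 1) ^ 2 / 2) ≤ G L := by
  set J' := J ∩ {x | |x| ≤ M} with hJ'
  have mJ' : MeasurableSet J' := mJ.inter (measurableSet_le measurable_id.abs measurable_const)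
  have h2 : c / 2 ≤ G J' := by
    have h3 : J ⊆ J' ∪ {x | M ≤ |x|} := by
      intro x hx
      rcases le_total |x| M with h | h
      · left; exact ⟨hx, h⟩
      · right; exact h
    have h4 := (measureReal_mono (μ := gaussianReal 0 1) h3).trans (measureReal_union_le _ _)
    have h5 := tail_two M hM
    have h6 : G J ≤ G J' + G {x | M ≤ |x|} := h4
    linarith
  set T : Set ℝ := AffineMap.homothety τ (1 - θ) '' J' with hT
  have hTv : volume T = ENNReal.ofReal (1 - θ) * volume J' := by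
    rw [hT, Measure.addHaar_image_homothety]
    simp only [Module.finrank_self, pow_one]
    rw [abs_of_pos (by linarith)]
  have hhom : ∀ x, AffineMap.homothety τ (1 - θ) x = (1 - θ) * x + θ * τ := by
    intro x
    simp only [AffineMap.homothety_apply, vsub_eq_sub, smul_eq_mul, vadd_eq_add]
    ring
  have hTL : T ⊆ L := by
    rintro _ ⟨x, hx, rfl⟩
    rw [hhom]
    exact H x hx.1
  have mT : MeasurableSet T := by
    have e : T = (fun z => (z - θ * τ) / (1 - θ)) ⁻¹' J' := by
      ext z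
      constructor
      · rintro ⟨x, hx, rfl⟩
        rw [mem_preimage, hhom]
        have : ((1 - θ) * x + θ * τ - θ * τ) / (1 - θ) = x := by
          have : (1 - θ) ≠ 0 := by linarith
          field_simp
          ring
        rw [this]; exact hx
      · intro hz
        refine ⟨_, hz, ?_⟩
        rw [hhom]
        have : (1 - θ) ≠ 0 := by linarith
        field_simp
        ring
    rw [e]
    exact (by fun_prop : Measurable fun z : ℝ => (z - θ * τ) / (1 - θ)) mJ'
  have hTb : ∀ x ∈ T, |x| ≤ M + 1 := by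
    rintro _ ⟨x, hx, rfl⟩
    rw [hhom]
    have hx2 : |x| ≤ M := hx.2
    calc |(1 - θ) * x + θ * τ| ≤ |(1 - θ) * x| + |θ * τ| := abs_add_le _ _
      _ = (1 - θ) * |x| + θ * |τ| := by
          rw [abs_mul, abs_mul, abs_of_pos h0, abs_of_pos (show 0 < 1 - θ by linarith)]
      _ ≤ 1 * |x| + 1 := by
          have : (1 - θ) * |x| ≤ 1 * |x| := mul_le_mul_of_nonneg_right (by linarith) (abs_nonneg _)
          linarith
      _ ≤ M + 1 := by linarith
  have h3 := lower T mT (M + 1) hTb
  have h4 := upper J'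
  have hJfin : volume J' ≠ ⊤ := by
    have : J' ⊆ Icc (-M) M := fun x hx => abs_le.1 hx.2
    exact ne_top_of_le_ne_top (by rw [Real.volume_Icc]; exact ENNReal.ofReal_ne_top) (measure_mono this)
  set κ := (√(2 * Real.pi))⁻¹ with hκ
  have hκ0 : 0 < κ := by positivity
  set v := (volume J').toReal with hv
  have hv0 : 0 ≤ v := ENNReal.toReal_nonneg
  have h5 : G J' ≤ κ * v := by
    have := ENNReal.toReal_mono (ENNReal.mul_ne_top ENNReal.ofReal_ne_top hJfin) h4
    rw [ENNReal.toReal_mul, ENNReal.toReal_ofReal hκ0.le] at this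
    exact this
  have h6 : κ * Real.exp (-(M + 1) ^ 2 / 2) * ((1 - θ) * v) ≤ G T := by
    have := ENNReal.toReal_mono (measure_ne_top _ _) h3
    rw [hTv, ENNReal.toReal_mul, ENNReal.toReal_mul, ENNReal.toReal_ofReal (by positivity),
      ENNReal.toReal_ofReal (by linarith)] at this
    exact this
  have h7 : G T ≤ G L := measureReal_mono hTL
  have h8 : 0 < Real.exp (-(M + 1) ^ 2 / 2) := Real.exp_pos _
  calc c / 4 * Real.exp (-(M + 1) ^ 2 / 2) = (1 / 2) * (c / 2) * Real.exp (-(M + 1) ^ 2 / 2) := by ring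
    _ ≤ (1 - θ) * (κ * v) * Real.exp (-(M + 1) ^ 2 / 2) := by
        apply mul_le_mul_of_nonneg_right _ h8.le
        have h9 : c / 2 ≤ κ * v := h2.trans h5
        have h10 : 0 ≤ κ * v := by positivity
        calc (1/2) * (c / 2) ≤ (1 / 2) * (κ * v) := by linarith
          _ ≤ (1 - θ) * (κ * v) := mul_le_mul_of_nonneg_right (by linarith) h10
    _ = κ * Real.exp (-(M + 1) ^ 2 / 2) * ((1 - θ) * v) := by ring
    _ ≤ G L := h6.trans h7

/-- thickening an interval -/
def thick (I : Set ℝ) (r : ℝ) : Set ℝ := {z | ∃ s ∈ I, |z - s| ≤ r}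

/-- measure of a short interval -/
theorem short_int (e r R : ℝ) (hr : 0 ≤ r) (h1 : |e| ≤ R) (h2 : r ≤ 1) (A : Set ℝ)
    (hA : A = Ioc e (e + r) ∨ A = Ico (e - r) e) :
    r * (Real.exp (-(R + 1) ^ 2 / 2) / 3) ≤ G A := by
  have mA : MeasurableSet A := by
    rcases hA with h | h
    · rw [h]; exact measurableSet_Ioc
    · rw [h]; exact measurableSet_Ico
  have hv : volume A = ENNReal.ofReal r := by
    rcases hA with h | h
    · rw [h, Real.volume_Ioc]; congr 1; ring
    · rw [h, Real.volume_Ico]; congr 1; ring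
  have hb : ∀ x ∈ A, |x| ≤ R + 1 := by
    intro x hx
    rw [abs_le] at h1 ⊢
    rcases hA with h | h
    · rw [h] at hx
      exact ⟨by linarith [hx.1, h1.1], by linarith [hx.2, h1.2]⟩
    · rw [h] at hx
      exact ⟨by linarith [hx.1, h1.1], by linarith [hx.2, h1.2]⟩
  have h3 := ENNReal.toReal_mono (measure_ne_top _ _) (lower A mA (R + 1) hb)
  rw [hv, ENNReal.toReal_mul, ENNReal.toReal_ofReal (by positivity), ENNReal.toReal_ofReal hr] at h3
  refine le_trans ?_ h3
  have h4 : (1:ℝ) / 3 ≤ (√(2 * Real.pi))⁻¹ := by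
    rw [le_inv_comm₀ (by norm_num) (by positivity), one_div, inv_inv]
    rw [Real.sqrt_le_left (by norm_num)]
    have := Real.pi_lt_four
    linarith
  have h5 : 0 < Real.exp (-(R + 1) ^ 2 / 2) := Real.exp_pos _
  calc r * (Real.exp (-(R + 1) ^ 2 / 2) / 3) = 1 / 3 * (Real.exp (-(R + 1) ^ 2 / 2) * r) := by ring
    _ ≤ (√(2 * Real.pi))⁻¹ * (Real.exp (-(R + 1) ^ 2 / 2) * r) :=
        mul_le_mul_of_nonneg_right h4 (by positivity)
    _ = _ := by ring

/-- the gain of a chord of intermediate measure -/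
theorem gain (I : Set ℝ) (hI : IsClosed I) (ho : I.OrdConnected) (r R c : ℝ) (hr : 0 ≤ r)
    (hr1 : r ≤ 1) (hR : 0 ≤ R) (hc : 2 * Real.exp (-R ^ 2 / 2) < c) (hc2 : c ≤ 1 / 2)
    (h1 : c ≤ G I) (h2 : G I ≤ 1 / 2) :
    G I + r * (Real.exp (-(R + 1) ^ 2 / 2) / 3) ≤ G (thick I r) := by
  obtain ⟨x1, hx1, hx1R⟩ := near I R c hR h1 hc
  obtain ⟨x0, hx0, hx0R⟩ : ∃ x0, x0 ∉ I ∧ |x0| < R := by
    by_contra hcon
    push Not at hcon
    have h3 : Iᶜ ⊆ {x | R ≤ |x|} := fun y hy => hcon y hy
    have h4 := (measureReal_mono (μ := gaussianReal 0 1) h3).trans (tail_two R hR)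
    rw [probReal_compl_eq_one_sub hI.measurableSet] at h4
    have h5 : (gaussianReal 0 1).real I ≤ 1 / 2 := h2
    linarith
  rw [abs_lt] at hx1R hx0R
  have hsub : I ⊆ thick I r := fun x hx => ⟨x, hx, by simpa using hr⟩
  have fin : ∀ A : Set ℝ, MeasurableSet A → Disjoint I A → A ⊆ thick I r →
      r * (Real.exp (-(R + 1) ^ 2 / 2) / 3) ≤ G A →
      G I + r * (Real.exp (-(R + 1) ^ 2 / 2) / 3) ≤ G (thick I r) := by
    intro A mA hd hA h3
    have h4 : G (I ∪ A) = G I + G A := measureReal_union hd mA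
    have h5 : G (I ∪ A) ≤ G (thick I r) := measureReal_mono (union_subset hsub hA)
    linarith
  rcases lt_trichotomy x1 x0 with hlt | heq | hgt
  · -- right endpoint
    set S := I ∩ Icc x1 x0 with hS
    have hSc : IsCompact S := isCompact_Icc.inter_left hI
    have hSn : S.Nonempty := ⟨x1, hx1, le_refl _, hlt.le⟩
    obtain ⟨e, he, hmax⟩ := hSc.exists_isMaxOn hSn continuousOn_id
    have hmax' : ∀ z ∈ S, z ≤ e := fun z hz => hmax hz
    have hex0 : e < x0 := by
      rcases he.2.2.lt_or_eq with h | h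
      · exact h
      · exact absurd (h ▸ he.1) hx0
    have hno : ∀ z ∈ I, z ≤ e := by
      intro z hz
      by_contra hze
      push Not at hze
      rcases le_total z x0 with h | h
      · exact absurd (hmax' z ⟨hz, by linarith [he.2.1], h⟩) (not_le.2 hze)
      · exact hx0 (ho.out he.1 hz ⟨hex0.le, h⟩)
    refine fin (Ioc e (e + r)) measurableSet_Ioc ?_ ?_ ?_
    · rw [Set.disjoint_left]
      intro z hz hz'
      exact absurd (hno z hz) (not_le.2 hz'.1)
    · intro z hz
      refine ⟨e, he.1, ?_⟩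
      rw [abs_of_nonneg (by linarith [hz.1])]
      linarith [hz.2]
    · refine short_int e r R hr ?_ hr1 _ (Or.inl rfl)
      rw [abs_le]
      exact ⟨by linarith [he.2.1], by linarith⟩
  · exact absurd (heq ▸ hx1) hx0
  · -- left endpoint
    set S := I ∩ Icc x0 x1 with hS
    have hSc : IsCompact S := isCompact_Icc.inter_left hI
    have hSn : S.Nonempty := ⟨x1, hx1, hgt.le, le_refl _⟩
    obtain ⟨e, he, hmin⟩ := hSc.exists_isMinOn hSn continuousOn_id
    have hmin' : ∀ z ∈ S, e ≤ z := fun z hz => hmin hz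
    have hex0 : x0 < e := by
      rcases he.2.1.lt_or_eq with h | h
      · exact h
      · exact absurd (h ▸ he.1) hx0
    have hno : ∀ z ∈ I, e ≤ z := by
      intro z hz
      by_contra hze
      push Not at hze
      rcases le_total x0 z with h | h
      · exact absurd (hmin' z ⟨hz, h, by linarith [he.2.2]⟩) (not_le.2 hze)
      · exact hx0 (ho.out hz he.1 ⟨h, hex0.le⟩)
    refine fin (Ico (e - r) e) measurableSet_Ico ?_ ?_ ?_
    · rw [Set.disjoint_left]
      intro z hz hz'
      exact absurd (hno z hz) (not_le.2 hz'.2)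
    · intro z hz
      refine ⟨e, he.1, ?_⟩
      rw [abs_of_nonpos (by linarith [hz.2])]
      linarith [hz.1]
    · refine short_int e r R hr ?_ hr1 _ (Or.inr rfl)
      rw [abs_le]
      exact ⟨by linarith, by linarith [he.2.2]⟩

end Pool.Agent.X166.TR
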