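import Pool.Agent.X166.BZE

/-!
# The main inequality for the modified Banaszczyk transform, fibre form
-/

set_option autoImplicit false

namespace Pool.Agent.X166.TR

open MeasureTheory ProbabilityTheory Set
open scoped ENNReal
open Pool.Agent.H902R3.ZA (gm)

/-- a convex family of closed chords -/
structure Fam (M : ℕ) (I : (Fin M → ℝ) → Set ℝ) : Prop where
  closed : ∀ y, IsClosed (I y)
  conv : ∀ (y y' : Fin M → ℝ) (θ : ℝ), 0 ≤ θ → θ ≤ 1 → ∀ x ∈ I y, ∀ x' ∈ I y',
    (1 - θ) * x + θ * x' ∈ I (fun i => (1 - θ) * y i + θ * y' i)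
  meas : Measurable (fun y => gaussianReal 0 1 (I y))

section
variable {M : ℕ} {I : (Fin M → ℝ) → Set ℝ}

theorem Fam.ord (hI : Fam M I) (y : Fin M → ℝ) : (I y).OrdConnected := by
  apply Convex.ordConnected
  intro x hx z hz a b ha hb hab
  have h := hI.conv y y b hb (by linarith) x hx z hz
  have e : (fun i => (1 - b) * y i + b * y i) = y := by funext i; ring
  rw [e] at h
  have e2 : a = 1 - b := by linarith
  rw [smul_eq_mul, smul_eq_mul, e2]
  exact h

theorem Fam.measG (hI : Fam M I) : Measurable (fun y => G (I y)) := hI.meas.ennreal_toReal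

/-- level sets -/
def lev (I : (Fin M → ℝ) → Set ℝ) (c : ℝ) : Set (Fin M → ℝ) := {y | c ≤ G (I y)}

theorem Fam.mlev (hI : Fam M I) (c : ℝ) : MeasurableSet (lev I c) :=
  measurableSet_le measurable_const hI.measG

/-- measure of the level sets -/
noncomputable def mm (I : (Fin M → ℝ) → Set ℝ) (c : ℝ) : ℝ := (gm M).real (lev I c)

theorem mm_anti (c d : ℝ) (h : c ≤ d) : mm I d ≤ mm I c :=
  measureReal_mono (fun _ hy => h.trans hy)

theorem mm_le_one (c : ℝ) : mm I c ≤ 1 := measureReal_le_one

theorem mm_nonneg (c : ℝ) : 0 ≤ mm I c := measureReal_nonneg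

theorem stepA (hI : Fam M I) (θ : ℝ) (h0 : 0 < θ) (h1 : θ < 1) (x c x' : ℝ) (hx : 0 ≤ x)
    (hc : 0 ≤ c) (h : x' ≤ x ^ (1 - θ) * c ^ θ) :
    mm I x ^ (1 - θ) * mm I c ^ θ ≤ mm I x' := by
  apply plM M θ h0 h1 _ _ _ (hI.mlev x) (hI.mlev c) (hI.mlev x')
  intro y hy y' hy'
  have h2 := pl1_real θ h0 h1 (I y) (I y') (I (fun i => (1 - θ) * y i + θ * y' i))
    (hI.closed y).measurableSet (hI.closed y').measurableSet (hI.closed _).measurableSet
    (hI.conv y y' θ h0.le h1.le)
  have h3 : x ^ (1 - θ) * c ^ θ ≤ G (I y) ^ (1 - θ) * G (I y') ^ θ :=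
    mul_le_mul (Real.rpow_le_rpow hx hy (by linarith)) (Real.rpow_le_rpow hc hy' h0.le)
      (Real.rpow_nonneg hc _) (Real.rpow_nonneg (G_nonneg _) _)
  exact h.trans (h3.trans h2)

theorem stepB (hI : Fam M I) (θ D R x c : ℝ) (h0 : 0 < θ) (h1 : θ ≤ 1 / 2) (hD : 0 ≤ D)
    (hθD : θ * D ≤ 1) (hx : 2 * Real.exp (-D ^ 2 / 2) < x) (hR : 0 ≤ R)
    (hRc : 2 * Real.exp (-R ^ 2 / 2) ≤ c / 2) :
    mm I c ^ (1 - θ) * mm I x ^ θ ≤ mm I (c / 4 * Real.exp (-(R + 1) ^ 2 / 2)) := by
  apply plM M θ h0 (by linarith) _ _ _ (hI.mlev c) (hI.mlev x) (hI.mlev _)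
  intro y hy y' hy'
  obtain ⟨τ, hτ, hτD⟩ := near (I y') D x hD hy' hx
  exact shift (I y) _ (hI.closed y).measurableSet R c θ τ hR hy hRc h0 h1
    ((mul_le_mul_of_nonneg_left hτD.le h0.le).trans hθD)
    (fun z hz => hI.conv y y' θ h0.le (by linarith) z hz τ hτ)

theorem half_mass (hI : Fam M I) (p : ℝ) (hp : p ≤ ∫ y, G (I y) ∂(gm M)) :
    p / 2 ≤ mm I (p / 2) := by
  rcases le_or_gt p 0 with hp0 | hp0
  · have := mm_nonneg (I := I) (p / 2)
    linarith
  have h1 : ∫ y, G (I y) ∂(gm M) ≤ ∫ y, ((lev I (p / 2)).indicator (fun _ => (1:ℝ)) y + p / 2) ∂(gm M) := by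
    apply integral_mono
    · exact Integrable.of_bound (C := 1) hI.measG.aestronglyMeasurable
        (Filter.Eventually.of_forall fun y => by
          rw [Real.norm_of_nonneg (G_nonneg _)]; exact G_le_one _)
    · exact ((integrable_const (1:ℝ)).indicator (hI.mlev _)).add (integrable_const _)
    · intro y
      by_cases hy : y ∈ lev I (p / 2)
      · simp only [indicator_of_mem hy]
        have := G_le_one (I y)
        linarith
      · simp only [indicator_of_notMem hy]
        have : G (I y) < p / 2 := not_le.1 hy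
        linarith
  rw [integral_add ((integrable_const (1:ℝ)).indicator (hI.mlev _)) (integrable_const _),
    integral_indicator_const _ (hI.mlev _)] at h1
  simp only [smul_eq_mul, mul_one, integral_const, probReal_univ, one_mul] at h1
  have : mm I (p / 2) = (gm M).real (lev I (p / 2)) := rfl
  linarith

/-- `b - a ≤ log b - log a` on `(0,1]` -/
theorem sub_le_log (a b : ℝ) (ha : 0 < a) (hab : a ≤ b) (hb : b ≤ 1) :
    b - a ≤ Real.log b - Real.log a := by
  have hb0 : 0 < b := by linarith
  rw [← Real.log_div hb0.ne' ha.ne']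
  have h1 := Real.one_sub_inv_le_log_of_pos (div_pos hb0 ha)
  rw [inv_div] at h1
  have h2 : b - a ≤ 1 - a / b := by
    have : 1 - a / b = (b - a) / b := by field_simp
    rw [this, le_div_iff₀ hb0]
    nlinarith
  linarith

/-- the increments of the measures of the low level sets -/
theorem increment (hI : Fam M I) (p : ℝ) (hp0 : 0 < p) (hp : p ≤ ∫ y, G (I y) ∂(gm M))
    (R : ℝ) (hR : 0 ≤ R) (hRc : 2 * Real.exp (-R ^ 2 / 2) ≤ p / 4) (q : ℝ) (hq : 0 < q)
    (hq2 : q < (p / 2) ^ 2) (X : ℝ) (hX : X = Real.log (p / 2 / q)) (hX1 : 1 ≤ X) (x : ℝ)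
    (hx0 : 0 < x) (hxq : 2 * x ≤ q) :
    mm I x - mm I (2 * x) ≤ 2 / √X * min (Real.log (2 / p))
      (Real.log (mm I (p / 2 / 4 * Real.exp (-(R + 1) ^ 2 / 2))) - Real.log (mm I (p / 2))) := by
  set c := p / 2 with hc
  have hc0 : 0 < c := by positivity
  have hm1 : c ≤ mm I c := half_mass hI p hp
  have hm10 : 0 < mm I c := by linarith
  set c2 := c / 4 * Real.exp (-(R + 1) ^ 2 / 2) with hc2
  have hc2c : c2 ≤ c := by
    have : Real.exp (-(R + 1) ^ 2 / 2) ≤ 1 := by
      rw [Real.exp_le_one_iff]; nlinarith [sq_nonneg (R + 1)]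
    rw [hc2]; nlinarith
  have hm12 : mm I c ≤ mm I c2 := mm_anti _ _ hc2c
  set L := Real.log (mm I c2) - Real.log (mm I c) with hL
  have hL0 : 0 ≤ L := by
    have := Real.log_le_log hm10 hm12
    linarith
  -- `X'`
  set X' := Real.log (c / x) with hX'
  have hxc : x < c := by
    have hc1 : c ≤ 1 := by
      have := mm_le_one (I := I) c
      linarith
    nlinarith
  have hXX' : X ≤ X' := by
    rw [hX, hX']
    apply Real.log_le_log (by positivity)
    apply div_le_div_of_nonneg_left hc0.le hx0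
    linarith
  have hX'1 : 1 ≤ X' := hX1.trans hXX'
  have hX'0 : 0 < X' := by linarith
  have hmx : mm I c ≤ mm I x := mm_anti _ _ hxc.le
  have h2xc : 2 * x ≤ c := by
    have hc1 : c ≤ 1 := by
      have := mm_le_one (I := I) c
      linarith
    nlinarith
  have hm2x : mm I c ≤ mm I (2 * x) := mm_anti _ _ h2xc
  set a := Real.log (mm I x) - Real.log (mm I c) with ha
  have ha0 : 0 ≤ a := by
    have := Real.log_le_log hm10 hmx
    linarith
  have haB : a ≤ Real.log (2 / p) := by
    have h1 : Real.log (mm I x) ≤ 0 := Real.log_nonpos (mm_nonneg _) (mm_le_one _)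
    have h2 : Real.log c ≤ Real.log (mm I c) := Real.log_le_log hc0 hm1
    have h3 : Real.log (2 / p) = -Real.log c := by
      rw [← Real.log_inv, hc, inv_div]
    linarith
  have hlog2 : 0 < Real.log 2 := Real.log_pos (by norm_num)
  have hlog2' : Real.log 2 < 1 := by
    have := Real.log_two_lt_d9; linarith
  -- step A
  have hA : Real.log (mm I x) - Real.log (mm I (2 * x)) ≤ Real.log 2 / X' * a := by
    set θ := Real.log 2 / X' with hθ
    have h0 : 0 < θ := by positivity
    have h1 : θ < 1 := by rw [hθ, div_lt_one hX'0]; linarith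
    have hpow : 2 * x ≤ x ^ (1 - θ) * c ^ θ := by
      have e1 : c ^ θ = x ^ θ * (c / x) ^ θ := by
        rw [← Real.mul_rpow hx0.le (by positivity)]
        congr 1
        field_simp
      have e2 : (c / x) ^ θ = 2 := by
        rw [Real.rpow_def_of_pos (by positivity), ← hX', hθ, mul_div_cancel₀ _ hX'0.ne',
          Real.exp_log (by norm_num)]
      rw [e1, e2, ← mul_assoc, ← Real.rpow_add hx0]
      have : 1 - θ + θ = 1 := by ring
      rw [this, Real.rpow_one]
      linarith
    have h2 := stepA hI θ h0 h1 x c (2 * x) hx0.le hc0.le hpow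
    have hmx0 : 0 < mm I x := by linarith
    have hm2x0 : 0 < mm I (2 * x) := by linarith
    have h3 := Real.log_le_log (by positivity) h2
    rw [Real.log_mul (by positivity) (by positivity), Real.log_rpow hmx0, Real.log_rpow hm10] at h3
    rw [ha]
    linarith
  -- step B
  have hsq : 1 ≤ √X' := by rw [Real.one_le_sqrt]; exact hX'1
  have hss : √X' * √X' = X' := Real.mul_self_sqrt hX'0.le
  have hB : a ≤ 2 * √X' * L := by
    set θ := 1 / (2 * √X') with hθ
    have h0 : 0 < θ := by positivity
    have h1 : θ ≤ 1 / 2 := by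
      rw [hθ, div_le_div_iff₀ (by positivity) (by norm_num)]
      linarith
    have hD : 2 * Real.exp (-(2 * √X') ^ 2 / 2) < x := by
      have e1 : -(2 * √X') ^ 2 / 2 = -X' + -X' := by
        have : (2 * √X') ^ 2 = 4 * (√X' * √X') := by ring
        rw [this, hss]; ring
      rw [e1, Real.exp_add]
      have e2 : Real.exp (-X') = x / c := by
        rw [Real.exp_neg, hX', Real.exp_log (by positivity), inv_div]
      rw [e2]
      have e3 : 2 * (x / c * (x / c)) = x * (2 * x / c ^ 2) := by field_simp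
      rw [e3]
      have h5 : 2 * x / c ^ 2 < 1 := by
        rw [div_lt_one (by positivity)]; linarith
      nlinarith
    have h2 := stepB hI θ (2 * √X') R x c h0 h1 (by positivity)
      (by rw [hθ]; field_simp; exact le_refl _) hD hR (by rw [hc]; linarith)
    have hmx0 : 0 < mm I x := by linarith
    have h3 := Real.log_le_log (by positivity) h2
    rw [Real.log_mul (by positivity) (by positivity), Real.log_rpow hmx0, Real.log_rpow hm10] at h3
    have h4 : θ * a ≤ L := by rw [ha, hL]; linarith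
    have h5 : θ * (2 * √X') = 1 := by rw [hθ]; field_simp
    have h6 : a = (θ * a) * (2 * √X') := by
      calc a = (θ * (2 * √X')) * a := by rw [h5, one_mul]
        _ = _ := by ring
    rw [h6]
    calc (θ * a) * (2 * √X') ≤ L * (2 * √X') := mul_le_mul_of_nonneg_right h4 (by positivity)
      _ = _ := by ring
  have h7 := sub_le_log (mm I (2 * x)) (mm I x) (by linarith) (mm_anti _ _ (by linarith)) (mm_le_one _)
  have hsX : √X ≤ √X' := Real.sqrt_le_sqrt hXX'
  have hsX0 : 0 < √X := Real.sqrt_pos.2 (by linarith)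
  refine h7.trans (hA.trans ?_)
  have hB0 : 0 ≤ Real.log (2 / p) := ha0.trans haB
  rw [mul_min_of_nonneg _ _ (by positivity), le_min_iff]
  constructor
  · calc Real.log 2 / X' * a ≤ Real.log 2 / X' * Real.log (2 / p) :=
          mul_le_mul_of_nonneg_left haB (by positivity)
      _ ≤ 2 / √X * Real.log (2 / p) := by
          apply mul_le_mul_of_nonneg_right _ hB0
          apply div_le_div₀ (by norm_num) (by linarith) hsX0
          calc √X ≤ √X' := hsX
            _ = √X' * 1 := by ring
            _ ≤ √X' * √X' := mul_le_mul_of_nonneg_left hsq (by positivity)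
            _ = X' := hss
  · calc Real.log 2 / X' * a ≤ Real.log 2 / X' * (2 * √X' * L) :=
          mul_le_mul_of_nonneg_left hB (by positivity)
      _ = 2 * Real.log 2 / √X' * L := by
          rw [← hss]
          have : √X' ≠ 0 := by positivity
          field_simp
          rw [Real.sq_sqrt (by positivity)]
          try ring
      _ ≤ 2 / √X * L := by
          apply mul_le_mul_of_nonneg_right _ hL0
          apply div_le_div₀ (by norm_num) (by linarith) hsX0 hsX

end

end Pool.Agent.X166.TR
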