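import Pool.Agent.X166.BZF

/-!
# Loss and gain
-/

set_option autoImplicit false

namespace Pool.Agent.X166.TR

open MeasureTheory ProbabilityTheory Set
open scoped ENNReal
open Pool.Agent.H902R3.ZA (gm)

section
variable {M : ℕ} {I : (Fin M → ℝ) → Set ℝ}

/-- the loss: total measure of the chords of measure below `q` -/
theorem loss (hI : Fam M I) (q δ : ℝ) (hq : 0 < q) (hδ : 0 ≤ δ)
    (H : ∀ x : ℝ, 0 < x → 2 * x ≤ q → mm I x - mm I (2 * x) ≤ δ) :
    ∫⁻ y in (lev I q)ᶜ, gaussianReal 0 1 (I y) ∂(gm M) ≤ ENNReal.ofReal (2 * q * δ) := by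
  set S : ℕ → Set (Fin M → ℝ) := fun k => lev I (q / 2 ^ (k + 1)) \ lev I (q / 2 ^ k) with hS
  have mS : ∀ k, MeasurableSet (S k) := fun k => (hI.mlev _).diff (hI.mlev _)
  -- the zero part
  have h0 : ∀ y, gaussianReal 0 1 (I y) = ENNReal.ofReal (G (I y)) := by
    intro y
    rw [G, Measure.real, ENNReal.ofReal_toReal (measure_ne_top _ _)]
  have hcover : ∀ y, (lev I q)ᶜ.indicator (fun y => gaussianReal 0 1 (I y)) y ≤
      ∑' k, (S k).indicator (fun _ => ENNReal.ofReal (q / 2 ^ k)) y := by
    intro y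
    by_cases hy : y ∈ (lev I q)ᶜ
    · rw [indicator_of_mem hy]
      have hy' : G (I y) < q := not_le.1 hy
      rcases (G_nonneg (I y)).eq_or_lt with hz | hpos
      · rw [h0, ← hz]; simp
      · -- find the scale
        have hex : ∃ k : ℕ, q / 2 ^ (k + 1) ≤ G (I y) := by
          obtain ⟨k, hk⟩ := exists_pow_lt_of_lt_one (div_pos hpos hq) (show (1/2:ℝ) < 1 by norm_num)
          refine ⟨k, ?_⟩
          rw [lt_div_iff₀ hq] at hk
          have : q / 2 ^ (k + 1) = (1 / 2) ^ k * q * (1 / 2) := by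
            rw [div_pow, one_pow, pow_succ]; field_simp
          rw [this]
          have h5 : 0 ≤ (1 / 2 : ℝ) ^ k * q := by positivity
          linarith
        classical
        set k := Nat.find hex with hk
        have hk1 : q / 2 ^ (k + 1) ≤ G (I y) := Nat.find_spec hex
        have hk2 : G (I y) < q / 2 ^ k := by
          rcases Nat.eq_zero_or_pos k with hk0 | hkpos
          · rw [hk0, pow_zero, div_one]; exact hy'
          · have := Nat.find_min hex (m := k - 1) (by omega)
            rw [show k - 1 + 1 = k by omega] at this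
            exact not_le.1 this
        have hyS : y ∈ S k := ⟨hk1, not_le.2 hk2⟩
        calc gaussianReal 0 1 (I y) = ENNReal.ofReal (G (I y)) := h0 y
          _ ≤ ENNReal.ofReal (q / 2 ^ k) := ENNReal.ofReal_le_ofReal hk2.le
          _ = (S k).indicator (fun _ => ENNReal.ofReal (q / 2 ^ k)) y := by
              rw [indicator_of_mem hyS]
          _ ≤ _ := ENNReal.le_tsum k
    · rw [indicator_of_notMem hy]; exact zero_le
  rw [← lintegral_indicator (hI.mlev q).compl]
  refine (lintegral_mono hcover).trans ?_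
  rw [lintegral_tsum (fun k => (measurable_const.indicator (mS k)).aemeasurable)]
  have hk : ∀ k, ∫⁻ y, (S k).indicator (fun _ => ENNReal.ofReal (q / 2 ^ k)) y ∂(gm M) ≤
      ENNReal.ofReal (q * δ) * ENNReal.ofReal ((1 / 2) ^ k) := by
    intro k
    rw [lintegral_indicator_const (mS k)]
    have h1 : (gm M) (S k) ≤ ENNReal.ofReal δ := by
      rw [← ENNReal.ofReal_toReal (measure_ne_top (gm M) (S k))]
      apply ENNReal.ofReal_le_ofReal
      have h2 : q / 2 ^ (k + 1) ≤ q / 2 ^ k := by
        apply div_le_div_of_nonneg_left hq.le (by positivity)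
        exact pow_le_pow_right₀ (by norm_num) (by omega)
      have hsub : lev I (q / 2 ^ k) ⊆ lev I (q / 2 ^ (k + 1)) := fun z hz => h2.trans hz
      have h3 : (gm M).real (S k) = mm I (q / 2 ^ (k + 1)) - mm I (q / 2 ^ k) :=
        measureReal_sdiff hsub (hI.mlev _)
      have h4 := H (q / 2 ^ (k + 1)) (by positivity) (by
        have h5 : 2 * (q / 2 ^ (k + 1)) = q / 2 ^ k := by rw [pow_succ]; field_simp
        rw [h5]
        exact div_le_self hq.le (one_le_pow₀ (by norm_num)))
      have h5 : 2 * (q / 2 ^ (k + 1)) = q / 2 ^ k := by rw [pow_succ]; field_simp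
      rw [h5] at h4
      have h6 : ((gm M) (S k)).toReal = (gm M).real (S k) := rfl
      rw [h6, h3]
      exact h4
    calc ENNReal.ofReal (q / 2 ^ k) * (gm M) (S k) ≤ ENNReal.ofReal (q / 2 ^ k) * ENNReal.ofReal δ :=
          mul_le_mul_right h1 _
      _ = ENNReal.ofReal (q * δ) * ENNReal.ofReal ((1 / 2) ^ k) := by
          rw [← ENNReal.ofReal_mul (by positivity), ← ENNReal.ofReal_mul (by positivity)]
          congr 1
          rw [div_pow, one_pow]
          ring
  refine (ENNReal.tsum_le_tsum hk).trans ?_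
  rw [ENNReal.tsum_mul_left, ← ENNReal.ofReal_tsum_of_nonneg (fun k => by positivity)
    summable_geometric_two, tsum_geometric_two, ← ENNReal.ofReal_mul (by positivity)]
  apply le_of_eq
  congr 1
  ring

/-- **Main inequality, fibre form.** -/
theorem main_fibre (hI : Fam M I) (p : ℝ) (hp0 : 0 < p) (hp1 : p ≤ 1)
    (hp : p ≤ ∫ y, G (I y) ∂(gm M))
    (R : ℝ) (hR : 0 ≤ R) (hRc : 2 * Real.exp (-R ^ 2 / 2) ≤ p / 4)
    (c2 : ℝ) (hc2 : c2 = p / 2 / 4 * Real.exp (-(R + 1) ^ 2 / 2))
    (R2 : ℝ) (hR2 : 0 ≤ R2) (hR2c : 2 * Real.exp (-R2 ^ 2 / 2) < c2)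
    (c3 : ℝ) (hc3 : c3 = Real.exp (-(R2 + 1) ^ 2 / 2) / 3)
    (r q : ℝ) (hr1 : r ≤ 1) (hq : 0 < q) (hqr : q ≤ r) (hqc : q ≤ c2)
    (hq2 : q < (p / 2) ^ 2) (X : ℝ) (hX : X = Real.log (p / 2 / q)) (hX1 : 1 ≤ X)
    (hX2 : 16 * (1 + Real.log (2 / p)) ≤ c3 * p * √X) :
    ∫⁻ y, gaussianReal 0 1 (I y) ∂(gm M) ≤
      ∫⁻ y, (lev I q).indicator (fun y => gaussianReal 0 1 (thick (I y) r)) y ∂(gm M) := by
  set c := p / 2 with hc
  have hc0 : 0 < c := by positivity
  have hr0 : 0 ≤ r := by linarith
  have hc20 : 0 < c2 := by rw [hc2]; positivity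
  have hc30 : 0 < c3 := by rw [hc3]; positivity
  have hc2c : c2 ≤ c / 4 := by
    have : Real.exp (-(R + 1) ^ 2 / 2) ≤ 1 := by
      rw [Real.exp_le_one_iff]; nlinarith [sq_nonneg (R + 1)]
    rw [hc2]; nlinarith
  have hm1 : c ≤ mm I c := half_mass hI p hp
  have hm10 : 0 < mm I c := by linarith
  have hm12 : mm I c ≤ mm I c2 := mm_anti _ _ (by linarith)
  have hm20 : 0 < mm I c2 := by linarith
  set L := Real.log (mm I c2) - Real.log (mm I c) with hL
  have hL0 : 0 ≤ L := by
    have := Real.log_le_log hm10 hm12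
    linarith
  set B := Real.log (2 / p) with hB
  have hB0 : 0 ≤ B := by
    apply Real.log_nonneg
    rw [le_div_iff₀ hp0]; linarith
  have hsX0 : 0 < √X := Real.sqrt_pos.2 (by linarith)
  set δ := 2 / √X * min B L with hδ
  have hδ0 : 0 ≤ δ := by
    have : 0 ≤ min B L := le_min hB0 hL0
    positivity
  have hloss := loss hI q δ hq hδ0 (fun x hx0 hxq => by
    have := increment hI p hp0 hp R hR hRc q hq hq2 X hX hX1 x hx0 hxq
    rw [← hc2] at this
    exact this)
  -- the zone
  set Zn := lev I c2 \ lev I c with hZn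
  have mZ : MeasurableSet Zn := (hI.mlev _).diff (hI.mlev _)
  have hZreal : (gm M).real Zn = mm I c2 - mm I c :=
    measureReal_sdiff (fun z hz => (by linarith : c2 ≤ c).trans hz) (hI.mlev _)
  -- pointwise
  have hpt : ∀ y, (lev I q).indicator (fun y => gaussianReal 0 1 (I y)) y +
      Zn.indicator (fun _ => ENNReal.ofReal (r * c3)) y ≤
      (lev I q).indicator (fun y => gaussianReal 0 1 (thick (I y) r)) y := by
    intro y
    by_cases hyZ : y ∈ Zn
    · have hyq : y ∈ lev I q := hqc.trans hyZ.1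
      rw [indicator_of_mem hyZ, indicator_of_mem hyq, indicator_of_mem hyq]
      have hG1 : c2 ≤ G (I y) := hyZ.1
      have hG2 : G (I y) < c := not_le.1 hyZ.2
      have hg := gain (I y) (hI.closed y) (hI.ord y) r R2 c2 hr0 hr1 hR2 hR2c (by linarith) hG1
        (by linarith)
      rw [← hc3] at hg
      have e1 : gaussianReal 0 1 (I y) = ENNReal.ofReal (G (I y)) := by
        rw [G, Measure.real, ENNReal.ofReal_toReal (measure_ne_top _ _)]
      have e2 : gaussianReal 0 1 (thick (I y) r) = ENNReal.ofReal (G (thick (I y) r)) := by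
        rw [G, Measure.real, ENNReal.ofReal_toReal (measure_ne_top _ _)]
      rw [e1, e2, ← ENNReal.ofReal_add (G_nonneg _) (by positivity)]
      exact ENNReal.ofReal_le_ofReal hg
    · rw [indicator_of_notMem hyZ, add_zero]
      by_cases hyq : y ∈ lev I q
      · rw [indicator_of_mem hyq, indicator_of_mem hyq]
        exact measure_mono fun x hx => ⟨x, hx, by simpa using hr0⟩
      · rw [indicator_of_notMem hyq, indicator_of_notMem hyq]
  have hgain : ∫⁻ y, (lev I q).indicator (fun y => gaussianReal 0 1 (I y)) y ∂(gm M) +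
      ENNReal.ofReal (r * c3 * (mm I c2 - mm I c)) ≤
      ∫⁻ y, (lev I q).indicator (fun y => gaussianReal 0 1 (thick (I y) r)) y ∂(gm M) := by
    refine le_trans (le_of_eq ?_) (lintegral_mono hpt)
    rw [lintegral_add_right _ (measurable_const.indicator mZ), lintegral_indicator_const mZ]
    congr 1
    rw [ENNReal.ofReal_mul (by positivity), ← hZreal, Measure.real,
      ENNReal.ofReal_toReal (measure_ne_top _ _)]
  refine le_trans ?_ hgain
  rw [← lintegral_add_compl _ (hI.mlev q), lintegral_indicator (hI.mlev q)]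
  refine add_le_add le_rfl (hloss.trans (ENNReal.ofReal_le_ofReal ?_))
  -- real inequality
  have h1 : mm I c2 = mm I c * Real.exp L := by
    rw [hL, Real.exp_sub, Real.exp_log hm20, Real.exp_log hm10]
    field_simp
  have h2 : mm I c2 - mm I c = mm I c2 * (1 - Real.exp (-L)) := by
    have : mm I c2 * Real.exp (-L) = mm I c := by
      rw [h1, mul_assoc, ← Real.exp_add]
      simp
    rw [mul_sub, mul_one, this]
  have h3 : min 1 L / 2 ≤ 1 - Real.exp (-L) := by
    have h4 : Real.exp (-L) ≤ 1 / (1 + L) := by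
      rw [Real.exp_neg, ← one_div]
      apply one_div_le_one_div_of_le (by linarith)
      linarith [Real.add_one_le_exp L]
    have h5 : min 1 L / 2 ≤ 1 - 1 / (1 + L) := by
      have e : 1 - 1 / (1 + L) = L / (1 + L) := by field_simp; ring
      rw [e, div_le_div_iff₀ (by norm_num) (by linarith)]
      rcases le_total 1 L with h | h
      · rw [min_eq_left h]; linarith
      · rw [min_eq_right h]; nlinarith
    linarith
  have hmin0 : 0 ≤ min 1 L := le_min zero_le_one hL0
  have h4 : min B L ≤ (1 + B) * min 1 L := by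
    rcases le_total 1 L with h | h
    · rw [min_eq_left h]
      exact (min_le_left _ _).trans (by linarith)
    · rw [min_eq_right h]
      exact (min_le_right _ _).trans (by nlinarith)
  have h5 : c * (min 1 L / 2) ≤ mm I c2 - mm I c := by
    rw [h2]
    apply mul_le_mul (by linarith) h3 (by positivity) (by linarith)
  calc 2 * q * δ ≤ 2 * r * (2 / √X * ((1 + B) * min 1 L)) := by
        rw [hδ]
        have : 0 ≤ min B L := le_min hB0 hL0
        apply mul_le_mul _ _ (by positivity) (by positivity)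
        · linarith
        · exact mul_le_mul_of_nonneg_left h4 (by positivity)
    _ = (16 * (1 + B)) * (r * min 1 L / (4 * √X)) := by field_simp; ring
    _ ≤ (c3 * p * √X) * (r * min 1 L / (4 * √X)) :=
        mul_le_mul_of_nonneg_right hX2 (by positivity)
    _ = r * c3 * (c * (min 1 L / 2)) := by rw [hc]; field_simp; ring
    _ ≤ r * c3 * (mm I c2 - mm I c) := mul_le_mul_of_nonneg_left h5 (by positivity)

end

end Pool.Agent.X166.TR
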