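import Pool.Agent.X166.BZG

/-!
# The modified Banaszczyk transform
-/

set_option autoImplicit false

namespace Pool.Agent.X166.TR

open MeasureTheory ProbabilityTheory Set
open scoped ENNReal Pointwise
open Pool.Agent.H902R3.ZA (gm)

abbrev E (n : ℕ) := EuclideanSpace ℝ (Fin n)

/-- the set `Z_K(u)` -/
def ZZ {n : ℕ} (K : Set (E n)) (u : E n) : Set (E n) :=
  {y | inner ℝ y u = 0 ∧ gaussianReal 0 1 (Icc (-‖u‖) ‖u‖) ≤
    gaussianReal 0 1 {t : ℝ | y + (t / ‖u‖) • u ∈ K}}

open Classical in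
/-- the transform `K ∘ u` -/
noncomputable def tr {n : ℕ} (K : Set (E n)) (u : E n) : Set (E n) :=
  if u = 0 then K else
    (K + segment ℝ (-u) u) ∩ (ZZ K u + (Submodule.span ℝ {u} : Set (E n)))

/-- first radius -/
noncomputable def R1 (p : ℝ) : ℝ := √(2 * Real.log (8 / p))
/-- measure of the zone chords -/
noncomputable def C2 (p : ℝ) : ℝ := p / 8 * Real.exp (-(R1 p + 1) ^ 2 / 2)
/-- second radius -/
noncomputable def R2 (p : ℝ) : ℝ := √(2 * Real.log (3 / C2 p))
/-- gain constant -/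
noncomputable def C3 (p : ℝ) : ℝ := Real.exp (-(R2 p + 1) ^ 2 / 2) / 3
/-- the threshold -/
noncomputable def T (p : ℝ) : ℝ := 16 * (1 + Real.log (2 / p)) / (C3 p * p)
/-- the admissible radius -/
noncomputable def rad (p : ℝ) : ℝ := p / 2 * Real.exp (-(T p) ^ 2)

theorem C2_pos {p : ℝ} (hp : 0 < p) : 0 < C2 p := by unfold C2; positivity

theorem C3_pos (p : ℝ) : 0 < C3 p := by unfold C3; positivity

theorem rad_pos {p : ℝ} (hp : 0 < p) : 0 < rad p := by unfold rad; positivity

theorem C2_le {p : ℝ} (hp : 0 < p) (hp1 : p ≤ 1) : C2 p ≤ 1 / 8 := by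
  unfold C2
  have : Real.exp (-(R1 p + 1) ^ 2 / 2) ≤ 1 := by
    rw [Real.exp_le_one_iff]; nlinarith [sq_nonneg (R1 p + 1)]
  have h0 : 0 < Real.exp (-(R1 p + 1) ^ 2 / 2) := Real.exp_pos _
  calc p / 8 * Real.exp (-(R1 p + 1) ^ 2 / 2) ≤ p / 8 * 1 :=
        mul_le_mul_of_nonneg_left this (by positivity)
    _ ≤ 1 / 8 := by linarith

theorem R1_spec {p : ℝ} (hp : 0 < p) (hp1 : p ≤ 1) : 2 * Real.exp (-R1 p ^ 2 / 2) = p / 4 := by
  unfold R1
  have h1 : 0 ≤ Real.log (8 / p) := by
    apply Real.log_nonneg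
    rw [le_div_iff₀ hp]; linarith
  rw [Real.sq_sqrt (by positivity)]
  have e : -(2 * Real.log (8 / p)) / 2 = -Real.log (8 / p) := by ring
  rw [e, Real.exp_neg, Real.exp_log (by positivity), inv_div]
  ring

theorem R2_spec {p : ℝ} (hp : 0 < p) (hp1 : p ≤ 1) :
    Real.exp (-R2 p ^ 2 / 2) = C2 p / 3 := by
  unfold R2
  have h0 := C2_pos hp
  have h1 : 0 ≤ Real.log (3 / C2 p) := by
    apply Real.log_nonneg
    rw [le_div_iff₀ h0]
    have := C2_le hp hp1
    linarith
  rw [Real.sq_sqrt (by positivity)]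
  have e : -(2 * Real.log (3 / C2 p)) / 2 = -Real.log (3 / C2 p) := by ring
  rw [e, Real.exp_neg, Real.exp_log (by positivity), inv_div]

theorem C3_le {p : ℝ} (hp : 0 < p) (hp1 : p ≤ 1) : C3 p ≤ C2 p := by
  have h1 := R2_spec hp hp1
  have h2 : 0 ≤ R2 p := Real.sqrt_nonneg _
  have h3 : Real.exp (-(R2 p + 1) ^ 2 / 2) ≤ Real.exp (-R2 p ^ 2 / 2) := by
    apply Real.exp_le_exp.2
    nlinarith
  have h4 := C2_pos hp
  unfold C3
  rw [h1] at h3
  linarith

theorem T_ge {p : ℝ} (hp : 0 < p) (hp1 : p ≤ 1) : 16 / (C2 p * p) ≤ T p := by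
  have h1 := C3_pos p
  have h2 := C3_le hp hp1
  have h3 := C2_pos hp
  have hB : 0 ≤ Real.log (2 / p) := by
    apply Real.log_nonneg
    rw [le_div_iff₀ hp]; linarith
  unfold T
  apply div_le_div₀ (by positivity) (by linarith) (by positivity)
  exact mul_le_mul_of_nonneg_right h2 hp.le

theorem exp_T_le {p : ℝ} (hp : 0 < p) (hp1 : p ≤ 1) : Real.exp (-(T p) ^ 2) ≤ C2 p * p / 16 := by
  have h1 := T_ge hp hp1
  have h3 := C2_pos hp
  have h4 : 1 ≤ 16 / (C2 p * p) := by
    rw [le_div_iff₀ (by positivity)]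
    have := C2_le hp hp1
    nlinarith
  have h5 : 1 ≤ T p := h4.trans h1
  have h6 : T p ≤ Real.exp ((T p) ^ 2) := by
    have := Real.add_one_le_exp ((T p) ^ 2)
    nlinarith
  rw [Real.exp_neg, inv_le_comm₀ (Real.exp_pos _) (by positivity), inv_div]
  exact h1.trans h6

/-- positivity of the measure of symmetric intervals -/
theorem pr_pos (r : ℝ) (hr : 0 < r) : 0 < G (Icc (-r) r) := by
  have h := lower (Icc (-r) r) measurableSet_Icc r (fun x hx => abs_le.2 hx)
  rw [Real.volume_Icc] at h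
  have h2 := ENNReal.toReal_mono (measure_ne_top _ _) h
  rw [ENNReal.toReal_mul, ENNReal.toReal_ofReal (by positivity),
    ENNReal.toReal_ofReal (by linarith)] at h2
  refine lt_of_lt_of_le ?_ h2
  have : 0 < r - -r := by linarith
  positivity

/-- **Main theorem.** -/
theorem main_tr (n : ℕ) (K : Set (E n)) (hK : IsClosed K) (hc : Convex ℝ K) (p : ℝ) (hp0 : 0 < p)
    (hp : p ≤ (stdGaussian (E n) K).toReal) (u : E n) (hu : ‖u‖ ≤ rad p) :
    stdGaussian (E n) K ≤ stdGaussian (E n) (tr K u) := by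
  classical
  have hp1 : p ≤ 1 := by
    refine hp.trans ?_
    have := ENNReal.toReal_mono ENNReal.one_ne_top (prob_le_one (μ := stdGaussian (E n)) (s := K))
    simpa using this
  by_cases hu0 : u = 0
  · unfold tr; rw [if_pos hu0]
  rcases n with _ | M
  · exact absurd (Subsingleton.elim u 0) hu0
  set r := ‖u‖ with hr
  have hr0 : 0 < r := norm_pos_iff.2 hu0
  set e : E (M + 1) := r⁻¹ • u with he
  have hen : ‖e‖ = 1 := by rw [he, norm_smul, norm_inv, ← hr, Real.norm_of_nonneg hr0.le, inv_mul_cancel₀ hr0.ne']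
  have hue : u = r • e := by rw [he, smul_smul, mul_inv_cancel₀ hr0.ne', one_smul]
  -- an orthonormal basis with first vector `e`
  obtain ⟨b, hb⟩ := Orthonormal.exists_orthonormalBasis_extension_of_card_eq
    (𝕜 := ℝ) (E := E (M + 1)) (ι := Fin (M + 1)) (by simp) (v := fun _ => e) (s := {0}) (by
      constructor
      · rintro ⟨i, hi⟩; simpa using hen
      · rintro ⟨i, hi⟩ ⟨j, hj⟩ hij
        exfalso; apply hij
        rw [mem_singleton_iff] at hi hj
        exact Subtype.ext (hi.trans hj.symm))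
  have hb0 : b 0 = e := hb 0 rfl
  set w : (Fin M → ℝ) → E (M + 1) := fun y => ∑ j, y j • b (Fin.succ j) with hw
  have hwe : ∀ y, inner ℝ e (w y) = 0 := by
    intro y
    rw [hw, ← hb0]
    simp only [inner_sum, inner_smul_right]
    apply Finset.sum_eq_zero
    intro j _
    rw [b.inner_eq_zero (Fin.succ_ne_zero j).symm, mul_zero]
  have hee : inner ℝ e e = (1:ℝ) := by rw [real_inner_self_eq_norm_sq, hen]; norm_num
  set I : (Fin M → ℝ) → Set ℝ := fun y => {z : ℝ | z • e + w y ∈ K} with hI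
  have hwlin : ∀ (y y' : Fin M → ℝ) (θ : ℝ), w (fun i => (1 - θ) * y i + θ * y' i) =
      (1 - θ) • w y + θ • w y' := by
    intro y y' θ
    simp only [hw, Finset.smul_sum, smul_smul, ← Finset.sum_add_distrib, add_smul]
  have hIm : ∀ A : Set (E (M + 1)), MeasurableSet A → Measurable (fun y : Fin M → ℝ =>
      gaussianReal 0 1 {z : ℝ | z • e + w y ∈ A}) := by
    intro A hA
    have hmeas : Measurable (fun q : ℝ × (Fin M → ℝ) => q.1 • e + w q.2) := by
      rw [hw]; fun_prop
    exact measurable_measure_prodMk_right (hmeas hA)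
  have hFam : Fam M I := by
    refine ⟨fun y => hK.preimage (by fun_prop), ?_, hIm K hK.measurableSet⟩
    intro y y' θ h0 h1 x hx x' hx'
    have h := hc hx hx' (a := 1 - θ) (b := θ) (by linarith) h0 (by ring)
    have e1 : (1 - θ) • (x • e + w y) + θ • (x' • e + w y') =
        ((1 - θ) * x + θ * x') • e + w (fun i => (1 - θ) * y i + θ * y' i) := by
      rw [hwlin]; module
    rw [e1] at h
    exact h
  have hfub : ∀ A : Set (E (M + 1)), MeasurableSet A → stdGaussian (E (M + 1)) A =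
      ∫⁻ y, gaussianReal 0 1 {z : ℝ | z • e + w y ∈ A} ∂(gm M) := by
    intro A hA
    have := Pool.Agent.H460BZ.fubini M b A hA
    rw [hb0] at this
    exact this
  have hKf := hfub K hK.measurableSet
  have hpint : p ≤ ∫ y, G (I y) ∂(gm M) := by
    have h1 : ∫ y, G (I y) ∂(gm M) = (∫⁻ y, gaussianReal 0 1 (I y) ∂(gm M)).toReal := by
      rw [← integral_toReal hFam.meas.aemeasurable
        (Filter.Eventually.of_forall fun y => measure_lt_top _ _)]
      rfl
    rw [h1]
    rw [hKf] at hp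
    exact hp
  -- the measurable subset of the transform
  set q := G (Icc (-r) r) with hq
  have hq0 : 0 < q := pr_pos r hr0
  have hqr : q ≤ r := by
    have h1 := ENNReal.toReal_mono ENNReal.ofReal_ne_top (Pool.Agent.X166.BZ.g1_le r hr0.le)
    rw [ENNReal.toReal_ofReal hr0.le] at h1
    exact h1
  set A' : Set (E (M + 1)) := (K + segment ℝ (-u) u) ∩
    {x | gaussianReal 0 1 (Icc (-r) r) ≤
      gaussianReal 0 1 {t : ℝ | (x - (inner ℝ e x) • e) + t • e ∈ K}} with hA'
  have mA' : MeasurableSet A' := by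
    apply MeasurableSet.inter
    · apply IsClosed.measurableSet
      apply hK.add_right_of_isCompact
      rw [segment_eq_image]
      exact isCompact_Icc.image (by fun_prop)
    · apply measurableSet_le measurable_const
      have hS : MeasurableSet {z : E (M + 1) × ℝ | (z.1 - (inner ℝ e z.1) • e) + z.2 • e ∈ K} := by
        apply (hK.preimage _).measurableSet
        fun_prop
      exact measurable_measure_prodMk_left hS
  have hsub : A' ⊆ tr K u := by
    rintro x ⟨hx1, hx2⟩
    unfold tr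
    rw [if_neg hu0]
    refine ⟨hx1, ?_⟩
    refine ⟨x - (inner ℝ e x) • e, ⟨?_, ?_⟩, (inner ℝ e x) • e, ?_, ?_⟩
    · rw [hue, inner_smul_right, inner_sub_left, real_inner_smul_left, hee, real_inner_comm x e]
      ring
    · refine hx2.trans (le_of_eq ?_)
      congr 1
      ext t
      simp only [mem_ofPred_eq]
      have : (t / ‖u‖) • u = t • e := by
        rw [he, smul_smul, ← hr]; congr 1
      rw [this]
    · rw [he]
      exact Submodule.smul_mem _ _ (Submodule.smul_mem _ _ (Submodule.mem_span_singleton_self u))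
    · simp
  refine le_trans ?_ (measure_mono hsub)
  rw [hfub A' mA', hKf]
  have hTT := exp_T_le hp0 hp1
  have hC2 := C2_pos hp0
  have hC2' := C2_le hp0 hp1
  have hqrad : q ≤ rad p := hqr.trans hu
  have hrad : rad p ≤ p / 2 * (C2 p * p / 16) := by
    unfold rad
    exact mul_le_mul_of_nonneg_left hTT (by positivity)
  have hCp : C2 p * p ≤ C2 p := mul_le_of_le_one_right hC2.le hp1
  have hrad2 : rad p ≤ C2 p / 32 := by
    refine hrad.trans ?_
    have h1 : 0 ≤ C2 p * p := by positivity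
    calc p / 2 * (C2 p * p / 16) ≤ 1 / 2 * (C2 p * p / 16) :=
          mul_le_mul_of_nonneg_right (by linarith) (by positivity)
      _ ≤ C2 p / 32 := by linarith
  have hrad3 : rad p < (p / 2) ^ 2 := by
    refine lt_of_le_of_lt hrad ?_
    have h1 : C2 p * p / 16 < p / 2 := by nlinarith
    calc p / 2 * (C2 p * p / 16) < p / 2 * (p / 2) := mul_lt_mul_of_pos_left h1 (by positivity)
      _ = _ := by ring
  have hT1 : 1 ≤ T p := by
    refine le_trans ?_ (T_ge hp0 hp1)
    rw [le_div_iff₀ (by positivity)]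
    nlinarith
  have hX : (T p) ^ 2 ≤ Real.log (p / 2 / q) := by
    rw [Real.le_log_iff_exp_le (by positivity), le_div_iff₀ hq0]
    have h1 : Real.exp ((T p) ^ 2) * q ≤ Real.exp ((T p) ^ 2) * rad p :=
      mul_le_mul_of_nonneg_left hqrad (Real.exp_pos _).le
    refine h1.trans (le_of_eq ?_)
    unfold rad
    rw [Real.exp_neg]
    field_simp
  have hmain := main_fibre hFam p hp0 hp1 hpint (R1 p) (Real.sqrt_nonneg _)
    (R1_spec hp0 hp1).le (C2 p) (by unfold C2; ring) (R2 p) (Real.sqrt_nonneg _)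
    (by rw [R2_spec hp0 hp1]; linarith) (C3 p) rfl r q
    (by linarith) hq0 hqr
    (by linarith) (by linarith) (Real.log (p / 2 / q)) rfl (by nlinarith)
    (by
      have h1 : T p ≤ √(Real.log (p / 2 / q)) := Real.le_sqrt_of_sq_le hX
      have h2 : 16 * (1 + Real.log (2 / p)) = C3 p * p * T p := by
        have := C3_pos p
        unfold T
        field_simp
      rw [h2]
      have := C3_pos p
      exact mul_le_mul_of_nonneg_left h1 (by positivity))
  refine hmain.trans (lintegral_mono fun y => ?_)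
  by_cases hy : y ∈ lev I q
  · rw [indicator_of_mem hy]
    apply measure_mono
    rintro z ⟨s, hs, hzs⟩
    refine ⟨⟨s • e + w y, hs, (z - s) • e, ?_, ?_⟩, ?_⟩
    · rw [segment_eq_image']
      refine ⟨((z - s) / r + 1) / 2, ⟨?_, ?_⟩, ?_⟩
      · rw [abs_le] at hzs
        have : -1 ≤ (z - s) / r := by rw [le_div_iff₀ hr0]; linarith [hzs.1]
        linarith
      · rw [abs_le] at hzs
        have : (z - s) / r ≤ 1 := by rw [div_le_iff₀ hr0]; linarith [hzs.2]
        linarith
      · show -u + (((z - s) / r + 1) / 2) • (u - -u) = (z - s) • e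
        rw [he]
        have : (z - s) • r⁻¹ • u = ((z - s) / r) • u := by rw [smul_smul]; rfl
        rw [this]
        module
    · show s • e + w y + (z - s) • e = z • e + w y
      module
    · show gaussianReal 0 1 (Icc (-r) r) ≤ gaussianReal 0 1
        {t : ℝ | (z • e + w y - (inner ℝ e (z • e + w y)) • e) + t • e ∈ K}
      have h1 : inner ℝ e (z • e + w y) = z := by
        rw [inner_add_right, inner_smul_right, hee, hwe]; ring
      have h2 : {t : ℝ | (z • e + w y - (inner ℝ e (z • e + w y)) • e) + t • e ∈ K} = I y := by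
        ext t
        simp only [mem_ofPred_eq, h1, hI]
        have : z • e + w y - z • e + t • e = t • e + w y := by abel
        rw [this]
      rw [h2]
      have h3 : q ≤ G (I y) := hy
      exact (ENNReal.toReal_le_toReal (measure_ne_top _ _) (measure_ne_top _ _)).1 h3
  · rw [indicator_of_notMem hy]; exact zero_le

end Pool.Agent.X166.TR

namespace Pool.Agent.X166.TR

theorem sq_help (a : ℝ) : Real.exp (-a ^ 2 / 2) ^ 2 * Real.exp (-1) ≤ Real.exp (-(a + 1) ^ 2 / 2) := by
  rw [← Real.exp_nat_mul, ← Real.exp_add]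
  apply Real.exp_le_exp.2
  push_cast
  nlinarith [sq_nonneg (a - 1)]

theorem exp_neg_one_ge : (1:ℝ) / 3 ≤ Real.exp (-1) := by
  rw [Real.exp_neg, one_div]
  apply inv_anti₀ (Real.exp_pos _)
  have := Real.exp_one_lt_d9
  linarith

theorem C2_lower {p : ℝ} (hp : 0 < p) (hp1 : p ≤ 1) : p ^ 3 / 1536 ≤ C2 p := by
  have h1 := sq_help (R1 p)
  have h2 := R1_spec hp hp1
  have h3 : Real.exp (-R1 p ^ 2 / 2) = p / 8 := by linarith
  rw [h3] at h1
  have h4 := exp_neg_one_ge
  unfold C2
  calc p ^ 3 / 1536 = p / 8 * ((p / 8) ^ 2 * (1 / 3)) := by ring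
    _ ≤ p / 8 * ((p / 8) ^ 2 * Real.exp (-1)) := by gcongr
    _ ≤ _ := mul_le_mul_of_nonneg_left h1 (by positivity)

theorem C3_lower {p : ℝ} (hp : 0 < p) (hp1 : p ≤ 1) : p ^ 6 / 191102976 ≤ C3 p := by
  have h1 := sq_help (R2 p)
  rw [R2_spec hp hp1] at h1
  have h4 := exp_neg_one_ge
  have h5 := C2_lower hp hp1
  unfold C3
  calc p ^ 6 / 191102976 = ((p ^ 3 / 1536) / 3) ^ 2 * (1 / 3) / 3 := by ring
    _ ≤ (C2 p / 3) ^ 2 * Real.exp (-1) / 3 := by gcongr
    _ ≤ _ := by linarith

theorem T_upper {p : ℝ} (hp : 0 < p) (hp1 : p ≤ 1) : T p ≤ 9000000000 / p ^ 8 := by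
  have h1 := C3_lower hp hp1
  have h2 : 1 + Real.log (2 / p) ≤ 2 / p := by
    have := Real.log_le_sub_one_of_pos (show 0 < 2 / p by positivity)
    linarith
  unfold T
  calc 16 * (1 + Real.log (2 / p)) / (C3 p * p) ≤ 16 * (2 / p) / (p ^ 6 / 191102976 * p) := by
        apply div_le_div₀ (by positivity) (by linarith) (by positivity)
        exact mul_le_mul_of_nonneg_right h1 hp.le
    _ = 6115295232 / p ^ 8 := by field_simp; norm_num
    _ ≤ 9000000000 / p ^ 8 := by gcongr; norm_num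

theorem rad_lower {p : ℝ} (hp : 0 < p) (hp1 : p ≤ 1) : Real.exp (-(10 ^ 20 / p ^ 16)) ≤ rad p := by
  have h1 := T_upper hp hp1
  have hT0 : 0 ≤ T p := by
    have h3 := C2_pos hp
    exact le_trans (by positivity) (T_ge hp hp1)
  have h2 : T p ^ 2 ≤ 81000000000000000000 / p ^ 16 := by
    calc T p ^ 2 ≤ (9000000000 / p ^ 8) ^ 2 := pow_le_pow_left₀ hT0 h1 2
      _ = 81000000000000000000 / p ^ 16 := by rw [div_pow]; norm_num [← pow_mul]
  have h3 : Real.exp (-(2 / p)) ≤ p / 2 := by
    rw [Real.exp_neg, inv_le_comm₀ (Real.exp_pos _) (by positivity), inv_div]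
    have := Real.add_one_le_exp (2 / p)
    linarith
  have h4 : 2 / p ≤ 2 / p ^ 16 := by
    apply div_le_div_of_nonneg_left (by norm_num) (by positivity)
    calc p ^ 16 ≤ p ^ 1 := pow_le_pow_of_le_one hp.le hp1 (by norm_num)
      _ = p := pow_one p
  unfold rad
  calc Real.exp (-(10 ^ 20 / p ^ 16)) ≤ Real.exp (-(2 / p) + -(T p ^ 2)) := by
        apply Real.exp_le_exp.2
        have h5 : 2 / p ^ 16 + 81000000000000000000 / p ^ 16 ≤ 10 ^ 20 / p ^ 16 := by
          rw [← add_div]; gcongr; norm_num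
        linarith
    _ = Real.exp (-(2 / p)) * Real.exp (-(T p ^ 2)) := Real.exp_add _ _
    _ ≤ p / 2 * Real.exp (-(T p) ^ 2) := mul_le_mul_of_nonneg_right h3 (Real.exp_pos _).le

end Pool.Agent.X166.TR
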