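import Mathlib

open MeasureTheory Set
open scoped Real ENNReal

namespace Pool.Agent.X166.RM

theorem int_pow {q ρ : ℝ} (hq : 0 < q) (hρ : 0 < ρ) :
    ∫⁻ r in Ioi ρ, ENNReal.ofReal (q * r ^ (-1 - q)) = ENNReal.ofReal (ρ ^ (-q)) := by
  have hint : IntegrableOn (fun r : ℝ => q * r ^ (-1 - q)) (Ioi ρ) :=
    (integrableOn_Ioi_rpow_of_lt (by linarith) hρ).const_mul q
  rw [← ofReal_integral_eq_lintegral_ofReal hint]
  · congr 1
    rw [integral_const_mul, integral_Ioi_rpow_of_lt (by linarith) hρ]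
    rw [show -1 - q + 1 = -q by ring]
    field_simp
  · filter_upwards [ae_restrict_mem measurableSet_Ioi] with r hr
    have : 0 < r := hρ.trans hr
    positivity

theorem hint {q : ℝ} (hq : 0 < q) (hq1 : q < 1) :
    IntegrableOn (fun s : ℝ => s ^ (-1 - q) * (1 - Real.cos (2 * π * s))) (Ioi 0) := by
  have hmeas : Measurable (fun s : ℝ => s ^ (-1 - q) * (1 - Real.cos (2 * π * s))) := by
    fun_prop
  rw [← Ioc_union_Ioi_eq_Ioi (zero_le_one (α := ℝ))]
  refine IntegrableOn.union ?_ ?_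
  · have h1 : IntegrableOn (fun s : ℝ => 2 * π ^ 2 * s ^ (1 - q)) (Ioc 0 1) := by
      have := (intervalIntegral.intervalIntegrable_rpow' (a := 0) (b := 1)
        (show -1 < 1 - q by linarith)).1
      exact this.const_mul _
    refine Integrable.mono' h1 hmeas.aestronglyMeasurable ?_
    filter_upwards [ae_restrict_mem measurableSet_Ioc] with s hs
    have hs0 : 0 < s := hs.1
    have hc : 1 - Real.cos (2 * π * s) ≤ (2 * π * s) ^ 2 / 2 := by
      have := Real.one_sub_sq_div_two_le_cos (x := 2 * π * s)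
      linarith
    have hc0 : 0 ≤ 1 - Real.cos (2 * π * s) := by linarith [Real.cos_le_one (2 * π * s)]
    rw [Real.norm_of_nonneg (mul_nonneg (Real.rpow_nonneg hs0.le _) hc0)]
    calc s ^ (-1 - q) * (1 - Real.cos (2 * π * s))
        ≤ s ^ (-1 - q) * ((2 * π * s) ^ 2 / 2) :=
          mul_le_mul_of_nonneg_left hc (Real.rpow_nonneg hs0.le _)
      _ = 2 * π ^ 2 * (s ^ (-1 - q) * s ^ (2 : ℝ)) := by
          rw [Real.rpow_two]; ring
      _ = 2 * π ^ 2 * s ^ (1 - q) := by
          rw [← Real.rpow_add hs0]; congr 2; ring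
  · have h1 : IntegrableOn (fun s : ℝ => 2 * s ^ (-1 - q)) (Ioi 1) :=
      (integrableOn_Ioi_rpow_of_lt (by linarith) one_pos).const_mul 2
    refine Integrable.mono' h1 hmeas.aestronglyMeasurable ?_
    filter_upwards [ae_restrict_mem measurableSet_Ioi] with s hs
    have hs0 : 0 < s := one_pos.trans hs
    have hc0 : 0 ≤ 1 - Real.cos (2 * π * s) := by linarith [Real.cos_le_one (2 * π * s)]
    have hc : 1 - Real.cos (2 * π * s) ≤ 2 := by linarith [Real.neg_one_le_cos (2 * π * s)]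
    rw [Real.norm_of_nonneg (mul_nonneg (Real.rpow_nonneg hs0.le _) hc0)]
    have := mul_le_mul_of_nonneg_left hc (Real.rpow_nonneg hs0.le (-1 - q))
    linarith

/-- The constant. -/
noncomputable def Cq (q : ℝ) : ℝ :=
  q * ∫ s in Ioi (0 : ℝ), s ^ (-1 - q) * (1 - Real.cos (2 * π * s))

theorem Cq_nonneg {q : ℝ} (hq : 0 < q) : 0 ≤ Cq q := by
  refine mul_nonneg hq.le (setIntegral_nonneg measurableSet_Ioi fun s hs => ?_)
  exact mul_nonneg (Real.rpow_nonneg (le_of_lt hs) _) (by linarith [Real.cos_le_one (2 * π * s)])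

theorem cos_int {q : ℝ} (hq : 0 < q) (hq1 : q < 1) (a : ℝ) :
    ∫⁻ r in Ioi (0 : ℝ), ENNReal.ofReal (q * r ^ (-1 - q) * (1 - Real.cos (2 * π * (r * a))))
      = ENNReal.ofReal (Cq q * |a| ^ q) := by
  rcases eq_or_ne a 0 with rfl | ha
  · simp [hq.ne']
  have ha0 : 0 < |a| := abs_pos.2 ha
  set h : ℝ → ℝ := fun s => s ^ (-1 - q) * (1 - Real.cos (2 * π * s)) with hh
  have e1 : ∀ r ∈ Ioi (0 : ℝ), q * r ^ (-1 - q) * (1 - Real.cos (2 * π * (r * a)))
      = (q * |a| ^ (1 + q)) * h (|a| * r) := by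
    intro r hr
    have hr0 : (0 : ℝ) < r := hr
    have h1 : Real.cos (2 * π * (r * a)) = Real.cos (2 * π * (|a| * r)) := by
      rcases abs_choice a with h' | h'
      · rw [h']; ring_nf
      · rw [h', ← Real.cos_neg]; ring_nf
    simp only [hh]
    rw [h1, Real.mul_rpow ha0.le hr0.le]
    have h2 : |a| ^ (1 + q) * |a| ^ (-1 - q) = 1 := by
      rw [← Real.rpow_add ha0, show 1 + q + (-1 - q) = 0 by ring, Real.rpow_zero]
    calc q * r ^ (-1 - q) * (1 - Real.cos (2 * π * (|a| * r)))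
        = (|a| ^ (1 + q) * |a| ^ (-1 - q)) * (q * r ^ (-1 - q)
          * (1 - Real.cos (2 * π * (|a| * r)))) := by rw [h2, one_mul]
      _ = _ := by ring
  have hI : IntegrableOn (fun r => (q * |a| ^ (1 + q)) * h (|a| * r)) (Ioi 0) := by
    have h1 : IntegrableOn (fun r => h (|a| * r)) (Ioi 0) := by
      rw [integrableOn_Ioi_comp_mul_left_iff h 0 ha0, mul_zero]
      exact hint hq hq1
    exact h1.const_mul _
  have e2 : ∫⁻ r in Ioi (0 : ℝ), ENNReal.ofReal (q * r ^ (-1 - q)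
      * (1 - Real.cos (2 * π * (r * a))))
      = ∫⁻ r in Ioi (0 : ℝ), ENNReal.ofReal ((q * |a| ^ (1 + q)) * h (|a| * r)) := by
    refine setLIntegral_congr_fun measurableSet_Ioi fun r hr => ?_
    exact congrArg ENNReal.ofReal (e1 r hr)
  rw [e2, ← ofReal_integral_eq_lintegral_ofReal hI]
  · congr 1
    rw [integral_const_mul, integral_comp_mul_left_Ioi h 0 ha0, mul_zero, smul_eq_mul]
    unfold Cq
    rw [show |a| ^ (1 + q) = |a| * |a| ^ q by rw [Real.rpow_add ha0, Real.rpow_one]]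
    field_simp
    rfl
  · filter_upwards [ae_restrict_mem measurableSet_Ioi] with r hr
    have hr0 : (0 : ℝ) < r := hr
    rw [← e1 r hr]
    have : 0 ≤ 1 - Real.cos (2 * π * (r * a)) := by linarith [Real.cos_le_one (2 * π * (r * a))]
    show 0 ≤ q * r ^ (-1 - q) * (1 - Real.cos (2 * π * (r * a)))
    positivity

theorem finite_int {q : ℝ} (hq : 0 < q) (hq1 : q < 1) {D : ℝ → ℝ≥0∞} {A B : ℝ}
    (hA : ∀ r, 0 < r → D r ≤ ENNReal.ofReal A)
    (hD : ∀ r, 0 < r → D r ≤ ENNReal.ofReal (B * r)) :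
    ∫⁻ r in Ioi (0 : ℝ), ENNReal.ofReal (q * r ^ (-1 - q)) * D r < ∞ := by
  rw [← Ioc_union_Ioi_eq_Ioi (zero_le_one (α := ℝ))]
  refine (lintegral_union_le _ _ _).trans_lt (ENNReal.add_lt_top.2 ⟨?_, ?_⟩)
  · have h1 : IntegrableOn (fun s : ℝ => q * B * s ^ (-q)) (Ioc 0 1) := by
      have := (intervalIntegral.intervalIntegrable_rpow' (a := 0) (b := 1)
        (show -1 < -q by linarith)).1
      exact this.const_mul _
    have h2 : ∫⁻ r in Ioc (0 : ℝ) 1, ENNReal.ofReal (q * r ^ (-1 - q)) * D r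
        ≤ ∫⁻ r in Ioc (0 : ℝ) 1, ENNReal.ofReal (q * B * r ^ (-q)) := by
      refine setLIntegral_mono (by fun_prop) fun r hr => ?_
      have hr0 : 0 < r := hr.1
      calc ENNReal.ofReal (q * r ^ (-1 - q)) * D r
          ≤ ENNReal.ofReal (q * r ^ (-1 - q)) * ENNReal.ofReal (B * r) := by
            gcongr
            exact hD r hr0
        _ = ENNReal.ofReal (q * B * r ^ (-q)) := by
            rw [← ENNReal.ofReal_mul (by positivity)]
            congr 1
            have : r ^ (-q) = r ^ (-1 - q) * r := by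
              rw [← Real.rpow_add_one hr0.ne']; congr 1; ring
            rw [this]; ring
    refine h2.trans_lt ?_
    have h3 := h1.lintegral_lt_top
    exact h3
  · have h1 : IntegrableOn (fun s : ℝ => q * s ^ (-1 - q)) (Ioi 1) :=
      (integrableOn_Ioi_rpow_of_lt (by linarith) one_pos).const_mul q
    have h2 : ∫⁻ r in Ioi (1 : ℝ), ENNReal.ofReal (q * r ^ (-1 - q)) * D r
        ≤ ∫⁻ r in Ioi (1 : ℝ), ENNReal.ofReal (q * r ^ (-1 - q)) * ENNReal.ofReal A := by
      refine setLIntegral_mono (by fun_prop) fun r hr => ?_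
      gcongr
      exact hA r (one_pos.trans hr)
    refine h2.trans_lt ?_
    rw [lintegral_mul_const _ (by fun_prop)]
    exact ENNReal.mul_lt_top h1.lintegral_lt_top ENNReal.ofReal_lt_top

end Pool.Agent.X166.RM
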