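import Pool.Agent.X166.RMA
import Pool.Agent.Helper390.CovarioA

open MeasureTheory Set FourierTransform
open scoped Real ENNReal

namespace Pool.Agent.X166.RM

variable {E : Type*} [NormedAddCommGroup E] [InnerProductSpace ℝ E] [FiniteDimensional ℝ E]
  [MeasurableSpace E] [BorelSpace E]

/-- complex indicator -/
noncomputable def ic (K : Set E) : E → ℂ := K.indicator fun _ => 1

theorem fourier_shift (f : E → ℂ) (z ξ : E) :
    𝓕 (fun y => f (y + z)) ξ = (Real.fourierChar (inner ℝ z ξ) : ℂ) * 𝓕 f ξ := by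
  have := VectorFourier.fourierIntegral_comp_add_right Real.fourierChar (volume : Measure E)
    (innerₗ E) f z
  have h2 := congrFun this ξ
  exact h2

theorem norm_sq_char (t : ℝ) : ‖(1 : ℂ) - (Real.fourierChar t : ℂ)‖ ^ 2
    = 2 * (1 - Real.cos (2 * π * t)) := by
  rw [Real.fourierChar_apply, ← Complex.normSq_eq_norm_sq, Complex.normSq_apply]
  simp only [Complex.sub_re, Complex.one_re, Complex.sub_im, Complex.one_im,
    Complex.exp_ofReal_mul_I_re, Complex.exp_ofReal_mul_I_im]
  have := Real.sin_sq_add_cos_sq (2 * π * t)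
  nlinarith

theorem vol_diff {K : Set E} (hK : MeasurableSet K) (hfin : volume K ≠ ∞) (z : E) :
    volume {y | y ∈ K ∧ y + z ∉ K}
      = ∫⁻ ξ, ENNReal.ofReal (‖𝓕 (ic K) ξ‖ ^ 2 * (1 - Real.cos (2 * π * (inner ℝ z ξ)))) := by
  have hf1 : Integrable (ic K) := (integrable_indicator_iff hK).2 (integrableOn_const hfin)
  have hf2 : MemLp (ic K) 2 := memLp_indicator_const 2 hK 1 (Or.inr hfin)
  have hz := (measurePreserving_add_right (volume : Measure E) z)
  have hg1 : Integrable (fun y => ic K (y + z)) := hf1.comp_add_right z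
  have hg2 : MemLp (fun y => ic K (y + z)) 2 := hf2.comp_measurePreserving hz
  set g : E → ℂ := fun y => ic K y - ic K (y + z) with hg
  obtain ⟨hF2, hP⟩ := Pool.Agent.Helper390.Covario.plancherel (hf1.sub hg1) (hf2.sub hg2)
  have hgeq : (ic K - fun y => ic K (y + z)) = g := rfl
  rw [hgeq] at hF2 hP
  -- Fourier transform of `g`
  have hFg : ∀ ξ, ‖𝓕 g ξ‖ ^ 2 = 2 * (‖𝓕 (ic K) ξ‖ ^ 2 * (1 - Real.cos (2 * π * (inner ℝ z ξ)))) := by
    intro ξ
    have h1 : 𝓕 g ξ = 𝓕 (ic K) ξ - 𝓕 (fun y => ic K (y + z)) ξ := by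
      have := VectorFourier.fourierIntegral_add (e := Real.fourierChar) (μ := (volume : Measure E))
        (L := innerₗ E) Real.continuous_fourierChar continuous_inner hf1 hg1.neg
      have h2 := congrFun this ξ
      have h3 : (ic K + -fun y => ic K (y + z)) = g := by
        funext y; simp [hg, sub_eq_add_neg]
      rw [h3] at h2
      have h4 : VectorFourier.fourierIntegral Real.fourierChar (volume : Measure E) (innerₗ E)
          (-fun y => ic K (y + z)) ξ = - 𝓕 (fun y => ic K (y + z)) ξ := by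
        have h5 := VectorFourier.fourierIntegral_const_smul Real.fourierChar
          (volume : Measure E) (innerₗ E) (fun y => ic K (y + z)) (-1 : ℂ)
        have h6 := congrFun h5 ξ
        have h7 : ((-1 : ℂ) • fun y => ic K (y + z)) = -fun y => ic K (y + z) := by
          funext y; simp
        rw [h7] at h6
        rw [h6]
        simp only [Pi.smul_apply, smul_eq_mul, neg_mul, one_mul]
        rfl
      calc 𝓕 g ξ = _ := h2
        _ = _ := by
          rw [Pi.add_apply, h4, ← sub_eq_add_neg]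
          rfl
    rw [h1, fourier_shift, show 𝓕 (ic K) ξ - (Real.fourierChar (inner ℝ z ξ) : ℂ) * 𝓕 (ic K) ξ
      = (1 - (Real.fourierChar (inner ℝ z ξ) : ℂ)) * 𝓕 (ic K) ξ by ring, norm_mul, mul_pow,
      norm_sq_char]
    ring
  -- the set
  have hKz : MeasurableSet {y : E | y + z ∈ K} := hK.preimage (by fun_prop)
  have hvz : volume {y : E | y + z ∈ K} = volume K := hz.measure_preimage hK.nullMeasurableSet
  have hS1 : MeasurableSet {y | y ∈ K ∧ y + z ∉ K} := hK.inter hKz.compl
  have hS2 : MeasurableSet {y | y ∉ K ∧ y + z ∈ K} := hK.compl.inter hKz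
  have hv12 : volume {y | y ∉ K ∧ y + z ∈ K} = volume {y | y ∈ K ∧ y + z ∉ K} := by
    have e1 : {y | y ∉ K ∧ y + z ∈ K} = {y | y + z ∈ K} \ (K ∩ {y | y + z ∈ K}) := by
      ext y; simp; tauto
    have e2 : {y | y ∈ K ∧ y + z ∉ K} = K \ (K ∩ {y | y + z ∈ K}) := by
      ext y; simp
    rw [e1, e2, measure_sdiff inter_subset_right (hK.inter hKz).nullMeasurableSet
      (ne_top_of_le_ne_top hfin (measure_mono inter_subset_left)), measure_sdiff
      inter_subset_left (hK.inter hKz).nullMeasurableSet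
      (ne_top_of_le_ne_top hfin (measure_mono inter_subset_left)), hvz]
  have hgn : ∀ y, ENNReal.ofReal (‖g y‖ ^ 2)
      = ({y | y ∈ K ∧ y + z ∉ K} : Set E).indicator (fun _ => 1) y
        + ({y | y ∉ K ∧ y + z ∈ K} : Set E).indicator (fun _ => 1) y := by
    intro y
    by_cases h1 : y ∈ K <;> by_cases h2 : y + z ∈ K <;> simp [hg, ic, h1, h2]
  have hl1 : ∫⁻ y, ENNReal.ofReal (‖g y‖ ^ 2) = 2 * volume {y | y ∈ K ∧ y + z ∉ K} := by
    simp_rw [hgn]
    rw [lintegral_add_left (measurable_const.indicator hS1), lintegral_indicator_const hS1,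
      lintegral_indicator_const hS2, hv12, one_mul, two_mul]
  have hgi : Integrable (fun y => ‖g y‖ ^ 2) := (hf2.sub hg2).integrable_norm_pow (by norm_num)
  have hFi : Integrable (fun ξ => ‖𝓕 g ξ‖ ^ 2) := hF2.integrable_norm_pow (by norm_num)
  have hl2 : ∫⁻ ξ, ENNReal.ofReal (‖𝓕 g ξ‖ ^ 2) = ∫⁻ y, ENNReal.ofReal (‖g y‖ ^ 2) := by
    rw [← ofReal_integral_eq_lintegral_ofReal hFi (Filter.Eventually.of_forall fun _ => by
      positivity), ← ofReal_integral_eq_lintegral_ofReal hgi (Filter.Eventually.of_forall fun _ =>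
      by positivity), hP]
  rw [hl1] at hl2
  have hl3 : ∫⁻ ξ, ENNReal.ofReal (‖𝓕 g ξ‖ ^ 2)
      = 2 * ∫⁻ ξ, ENNReal.ofReal (‖𝓕 (ic K) ξ‖ ^ 2 * (1 - Real.cos (2 * π * (inner ℝ z ξ)))) := by
    rw [← lintegral_const_mul' 2 _ (by norm_num)]
    congr 1
    ext ξ
    rw [hFg, ENNReal.ofReal_mul (by norm_num)]
    norm_num
  rw [hl3] at hl2
  exact ((ENNReal.mul_right_inj (by norm_num) (by norm_num)).1 hl2).symm

theorem continuous_fourier_ic {K : Set E} (hK : MeasurableSet K) (hfin : volume K ≠ ∞) :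
    Continuous (𝓕 (ic K)) := by
  have hf1 : Integrable (ic K) := (integrable_indicator_iff hK).2 (integrableOn_const hfin)
  exact VectorFourier.fourierIntegral_continuous Real.continuous_fourierChar continuous_inner hf1

end Pool.Agent.X166.RM
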