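import Pool.Agent.X166.RMB

open MeasureTheory Set FourierTransform Metric
open scoped Real ENNReal Pointwise

namespace Pool.Agent.X166.RM

variable {E : Type*} [NormedAddCommGroup E] [InnerProductSpace ℝ E] [FiniteDimensional ℝ E]
  [MeasurableSpace E] [BorelSpace E]

/-- radial function of `K - y` in direction `x` -/
noncomputable def RR (K : Set E) (x y : E) : ℝ := sSup {t : ℝ | 0 ≤ t ∧ y + t • x ∈ K}

omit [FiniteDimensional ℝ E] [MeasurableSpace E] [BorelSpace E] in
theorem RR_iff {K : Set E} (hK : IsCompact K) (hc : Convex ℝ K) {x y : E} (hx : x ≠ 0)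
    (hy : y ∈ K) : 0 ≤ RR K x y ∧ ∀ r : ℝ, 0 ≤ r → (y + r • x ∈ K ↔ r ≤ RR K x y) := by
  have hxn : 0 < ‖x‖ := norm_pos_iff.2 hx
  obtain ⟨M, hM⟩ := hK.isBounded.exists_norm_le
  have hbdd : BddAbove {t : ℝ | 0 ≤ t ∧ y + t • x ∈ K} := by
    refine ⟨2 * M / ‖x‖, ?_⟩
    rintro t ⟨ht0, ht⟩
    rw [le_div_iff₀ hxn]
    have h1 : ‖t • x‖ = t * ‖x‖ := by rw [norm_smul, Real.norm_of_nonneg ht0]
    have h2 : ‖t • x‖ ≤ ‖y + t • x‖ + ‖y‖ := by
      calc ‖t • x‖ = ‖(y + t • x) - y‖ := by rw [add_sub_cancel_left]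
        _ ≤ _ := norm_sub_le _ _
    have := hM _ ht
    have := hM _ hy
    linarith
  have hne : ({t : ℝ | 0 ≤ t ∧ y + t • x ∈ K}).Nonempty := ⟨0, le_rfl, by simpa using hy⟩
  have hcl : IsClosed {t : ℝ | 0 ≤ t ∧ y + t • x ∈ K} :=
    isClosed_Ici.inter (hK.isClosed.preimage (by fun_prop))
  have hmem := hcl.csSup_mem hne hbdd
  have h0 : 0 ≤ RR K x y := hmem.1
  refine ⟨h0, fun r hr => ⟨fun h => le_csSup hbdd ⟨hr, h⟩, fun h => ?_⟩⟩
  rcases h0.eq_or_lt with h1 | h1
  · have : r = 0 := by linarith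
    rw [this]; simpa using hy
  · have h2 : y + RR K x y • x ∈ K := hmem.2
    have h3 := hc hy h2 (show 0 ≤ 1 - r / RR K x y by
      rw [sub_nonneg, div_le_one h1]; exact h) (div_nonneg hr h1.le) (by ring)
    have h4 : (1 - r / RR K x y) • y + (r / RR K x y) • (y + RR K x y • x) = y + r • x := by
      rw [smul_add, smul_smul, div_mul_cancel₀ _ h1.ne', sub_smul, one_smul]
      abel
    rwa [h4] at h3

theorem vol_le {K : Set E} (hK : IsCompact K) (hc : Convex ℝ K) {z₀ : E} {δ : ℝ} (hδ : 0 < δ)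
    (hball : closedBall z₀ δ ⊆ K) {x : E} (hx : x ≠ 0) (hn : 1 ≤ Module.finrank ℝ E)
    {r : ℝ} (hr : 0 < r) :
    volume {y | y ∈ K ∧ y + r • x ∉ K}
      ≤ ENNReal.ofReal (Module.finrank ℝ E * (volume K).toReal * ‖x‖ / δ * r) := by
  have hxn : 0 < ‖x‖ := norm_pos_iff.2 hx
  have hfin : volume K ≠ ∞ := hK.measure_lt_top.ne
  set V := (volume K).toReal with hV
  have hV0 : 0 ≤ V := ENNReal.toReal_nonneg
  have hVK : volume K = ENNReal.ofReal V := (ENNReal.ofReal_toReal hfin).symm
  set n := Module.finrank ℝ E with hn'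
  have hn1 : (1 : ℝ) ≤ n := by exact_mod_cast hn
  set t := r * ‖x‖ / δ with ht
  have ht0 : 0 < t := by positivity
  have hval : n * V * ‖x‖ / δ * r = n * t * V := by rw [ht]; ring
  rw [hval]
  rcases le_or_gt t 1 with h1 | h1
  · have hsub : {y | y ∈ K ∧ y + r • x ∉ K} ⊆ K \ (AffineMap.homothety z₀ (1 - t) '' K) := by
      rintro y ⟨hy, hyx⟩
      refine ⟨hy, ?_⟩
      rintro ⟨k, hk, rfl⟩
      apply hyx
      have h2 : z₀ + (r / t) • x ∈ K := by
        apply hball
        rw [mem_closedBall, dist_self_add_left, norm_smul, Real.norm_of_nonneg (by positivity), ht]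
        field_simp
        exact le_refl _
      have h3 := hc hk h2 (sub_nonneg.2 h1) ht0.le (by ring)
      have h4 : (1 - t) • k + t • (z₀ + (r / t) • x)
          = AffineMap.homothety z₀ (1 - t) k + r • x := by
        rw [AffineMap.homothety_apply, smul_add, smul_smul, mul_div_cancel₀ _ ht0.ne']
        simp only [vsub_eq_sub, vadd_eq_add]
        module
      rwa [h4] at h3
    have hsub2 : AffineMap.homothety z₀ (1 - t) '' K ⊆ K := by
      rintro _ ⟨k, hk, rfl⟩
      have hz : z₀ ∈ K := hball (mem_closedBall_self hδ.le)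
      have h3 := hc hk hz (sub_nonneg.2 h1) ht0.le (by ring)
      have h4 : (1 - t) • k + t • z₀ = AffineMap.homothety z₀ (1 - t) k := by
        rw [AffineMap.homothety_apply]
        simp only [vsub_eq_sub, vadd_eq_add]
        module
      rwa [h4] at h3
    have hcomp : IsCompact (AffineMap.homothety z₀ (1 - t) '' K) := by
      apply hK.image
      have : (AffineMap.homothety z₀ (1 - t) : E → E) = fun k => (1 - t) • (k - z₀) + z₀ := by
        ext k; simp [AffineMap.homothety_apply]
      rw [this]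
      fun_prop
    have hvol : volume (AffineMap.homothety z₀ (1 - t) '' K)
        = ENNReal.ofReal ((1 - t) ^ n * V) := by
      rw [Measure.addHaar_image_homothety, hVK, ← ENNReal.ofReal_mul (abs_nonneg _),
        abs_of_nonneg (pow_nonneg (sub_nonneg.2 h1) _)]
    calc volume {y | y ∈ K ∧ y + r • x ∉ K}
        ≤ volume (K \ (AffineMap.homothety z₀ (1 - t) '' K)) := measure_mono hsub
      _ = volume K - volume (AffineMap.homothety z₀ (1 - t) '' K) :=
          measure_sdiff hsub2 hcomp.measurableSet.nullMeasurableSet hcomp.measure_lt_top.ne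
      _ = ENNReal.ofReal (V - (1 - t) ^ n * V) := by
          rw [hvol, hVK, ← ENNReal.ofReal_sub _ (mul_nonneg (pow_nonneg (sub_nonneg.2 h1) _) hV0)]
      _ ≤ ENNReal.ofReal (n * t * V) := by
          apply ENNReal.ofReal_le_ofReal
          have hb := one_add_mul_le_pow (show (-2 : ℝ) ≤ -t by linarith) n
          rw [← sub_eq_add_neg] at hb
          nlinarith
  · calc volume {y | y ∈ K ∧ y + r • x ∉ K} ≤ volume K := measure_mono fun y hy => hy.1
      _ = ENNReal.ofReal V := hVK
      _ ≤ ENNReal.ofReal (n * t * V) := by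
          apply ENNReal.ofReal_le_ofReal
          have : 1 ≤ n * t := by nlinarith
          nlinarith

/-- The key identity. -/
theorem key {K : Set E} (hK : IsCompact K) (hc : Convex ℝ K) (hint : (interior K).Nonempty)
    (hn : 1 ≤ Module.finrank ℝ E) {q : ℝ} (hq : 0 < q) (hq1 : q < 1) {x : E} (hx : x ≠ 0) :
    ∫⁻ y in K, ENNReal.ofReal (RR K x y ^ (-q)) < ∞ ∧
    ∫⁻ y in K, ENNReal.ofReal (RR K x y ^ (-q))
      = ∫⁻ ξ, ENNReal.ofReal (‖𝓕 (ic K) ξ‖ ^ 2 * (Cq q * |inner ℝ x ξ| ^ q)) := by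
  have hfin : volume K ≠ ∞ := hK.measure_lt_top.ne
  have hKm : MeasurableSet K := hK.measurableSet
  obtain ⟨z₀, hz₀⟩ := hint
  obtain ⟨δ, hδ, hball⟩ : ∃ δ > 0, closedBall z₀ δ ⊆ K := by
    obtain ⟨ε, hε, h⟩ := Metric.isOpen_iff.1 isOpen_interior z₀ hz₀
    exact ⟨ε / 2, by positivity, (closedBall_subset_ball (by linarith)).trans
      (h.trans interior_subset)⟩
  set B : ℝ := Module.finrank ℝ E * (volume K).toReal * ‖x‖ / δ with hB
  have hvol := fun {r : ℝ} (hr : 0 < r) => vol_le hK hc hδ hball hx hn hr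
  -- almost every point has positive radial function
  have hpos : ∀ᵐ y ∂(volume.restrict K), 0 < RR K x y := by
    rw [ae_restrict_iff' hKm, ae_iff]
    have hsub : ∀ r : ℝ, 0 < r → {a | ¬(a ∈ K → 0 < RR K x a)} ⊆ {y | y ∈ K ∧ y + r • x ∉ K} := by
      intro r hr y hy
      simp only [Classical.not_imp, mem_ofPred_eq] at hy
      refine ⟨hy.1, fun h => hy.2 ?_⟩
      exact hr.trans_le (((RR_iff hK hc hx hy.1).2 r hr.le).1 h)
    have hle : ∀ r : ℝ, 0 < r → volume {a | ¬(a ∈ K → 0 < RR K x a)} ≤ ENNReal.ofReal (B * r) :=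
      fun r hr => (measure_mono (hsub r hr)).trans (hvol hr)
    have hlim : Filter.Tendsto (fun r : ℝ => ENNReal.ofReal (B * r)) (nhdsWithin 0 (Ioi 0))
        (nhds 0) := by
      have h1 : Filter.Tendsto (fun r : ℝ => ENNReal.ofReal (B * r)) (nhds 0)
          (nhds (ENNReal.ofReal (B * 0))) :=
        (ENNReal.continuous_ofReal.comp (continuous_const.mul continuous_id)).tendsto 0
      rw [mul_zero, ENNReal.ofReal_zero] at h1
      exact h1.mono_left nhdsWithin_le_nhds
    have := ge_of_tendsto hlim (by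
      filter_upwards [self_mem_nhdsWithin] with r hr
      exact hle r hr)
    exact le_antisymm this zero_le
  -- layer cake
  have hmS : MeasurableSet {p : E × ℝ | p.1 + p.2 • x ∉ K} :=
    (hKm.preimage (by fun_prop : Measurable fun p : E × ℝ => p.1 + p.2 • x)).compl
  have e1 : ∫⁻ y in K, ENNReal.ofReal (RR K x y ^ (-q))
      = ∫⁻ y in K, ∫⁻ r in Ioi (0 : ℝ), ENNReal.ofReal (q * r ^ (-1 - q))
          * ({p : E × ℝ | p.1 + p.2 • x ∉ K}.indicator (fun _ => 1) (y, r)) := by
    refine lintegral_congr_ae ?_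
    filter_upwards [hpos, ae_restrict_mem hKm] with y hy hyK
    have h1 := (RR_iff hK hc hx hyK).2
    rw [← int_pow hq hy]
    have h2 : ∀ r ∈ Ioi (0 : ℝ), ENNReal.ofReal (q * r ^ (-1 - q))
          * ({p : E × ℝ | p.1 + p.2 • x ∉ K}.indicator (fun _ => 1) (y, r))
        = (Ioi (RR K x y)).indicator (fun r => ENNReal.ofReal (q * r ^ (-1 - q))) r := by
      intro r hr
      have hr0 : (0 : ℝ) < r := hr
      by_cases h : y + r • x ∈ K
      · have h3 : ¬ (RR K x y < r) := not_lt.2 ((h1 r hr0.le).1 h)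
        rw [indicator_of_notMem (by simpa using h), indicator_of_notMem (by simpa using h3),
          mul_zero]
      · have h3 : RR K x y < r := by
          by_contra hcon
          exact h ((h1 r hr0.le).2 (not_lt.1 hcon))
        rw [indicator_of_mem (by simpa using h), indicator_of_mem (by simpa using h3), mul_one]
    rw [setLIntegral_congr_fun measurableSet_Ioi h2, lintegral_indicator measurableSet_Ioi,
      Measure.restrict_restrict measurableSet_Ioi]
    congr 2
    ext r
    simp only [mem_inter_iff, mem_Ioi]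
    constructor
    · intro h; exact ⟨h, hy.trans h⟩
    · intro h; exact h.1
  have e2 : ∫⁻ y in K, ∫⁻ r in Ioi (0 : ℝ), ENNReal.ofReal (q * r ^ (-1 - q))
          * ({p : E × ℝ | p.1 + p.2 • x ∉ K}.indicator (fun _ => 1) (y, r))
      = ∫⁻ r in Ioi (0 : ℝ), ENNReal.ofReal (q * r ^ (-1 - q))
          * volume {y | y ∈ K ∧ y + r • x ∉ K} := by
    rw [lintegral_lintegral_swap]
    · refine lintegral_congr fun r => ?_
      rw [lintegral_const_mul' _ _ ENNReal.ofReal_ne_top]
      congr 1
      have hm1 : MeasurableSet {y : E | y + r • x ∉ K} :=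
        (hKm.preimage (by fun_prop : Measurable fun y : E => y + r • x)).compl
      have h3 : ∀ y, ({p : E × ℝ | p.1 + p.2 • x ∉ K}.indicator (fun _ => (1 : ℝ≥0∞)) (y, r))
          = ({y : E | y + r • x ∉ K}).indicator (fun _ => 1) y := fun y => rfl
      simp_rw [h3]
      rw [lintegral_indicator hm1, lintegral_one, Measure.restrict_restrict hm1,
        Measure.restrict_apply_univ]
      congr 1
      ext y
      simp only [mem_inter_iff, mem_ofPred_eq]
      tauto
    · refine Measurable.aemeasurable ?_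
      refine Measurable.mul ?_ (measurable_const.indicator hmS)
      fun_prop
  have e3 : ∫⁻ r in Ioi (0 : ℝ), ENNReal.ofReal (q * r ^ (-1 - q))
          * volume {y | y ∈ K ∧ y + r • x ∉ K}
      = ∫⁻ r in Ioi (0 : ℝ), ∫⁻ ξ, ENNReal.ofReal (q * r ^ (-1 - q))
        * ENNReal.ofReal (‖𝓕 (ic K) ξ‖ ^ 2 * (1 - Real.cos (2 * π * inner ℝ (r • x) ξ))) := by
    refine lintegral_congr fun r => ?_
    rw [vol_diff hKm hfin, lintegral_const_mul' _ _ ENNReal.ofReal_ne_top]
  have hFc := continuous_fourier_ic hKm hfin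
  have e4 : ∫⁻ r in Ioi (0 : ℝ), ∫⁻ ξ, ENNReal.ofReal (q * r ^ (-1 - q))
        * ENNReal.ofReal (‖𝓕 (ic K) ξ‖ ^ 2 * (1 - Real.cos (2 * π * inner ℝ (r • x) ξ)))
      = ∫⁻ ξ, ENNReal.ofReal (‖𝓕 (ic K) ξ‖ ^ 2 * (Cq q * |inner ℝ x ξ| ^ q)) := by
    rw [lintegral_lintegral_swap]
    · refine lintegral_congr fun ξ => ?_
      rw [ENNReal.ofReal_mul (sq_nonneg _), ← cos_int hq hq1,
        ← lintegral_const_mul' _ _ ENNReal.ofReal_ne_top]
      refine setLIntegral_congr_fun measurableSet_Ioi fun r hr => ?_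
      have hr0 : (0 : ℝ) < r := hr
      show ENNReal.ofReal (q * r ^ (-1 - q))
        * ENNReal.ofReal (‖𝓕 (ic K) ξ‖ ^ 2 * (1 - Real.cos (2 * π * inner ℝ (r • x) ξ)))
        = ENNReal.ofReal (‖𝓕 (ic K) ξ‖ ^ 2)
          * ENNReal.ofReal (q * r ^ (-1 - q) * (1 - Real.cos (2 * π * (r * inner ℝ x ξ))))
      rw [← ENNReal.ofReal_mul (by positivity), ← ENNReal.ofReal_mul (by positivity),
        real_inner_smul_left]
      congr 1
      ring
    · refine Measurable.aemeasurable ?_
      show Measurable (fun p : ℝ × E => ENNReal.ofReal (q * p.1 ^ (-1 - q))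
        * ENNReal.ofReal (‖𝓕 (ic K) p.2‖ ^ 2 * (1 - Real.cos (2 * π * inner ℝ (p.1 • x) p.2))))
      have m1 : Measurable (fun p : ℝ × E => ENNReal.ofReal (q * p.1 ^ (-1 - q))) := by fun_prop
      have m2 : Measurable (fun p : ℝ × E => ‖𝓕 (ic K) p.2‖ ^ 2) :=
        ((hFc.measurable.comp measurable_snd).norm).pow_const 2
      have m3 : Measurable (fun p : ℝ × E => 1 - Real.cos (2 * π * inner ℝ (p.1 • x) p.2)) := by
        have : Continuous (fun p : ℝ × E => 1 - Real.cos (2 * π * inner ℝ (p.1 • x) p.2)) := by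
          fun_prop
        exact this.measurable
      exact m1.mul (ENNReal.measurable_ofReal.comp (m2.mul m3))
  refine ⟨?_, by rw [e1, e2, e3, e4]⟩
  rw [e1, e2]
  exact finite_int hq hq1 (A := (volume K).toReal) (B := B)
    (fun r hr => by
      rw [ENNReal.ofReal_toReal hfin]
      exact measure_mono fun y hy => hy.1)
    (fun r hr => hvol hr)

theorem aesm {K : Set E} (hK : IsCompact K) (hc : Convex ℝ K) {x : E} (hx : x ≠ 0) (q : ℝ) :
    AEStronglyMeasurable (fun y => RR K x y ^ (-q)) (volume.restrict K) := by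
  have hKm : MeasurableSet K := hK.measurableSet
  have hm : Measurable (K.indicator (RR K x)) := by
    refine measurable_of_Ici fun c => ?_
    rcases le_or_gt c 0 with h | h
    · have : K.indicator (RR K x) ⁻¹' Ici c = univ := by
        ext y
        simp only [mem_preimage, mem_Ici, mem_univ, iff_true]
        by_cases hy : y ∈ K
        · rw [indicator_of_mem hy]; exact h.trans (RR_iff hK hc hx hy).1
        · rw [indicator_of_notMem hy]; exact h
      rw [this]; exact MeasurableSet.univ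
    · have : K.indicator (RR K x) ⁻¹' Ici c = K ∩ {y | y + c • x ∈ K} := by
        ext y
        simp only [mem_preimage, mem_Ici, mem_inter_iff, mem_ofPred_eq]
        by_cases hy : y ∈ K
        · rw [indicator_of_mem hy, (RR_iff hK hc hx hy).2 c h.le]
          simp [hy]
        · rw [indicator_of_notMem hy]
          simp [hy, h]
      rw [this]
      exact hKm.inter (hKm.preimage (by fun_prop))
  have h2 : Measurable (fun y => K.indicator (RR K x) y ^ (-q)) := hm.pow_const _
  refine h2.aestronglyMeasurable.congr ?_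
  filter_upwards [ae_restrict_mem hKm] with y hy
  rw [indicator_of_mem hy]

end Pool.Agent.X166.RM
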