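import Mathlib

open MeasureTheory Metric
open scoped Real

namespace Pool.Agent.X166.Rotor

abbrev E : Type := EuclideanSpace ℝ (Fin 3)

/-! ### A local Cauchy equation -/

theorem cauchy {f : ℝ → ℝ} {M : ℝ} (hM : ∀ r, |r| ≤ 1 → |f r| ≤ M)
    (h : ∀ r s, r ^ 2 + s ^ 2 + (r + s) ^ 2 ≤ 3 / 2 → f r + f s + f (-(r + s)) = 0) :
    ∀ r, |r| ≤ 1 → f r = r * f 1 := by
  have f0 : f 0 = 0 := by
    have := h 0 0 (by norm_num)
    simp at this
    linarith
  have odd1 : ∀ r, |r| ≤ 1 / 2 → f (-r) = - f r := by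
    intro r hr
    have h1 := h r 0 (by
      have := abs_le.1 hr
      nlinarith [this.1, this.2])
    simp [f0] at h1
    linarith
  have dbl : ∀ r, |r| ≤ 1 → f r = 2 * f (r / 2) := by
    intro r hr
    have hr' := abs_le.1 hr
    have h1 := h (-(r / 2)) (-(r / 2)) (by nlinarith [hr'.1, hr'.2])
    rw [show -(-(r / 2) + -(r / 2)) = r by ring, odd1 (r / 2) (by
      rw [abs_div, abs_two]; linarith)] at h1
    linarith
  have odd : ∀ r, |r| ≤ 1 → f (-r) = - f r := by
    intro r hr
    rw [dbl (-r) (by rwa [abs_neg]), dbl r hr, neg_div, odd1 (r / 2) (by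
      rw [abs_div, abs_two]; linarith)]
    ring
  set φ : ℝ → ℝ := fun r => f r - r * f 1 with hφ
  have add : ∀ r s, r ^ 2 + s ^ 2 + (r + s) ^ 2 ≤ 3 / 2 → φ (r + s) = φ r + φ s := by
    intro r s hrs
    have h1 := h r s hrs
    rw [odd (r + s) (by
      rw [abs_le]
      constructor <;> nlinarith [sq_nonneg (r - s)])] at h1
    simp only [hφ]
    linarith
  have φ1 : φ 1 = 0 := by simp [hφ]
  have φd : ∀ r, |r| ≤ 1 → φ r = 2 * φ (r / 2) := by
    intro r hr
    simp only [hφ]
    rw [dbl r hr]; ring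
  have φh : φ (1 / 2) = 0 := by
    have := φd 1 (by simp)
    linarith
  have shift : ∀ r, -1 ≤ r → r ≤ 1 / 2 → φ (r + 1 / 2) = φ r := by
    intro r h1 h2
    rw [add r (1 / 2) (by nlinarith), φh, add_zero]
  have bound : ∀ n : ℕ, ∀ r, |r| ≤ 1 → |φ r| ≤ (M + M) / 2 ^ n := by
    intro n
    induction n with
    | zero =>
      intro r hr
      have h1 := hM r hr
      have h2 := hM 1 (by simp)
      simp only [hφ, pow_zero, div_one]
      calc |f r - r * f 1| ≤ |f r| + |r * f 1| := abs_sub _ _
        _ ≤ M + 1 * M := by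
          rw [abs_mul]
          have := mul_le_mul hr h2 (abs_nonneg _) zero_le_one
          linarith
        _ = M + M := by ring
    | succ n ih =>
      intro r hr
      obtain ⟨r', hr', he⟩ : ∃ r', |r'| ≤ 1 / 2 ∧ φ r = φ r' := by
        have hr' := abs_le.1 hr
        rcases le_or_gt r (-(1 / 2)) with h1 | h1
        · exact ⟨r + 1 / 2, abs_le.2 ⟨by linarith [hr'.1], by linarith⟩,
            (shift r hr'.1 (by linarith)).symm⟩
        rcases le_or_gt r (1 / 2) with h2 | h2
        · exact ⟨r, abs_le.2 ⟨h1.le, h2⟩, rfl⟩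
        · refine ⟨r - 1 / 2, abs_le.2 ⟨by linarith, by linarith [hr'.2]⟩, ?_⟩
          have := shift (r - 1 / 2) (by linarith) (by linarith [hr'.2])
          rwa [sub_add_cancel] at this
      have h2 := φd (2 * r') (by
        rw [abs_mul, abs_two]; linarith)
      rw [mul_div_cancel_left₀ _ (two_ne_zero)] at h2
      have h3 := ih (2 * r') (by rw [abs_mul, abs_two]; linarith)
      rw [he]
      rw [h2, abs_mul, abs_two] at h3
      rw [pow_succ, ← div_div, le_div_iff₀ two_pos]
      linarith
  intro r hr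
  have hlim : Filter.Tendsto (fun n : ℕ => (M + M) / 2 ^ n) Filter.atTop (nhds 0) := by
    have := (tendsto_pow_atTop_nhds_zero_of_lt_one (r := (1 / 2 : ℝ)) (by norm_num)
      (by norm_num)).const_mul (M + M)
    simpa [div_eq_mul_inv] using this
  have h0 : |φ r| ≤ 0 := ge_of_tendsto' hlim fun n => bound n r hr
  have h1 : φ r = 0 := abs_nonpos_iff.1 h0
  simp only [hφ] at h1
  linarith

/-! ### Rotations about the last axis -/

/-- Rotation by the angle `θ` about the last axis, as a linear map. -/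
noncomputable def rotLin (θ : ℝ) : E →ₗ[ℝ] E where
  toFun x := !₂[Real.cos θ * x 0 - Real.sin θ * x 1, Real.sin θ * x 0 + Real.cos θ * x 1, x 2]
  map_add' x y := by
    ext i; fin_cases i <;> simp <;> ring
  map_smul' c x := by
    ext i; fin_cases i <;> simp <;> ring

/-- Rotation by the angle `θ` about the last axis. -/
noncomputable def rot (θ : ℝ) : E ≃ₗᵢ[ℝ] E :=
  LinearIsometry.toLinearIsometryEquiv
    { rotLin θ with
      norm_map' := fun x => by
        rw [EuclideanSpace.norm_eq, EuclideanSpace.norm_eq]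
        congr 1
        simp only [Fin.sum_univ_three, Real.norm_eq_abs, sq_abs]
        simp [rotLin]
        nlinarith [Real.sin_sq_add_cos_sq θ, sq_nonneg (x 0), sq_nonneg (x 1)] } rfl

theorem rot_apply (θ : ℝ) (x : E) : rot θ x =
    !₂[Real.cos θ * x 0 - Real.sin θ * x 1, Real.sin θ * x 0 + Real.cos θ * x 1, x 2] := rfl

attribute [irreducible] rot

theorem rot_two (θ : ℝ) (x : E) : (rot θ x) 2 = x 2 := by
  rw [rot_apply]; simp

theorem rot_add (a b : ℝ) (x : E) : rot (a + b) x = rot a (rot b x) := by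
  simp only [rot_apply]
  ext i
  fin_cases i
  · simp [Real.cos_add, Real.sin_add]; ring
  · simp [Real.cos_add, Real.sin_add]; ring
  · simp

theorem rot_continuous : Continuous (fun p : ℝ × E => rot p.1 p.2) := by
  simp only [rot_apply]
  refine (PiLp.continuous_toLp 2 _).comp (continuous_pi fun i => ?_)
  fin_cases i
  · simp; fun_prop
  · simp; fun_prop
  · simp; fun_prop

end Pool.Agent.X166.Rotor
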