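import Pool.Agent.X166.RotorA

open MeasureTheory Metric
open scoped Real

namespace Pool.Agent.X166.Rotor

/-- The functional equation on triples of unit vectors with sum zero. -/
def Triple (g : E → ℝ) : Prop :=
  ∀ u v w : E, ‖u‖ = 1 → ‖v‖ = 1 → ‖w‖ = 1 → u + v + w = 0 → g u + g v + g w = 0

/-- The average over rotations about the last axis. -/
noncomputable def avg (g : E → ℝ) (x : E) : ℝ := ∫ θ in (0 : ℝ)..(2 * π), g (rot θ x)

theorem exists_isom {p : E} (hp : ‖p‖ = 1) : ∃ ρ : E ≃ₗᵢ[ℝ] E, ∀ x, (ρ x) 2 = inner ℝ p x := by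
  obtain ⟨b, hb⟩ := Orthonormal.exists_orthonormalBasis_extension_of_card_eq
    (ι := Fin 3) (𝕜 := ℝ) (E := E) (by simp) (v := fun _ => p) (s := {2})
    (by
      refine ⟨fun i => ?_, fun i j hij => ?_⟩
      · simpa using hp
      · exact absurd (Subsingleton.elim i j) hij)
  have hb2 : b 2 = p := hb 2 rfl
  refine ⟨b.repr, fun x => ?_⟩
  rw [b.repr_apply_apply, hb2]

theorem cont_rot (g : E → ℝ) (hg : Continuous g) (x : E) : Continuous fun θ => g (rot θ x) :=
  hg.comp (rot_continuous.comp (Continuous.prodMk continuous_id continuous_const))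

theorem avg_rot (g : E → ℝ) (φ : ℝ) (x : E) : avg g (rot φ x) = avg g x := by
  unfold avg
  have h1 : ∀ θ, g (rot θ (rot φ x)) = (fun t => g (rot t x)) (θ + φ) := fun θ => by
    rw [← rot_add]
  simp_rw [h1]
  rw [intervalIntegral.integral_comp_add_right (fun t => g (rot t x)) φ]
  have hper : Function.Periodic (fun t => g (rot t x)) (2 * π) := by
    intro t
    simp only [rot_apply, Real.cos_add_two_pi, Real.sin_add_two_pi]
  have := hper.intervalIntegral_add_eq (0 + φ) 0
  rw [show 2 * π + φ = 0 + φ + 2 * π by ring, this, zero_add]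

/-- Points of the unit sphere with the same last coordinate have the same average. -/
theorem avg_eq_of (g : E → ℝ) {x y : E} (hx : ‖x‖ = 1) (hy : ‖y‖ = 1) (hxy : x 2 = y 2) :
    avg g x = avg g y := by
  have key : ∀ z : E, ‖z‖ = 1 → avg g z = avg g !₂[Real.sqrt (1 - (z 2) ^ 2), 0, z 2] := by
    intro z hz
    have hz' : (z 0) ^ 2 + (z 1) ^ 2 + (z 2) ^ 2 = 1 := by
      have := EuclideanSpace.norm_sq_eq z
      rw [hz, Fin.sum_univ_three] at this
      simp only [Real.norm_eq_abs, sq_abs] at this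
      linarith
    set c : ℂ := ⟨z 0, z 1⟩ with hc
    have hcn : ‖c‖ = Real.sqrt (1 - (z 2) ^ 2) := by
      rw [Complex.norm_def, Complex.normSq_apply]
      congr 1
      simp only [hc]
      nlinarith
    have h0 : z 0 = Real.cos c.arg * Real.sqrt (1 - (z 2) ^ 2) := by
      rw [← hcn, mul_comm, Complex.norm_mul_cos_arg]
    have h1 : z 1 = Real.sin c.arg * Real.sqrt (1 - (z 2) ^ 2) := by
      rw [← hcn, mul_comm, Complex.norm_mul_sin_arg]
    have h2 : z = rot c.arg !₂[Real.sqrt (1 - (z 2) ^ 2), 0, z 2] := by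
      rw [rot_apply]
      ext i
      fin_cases i
      · simpa using h0
      · simpa using h1
      · simp
    conv_lhs => rw [h2]
    rw [avg_rot]
  rw [key x hx, key y hy, hxy]

theorem norm_e (a b c : ℝ) (h : a ^ 2 + b ^ 2 + c ^ 2 = 1) : ‖(!₂[a, b, c] : E)‖ = 1 := by
  rw [EuclideanSpace.norm_eq, Fin.sum_univ_three]
  simp only [Real.norm_eq_abs, sq_abs]
  simp [h]

/-- The averaged function is linear in the last coordinate. -/
theorem avg_unit {g : E → ℝ} (hg : Continuous g) (hT : Triple g) {x : E} (hx : ‖x‖ = 1) :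
    avg g x = x 2 * avg g !₂[0, 0, 1] := by
  set f : ℝ → ℝ := fun r => avg g !₂[Real.sqrt (1 - r ^ 2), 0, r] with hf
  have havg : ∀ z : E, ‖z‖ = 1 → avg g z = f (z 2) := by
    intro z hz
    have hz' : (z 0) ^ 2 + (z 1) ^ 2 + (z 2) ^ 2 = 1 := by
      have := EuclideanSpace.norm_sq_eq z
      rw [hz, Fin.sum_univ_three] at this
      simp only [Real.norm_eq_abs, sq_abs] at this
      linarith
    refine avg_eq_of g hz (norm_e _ _ _ ?_) (by simp)
    rw [Real.sq_sqrt (by nlinarith [sq_nonneg (z 0), sq_nonneg (z 1)])]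
    ring
  -- boundedness
  obtain ⟨M, hM⟩ : ∃ M, ∀ z : E, ‖z‖ = 1 → |g z| ≤ M := by
    obtain ⟨M, hM⟩ := (isCompact_sphere (0 : E) 1).exists_bound_of_continuousOn hg.continuousOn
    exact ⟨M, fun z hz => hM z (by simpa using hz)⟩
  have hfM : ∀ r, |r| ≤ 1 → |f r| ≤ M * |2 * π - 0| := by
    intro r hr
    have hr2 : r ^ 2 ≤ 1 := by
      have := abs_le.1 hr
      nlinarith [this.1, this.2]
    refine intervalIntegral.norm_integral_le_of_norm_le_const (E := ℝ) (C := M)
      (f := fun θ => g (rot θ !₂[Real.sqrt (1 - r ^ 2), 0, r])) fun θ _ => ?_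
    apply hM
    rw [LinearIsometryEquiv.norm_map]
    apply norm_e
    rw [Real.sq_sqrt (by linarith)]
    ring
  have hfT : ∀ r s, r ^ 2 + s ^ 2 + (r + s) ^ 2 ≤ 3 / 2 → f r + f s + f (-(r + s)) = 0 := by
    intro r s hrs
    set q : ℝ := (2 * s + r) / Real.sqrt 3 with hq
    have h3 : (0 : ℝ) < Real.sqrt 3 := Real.sqrt_pos.2 (by norm_num)
    have h33 : Real.sqrt 3 * Real.sqrt 3 = 3 := Real.mul_self_sqrt (by norm_num)
    have hq2 : q ^ 2 = (2 * s + r) ^ 2 / 3 := by
      rw [hq, div_pow, sq (Real.sqrt 3), h33]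
    have hle : r ^ 2 + q ^ 2 ≤ 1 := by rw [hq2]; nlinarith
    set c : ℝ := Real.sqrt (1 - r ^ 2 - q ^ 2) with hc
    have hc2 : c ^ 2 = 1 - r ^ 2 - q ^ 2 := by rw [hc, Real.sq_sqrt (by linarith)]
    obtain ⟨ρ, hρ⟩ := exists_isom (norm_e r q c (by rw [hc2]; ring))
    have hqs : Real.sqrt 3 / 2 * q = s + r / 2 := by
      rw [hq]; field_simp
    set u : E := ρ !₂[1, 0, 0] with hu
    set v : E := ρ !₂[-(1 / 2), Real.sqrt 3 / 2, 0] with hv
    set w : E := ρ !₂[-(1 / 2), -(Real.sqrt 3 / 2), 0] with hw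
    have nu : ‖u‖ = 1 := by
      rw [hu, LinearIsometryEquiv.norm_map]; apply norm_e; norm_num
    have nv : ‖v‖ = 1 := by
      rw [hv, LinearIsometryEquiv.norm_map]; apply norm_e
      rw [div_pow, sq (Real.sqrt 3), h33]; norm_num
    have nw : ‖w‖ = 1 := by
      rw [hw, LinearIsometryEquiv.norm_map]; apply norm_e
      rw [neg_sq (Real.sqrt 3 / 2), div_pow, sq (Real.sqrt 3), h33]; norm_num
    have huvw : u + v + w = 0 := by
      rw [hu, hv, hw, ← map_add, ← map_add]
      have : (!₂[1, 0, 0] + !₂[-(1 / 2), Real.sqrt 3 / 2, 0] + !₂[-(1 / 2), -(Real.sqrt 3 / 2), 0]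
          : E) = 0 := by
        ext i; fin_cases i
        · simp; norm_num
        · simp
        · simp
      rw [this, map_zero]
    have u2 : u 2 = r := by
      rw [hu, hρ, EuclideanSpace.inner_eq_star_dotProduct]
      simp [Fin.sum_univ_three, dotProduct]
    have v2 : v 2 = s := by
      rw [hv, hρ, EuclideanSpace.inner_eq_star_dotProduct]
      simp [Fin.sum_univ_three, dotProduct]
      linarith
    have w2 : w 2 = -(r + s) := by
      rw [hw, hρ, EuclideanSpace.inner_eq_star_dotProduct]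
      simp [Fin.sum_univ_three, dotProduct]
      linarith
    have hsum : avg g u + avg g v + avg g w = 0 := by
      unfold avg
      have hi : ∀ z, IntervalIntegrable (fun θ => g (rot θ z)) volume 0 (2 * π) :=
        fun z => (cont_rot g hg z).intervalIntegrable _ _
      rw [← intervalIntegral.integral_add (hi u) (hi v)]
      rw [← intervalIntegral.integral_add ((hi u).add (hi v)) (hi w)]
      have : ∀ θ, g (rot θ u) + g (rot θ v) + g (rot θ w) = 0 := fun θ => by
        apply hT
        · rw [LinearIsometryEquiv.norm_map, nu]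
        · rw [LinearIsometryEquiv.norm_map, nv]
        · rw [LinearIsometryEquiv.norm_map, nw]
        · rw [← map_add, ← map_add, huvw, map_zero]
      simp [this]
    rw [havg u nu, havg v nv, havg w nw, u2, v2, w2] at hsum
    exact hsum
  have hx2 : |x 2| ≤ 1 := by
    have := EuclideanSpace.norm_sq_eq x
    rw [hx, Fin.sum_univ_three] at this
    simp only [Real.norm_eq_abs, sq_abs] at this
    rw [abs_le]
    constructor <;> nlinarith [sq_nonneg (x 0), sq_nonneg (x 1)]
  have := cauchy hfM hfT (x 2) hx2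
  rw [havg x hx, this]
  congr 1
  simp [hf]

end Pool.Agent.X166.Rotor
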