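import Pool.Agent.X166.RotorB

open MeasureTheory Metric
open scoped Real

namespace Pool.Agent.X166.Rotor

theorem rot_fix (θ : ℝ) : rot θ !₂[0, 0, 1] = !₂[0, 0, 1] := by
  rw [rot_apply]
  ext i; fin_cases i <;> simp

theorem avg_fix (g : E → ℝ) : avg g !₂[0, 0, 1] = 2 * π * g !₂[0, 0, 1] := by
  unfold avg
  simp only [rot_fix]
  simp

theorem avg_all {g : E → ℝ} (hg : Continuous g) (hh : ∀ (r : ℝ) (x : E), 0 ≤ r → g (r • x) = r * g x)
    (hT : Triple g) (x : E) : avg g x = x 2 * (2 * π * g !₂[0, 0, 1]) := by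
  rw [← avg_fix]
  by_cases hx : x = 0
  · subst hx
    have h0 : g 0 = 0 := by simpa using hh 0 0 le_rfl
    unfold avg
    simp [h0]
  · have hn : 0 < ‖x‖ := norm_pos_iff.2 hx
    have hu : ‖(‖x‖)⁻¹ • x‖ = 1 := by
      rw [norm_smul, norm_inv, norm_norm, inv_mul_cancel₀ hn.ne']
    have h1 := avg_unit hg hT hu
    have h2 : avg g ((‖x‖)⁻¹ • x) = (‖x‖)⁻¹ * avg g x := by
      unfold avg
      rw [← intervalIntegral.integral_const_mul]
      congr 1
      ext θ
      rw [map_smul, hh _ _ (inv_nonneg.2 hn.le)]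
    rw [h2] at h1
    have h3 : ((‖x‖)⁻¹ • x) 2 = (‖x‖)⁻¹ * x 2 := by simp
    rw [h3] at h1
    field_simp at h1
    exact h1

theorem setInt_isom (ρ : E ≃ₗᵢ[ℝ] E) (F : E → ℝ) :
    ∫ x in closedBall (0 : E) 1, F (ρ x) = ∫ x in closedBall (0 : E) 1, F x := by
  have h1 := (ρ.measurePreserving).setIntegral_preimage_emb
    ρ.toHomeomorph.measurableEmbedding F (closedBall (0 : E) 1)
  have h2 : ρ ⁻¹' closedBall (0 : E) 1 = closedBall (0 : E) 1 := by
    rw [LinearIsometryEquiv.preimage_closedBall, map_zero]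
  rw [h2] at h1
  exact h1

theorem int_id {g : E → ℝ} (hg : Continuous g)
    (hh : ∀ (r : ℝ) (x : E), 0 ≤ r → g (r • x) = r * g x) (hT : Triple g) :
    ∫ x in closedBall (0 : E) 1, g x * x 2
      = g !₂[0, 0, 1] * ∫ x in closedBall (0 : E) 1, (x 2) ^ 2 := by
  have hcont : Continuous (fun q : ℝ × E => g (rot q.1 q.2) * q.2 2) := by
    refine (hg.comp rot_continuous).mul ?_
    fun_prop
  have h1 : ∀ θ : ℝ, ∫ x in closedBall (0 : E) 1, g (rot θ x) * x 2
      = ∫ x in closedBall (0 : E) 1, g x * x 2 := by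
    intro θ
    have := setInt_isom (rot θ) (fun x => g x * x 2)
    simpa only [rot_two] using this
  have h2 : ∫ θ in (0 : ℝ)..(2 * π), ∫ x in closedBall (0 : E) 1, g (rot θ x) * x 2
      = 2 * π * ∫ x in closedBall (0 : E) 1, g x * x 2 := by
    simp only [h1]
    simp
  have h3 : ∫ θ in (0 : ℝ)..(2 * π), ∫ x in closedBall (0 : E) 1, g (rot θ x) * x 2
      = ∫ x in closedBall (0 : E) 1, ∫ θ in (0 : ℝ)..(2 * π), g (rot θ x) * x 2 := by
    apply intervalIntegral_integral_swap
    rw [Measure.prod_restrict]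
    have hK : IsCompact (Set.Icc 0 (2 * π) ×ˢ closedBall (0 : E) 1) :=
      isCompact_Icc.prod (isCompact_closedBall 0 1)
    have := (hcont.continuousOn (s := Set.Icc 0 (2 * π) ×ˢ closedBall (0 : E) 1)).integrableOn_compact
      (μ := (volume : Measure ℝ).prod (volume : Measure E)) hK
    refine this.mono_set ?_
    apply Set.prod_mono_left
    rw [Set.uIoc_of_le (by positivity)]
    exact Set.Ioc_subset_Icc_self
  have h4 : ∀ x : E, ∫ θ in (0 : ℝ)..(2 * π), g (rot θ x) * x 2
      = (2 * π * g !₂[0, 0, 1]) * (x 2) ^ 2 := by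
    intro x
    rw [intervalIntegral.integral_mul_const]
    have := avg_all hg hh hT x
    unfold avg at this
    rw [this]
    ring
  rw [h2] at h3
  simp only [h4] at h3
  rw [integral_const_mul] at h3
  have hpi : (2 * π) ≠ 0 := by positivity
  have h5 : 2 * π * (∫ x in closedBall (0 : E) 1, g x * x 2)
      = 2 * π * (g !₂[0, 0, 1] * ∫ x in closedBall (0 : E) 1, (x 2) ^ 2) := by
    rw [h3]; ring
  exact mul_left_cancel₀ hpi h5

theorem kappa_pos : 0 < ∫ x in closedBall (0 : E) 1, (x 2) ^ 2 := by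
  have hc : Continuous fun x : E => (x 2) ^ 2 := by fun_prop
  rw [setIntegral_pos_iff_support_of_nonneg_ae]
  · have hopen : IsOpen ({x : E | x 2 ≠ 0} ∩ ball (0 : E) 1) := by
      refine IsOpen.inter ?_ isOpen_ball
      exact isOpen_ne_fun (by fun_prop) continuous_const
    have hne : ({x : E | x 2 ≠ 0} ∩ ball (0 : E) 1).Nonempty := by
      refine ⟨(1 / 2 : ℝ) • !₂[0, 0, 1], ?_, ?_⟩
      · simp
      · rw [mem_ball_zero_iff, norm_smul, norm_e 0 0 1 (by norm_num)]
        norm_num
    refine lt_of_lt_of_le (hopen.measure_pos volume hne) (measure_mono ?_)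
    rintro x ⟨hx1, hx2⟩
    refine ⟨?_, ball_subset_closedBall hx2⟩
    exact pow_ne_zero 2 hx1
  · exact Filter.Eventually.of_forall fun x => sq_nonneg _
  · exact hc.continuousOn.integrableOn_compact (isCompact_closedBall 0 1)

/-- A continuous, positively homogeneous function satisfying the functional equation on triples
is given on the unit sphere by a linear functional. -/
theorem linear_of_triple {g : E → ℝ} (hg : Continuous g)
    (hh : ∀ (r : ℝ) (x : E), 0 ≤ r → g (r • x) = r * g x) (hT : Triple g) :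
    ∃ w : E, ∀ p : E, ‖p‖ = 1 → g p = inner ℝ p w := by
  set κ : ℝ := ∫ x in closedBall (0 : E) 1, (x 2) ^ 2 with hκ
  have hκ0 : 0 < κ := kappa_pos
  refine ⟨κ⁻¹ • ∫ x in closedBall (0 : E) 1, g x • x, fun p hp => ?_⟩
  obtain ⟨ρ, hρ⟩ := exists_isom hp
  have hρp : ρ p = !₂[0, 0, 1] := by
    have h2 : (ρ p) 2 = 1 := by rw [hρ, real_inner_self_eq_norm_sq, hp]; norm_num
    have hn := EuclideanSpace.norm_sq_eq (ρ p)
    rw [LinearIsometryEquiv.norm_map, hp, Fin.sum_univ_three] at hn
    simp only [Real.norm_eq_abs, sq_abs] at hn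
    rw [h2] at hn
    have h0 : (ρ p) 0 = 0 := by nlinarith [sq_nonneg ((ρ p) 0), sq_nonneg ((ρ p) 1)]
    have h1 : (ρ p) 1 = 0 := by nlinarith [sq_nonneg ((ρ p) 0), sq_nonneg ((ρ p) 1)]
    ext i
    fin_cases i
    exacts [h0, h1, h2]
  have hg' : Continuous (fun x => g (ρ.symm x)) := hg.comp ρ.symm.continuous
  have hh' : ∀ (r : ℝ) (x : E), 0 ≤ r → g (ρ.symm (r • x)) = r * g (ρ.symm x) := fun r x hr => by
    rw [map_smul, hh _ _ hr]
  have hT' : Triple (fun x => g (ρ.symm x)) := by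
    intro u v w hu hv hw h
    apply hT
    · rw [LinearIsometryEquiv.norm_map, hu]
    · rw [LinearIsometryEquiv.norm_map, hv]
    · rw [LinearIsometryEquiv.norm_map, hw]
    · rw [← map_add, ← map_add, h, map_zero]
  have h1 := int_id hg' hh' hT'
  rw [← hρp] at h1
  simp only [LinearIsometryEquiv.symm_apply_apply] at h1
  have h2 := setInt_isom ρ (fun x => g (ρ.symm x) * x 2)
  simp only [LinearIsometryEquiv.symm_apply_apply] at h2
  rw [← h2] at h1
  simp only [hρ] at h1
  have hint : IntegrableOn (fun x => g x • x) (closedBall (0 : E) 1) :=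
    (hg.smul continuous_id).continuousOn.integrableOn_compact (isCompact_closedBall 0 1)
  have h3 : ∫ x in closedBall (0 : E) 1, g x * inner ℝ p x
      = inner ℝ p (∫ x in closedBall (0 : E) 1, g x • x) := by
    rw [← integral_inner hint]
    congr 1
    ext x
    rw [real_inner_smul_right]
  rw [h3, ← hκ] at h1
  rw [real_inner_smul_right, h1]
  field_simp

end Pool.Agent.X166.Rotor
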